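import Mathlib
import Pool.Agent.Lib.H99.NF.Main2
import Pool.Agent.Lib.H99.NF.DefsM

/-!
# The local test theorem: definitions

`Ω` is an algebraic closure of `ℚ`, `Γ` an open subgroup of `Gal(Ω/ℚ)`, in the applications the
group `Gal(Ω/F)` of a number field `F`, and `ρ` a `p`-adic representation of `Γ`.
-/

namespace Pool.Agent.H99L

open NumberField TensorProduct Module Polynomial Pool.Agent.GSem Pool.Agent.NF

section general

/-- `S` and the multiset of all `lam / z`, `z ∈ S`, are together contained in `R`. -/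
def IsoIn {K : Type*} [Field K] (lam : K) (S R : Multiset K) : Prop :=
  S + S.map (fun z => lam / z) ≤ R

/-- The roots of a polynomial in an algebraic closure, with multiplicities. -/
noncomputable def rts {K : Type*} [Field K] (P : K[X]) : Multiset (AlgebraicClosure K) :=
  (P.map (algebraMap K (AlgebraicClosure K))).roots

open Classical in
/-- The eigenvalues of `T` on the `T`-stable subspace `U`, with multiplicities (`0` if `U` is not
`T`-stable). -/
noncomputable def eig {K V : Type*} [Field K] [AddCommGroup V] [Module K V]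
    [FiniteDimensional K V] (T : V →ₗ[K] V) (U : Submodule K V) :
    Multiset (AlgebraicClosure K) :=
  if h : ∀ x ∈ U, T x ∈ U then rts (T.restrict h).charpoly else 0

/-- The elements `x i` represent the orbits of `g` on the cosets of `Γ`, and `f i` is the length of
the orbit of the coset of `x i`: the cosets of `g ^ j * x i`, `j < f i`, are all cosets, without
repetition, and `g ^ f i` fixes the coset of `x i`. If `g` is a Frobenius element at a prime `q`
unramified in the number field `F` and `Γ = Gal(Ω/F)`, the `x i` correspond to the places of `F`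
above `q`, the `f i` are their degrees and the `x i ⁻¹ * g ^ f i * x i` their Frobenius elements. -/
structure IsOrbits {G : Type*} [Group G] (Γ : Subgroup G) (g : G) {k : ℕ} (x : Fin k → G)
    (f : Fin k → ℕ) : Prop where
  pos : ∀ i, 0 < f i
  mem : ∀ i, (x i)⁻¹ * g ^ f i * x i ∈ Γ
  bij : Function.Bijective fun s : (Σ i : Fin k, Fin (f i)) =>
    ((g ^ (s.2 : ℕ) * x s.1 : G) : G ⧸ Γ)

/-- The element `x i ⁻¹ * g ^ f i * x i` of `Γ`. -/
def IsOrbits.elt {G : Type*} [Group G] {Γ : Subgroup G} {g : G} {k : ℕ} {x : Fin k → G}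
    {f : Fin k → ℕ} (h : IsOrbits Γ g x f) (i : Fin k) : Γ :=
  ⟨(x i)⁻¹ * g ^ f i * x i, h.mem i⟩

/-- The primitive part of weight `w + j`: the vectors of weight `w + j` killed by `N ^ (j + 1)`. The
operator `N` has `dim (primPart T N P w j)` Jordan blocks of size `j + 1`. -/
noncomputable def primPart {K V : Type*} [Field K] [CharZero K] [AddCommGroup V] [Module K V]
    (T N : V →ₗ[K] V) (P : ℤ → ℚ[X]) (w : ℤ) (j : ℕ) : Submodule K V :=
  wtPart T P (w + j) ⊓ LinearMap.ker (N ^ (j + 1))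

end general

section rep

variable {p : ℕ} [hp : Fact p.Prime] {Ω : Type*} [Field Ω] [CharZero Ω]
variable {Γ : Subgroup Gal(Ω/ℚ)} {V : Type*} [AddCommGroup V] [Module ℚ_[p] V]

/-- `U` is stable under the action. -/
def IsStable (ρ : Representation ℚ_[p] Γ V) (U : Submodule ℚ_[p] V) : Prop :=
  ∀ g, ∀ x ∈ U, ρ g x ∈ U

/-- `W` is an irreducible subrepresentation. -/
def IsIrredSub (ρ : Representation ℚ_[p] Γ V) (W : Submodule ℚ_[p] V) : Prop :=
  W ≠ ⊥ ∧ IsStable ρ W ∧ ∀ U ≤ W, IsStable ρ U → U = ⊥ ∨ U = W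

/-- The scalar `χ(g) ^ a`, where `χ` is the `p`-adic cyclotomic character. -/
noncomputable def chi (p : ℕ) [Fact p.Prime] {Ω : Type*} [Field Ω] [CharZero Ω] (g : Gal(Ω/ℚ))
    (a : ℤ) : ℚ_[p] :=
  toQ (cyc p Ω g) ^ a

/-- **Hodge–Tate clause.** Let `h σ` be the Hodge–Tate weights of `V` at the embeddings `σ` of the
number field `F` in the algebraic closure of `ℚ_[p]`. There are multisets `D σ` with `r` elements
such that `D σ` together with `w - D σ` is contained in `h σ`, such that `D σ` depends only on the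
place of `F` given by `σ`, and such that the sum of all elements of all `D σ` is `H`. -/
def HTClause {F : IntermediateField ℚ Ω} [NumberField F] (w : ℤ) (r : ℕ) (H : ℤ) {n : ℕ}
    (h : (F →+* PadicAlgCl p) → Fin n → ℤ) : Prop :=
  ∃ D : (F →+* PadicAlgCl p) → Multiset ℤ,
    (∀ σ, Multiset.card (D σ) = r) ∧
    (∀ σ, D σ + (D σ).map (fun d => w - d) ≤ Finset.univ.val.map (h σ)) ∧
    (∀ σ (τ : Gal(PadicAlgCl p/ℚ_[p])),
      D (((τ : PadicAlgCl p ≃+* PadicAlgCl p) : PadicAlgCl p →+* PadicAlgCl p).comp σ) = D σ) ∧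
    ∑ σ, (D σ).sum = H

/-- **Clause for all elements** `g` of `Gal(Ω/ℚ)`, for instance Frobenius elements and complex
conjugations. Let `g i ∈ Γ` be the elements attached to the orbits of `g` on the cosets of `Γ`, as
in `IsOrbits`. The eigenvalues `S i` of `g i` on `W` and all `χ (g i) ^ (- w) / z`, `z ∈ S i`, are
together contained in the eigenvalues of `g i` on `V`, and the product of the determinants of the
`g i` on `W` is `ε g * χ g ^ (- H)`. -/
def ElementClause [FiniteDimensional ℚ_[p] V] (ρ : Representation ℚ_[p] Γ V) (w : ℤ)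
    (W : Submodule ℚ_[p] V) (ε : Gal(Ω/ℚ) →* ℤ_[p]ˣ) (H : ℤ) : Prop :=
  ∀ (g : Gal(Ω/ℚ)) (k : ℕ) (x : Fin k → Gal(Ω/ℚ)) (f : Fin k → ℕ) (ho : IsOrbits Γ g x f),
    (∀ i, IsoIn (algebraMap ℚ_[p] _ (chi p g (-(w * f i)))) (eig (ρ (ho.elt i)) W)
      (rts (ρ (ho.elt i)).charpoly)) ∧
    ∏ i, (eig (ρ (ho.elt i)) W).prod = algebraMap ℚ_[p] _ (toQ (ε g) * chi p g (-H))

/-- **Clause at the places above a prime `l ≠ p`, of good or bad reduction.** Let `φ` be a Frobenius
element at `l` and `φ i ∈ Γ` the elements attached to its orbits on the cosets of `Γ`. If at each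
place the weight–monodromy condition of weight `w` holds for `φ i` and a monodromy operator `N i`,
then it also holds for `W`, and for all `j` the eigenvalues `S i j` of `φ i` on the primitive part
of `W` of weight `w + j` and all `l ^ (- f i * (w + j)) / z`, `z ∈ S i j`, are together contained in
the eigenvalues of `φ i` on the primitive part of `V`; the eigenvalues of `φ i` on `W` are the
`l ^ (f i * m) * z` with `z ∈ S i j` and `m ≤ j`. -/
def MonodromyClause [FiniteDimensional ℚ_[p] V] (ρ : Representation ℚ_[p] Γ V) (w : ℤ)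
    (W : Submodule ℚ_[p] V) : Prop :=
  ∀ (l : ℕ) (φ : Gal(Ω/ℚ)) (k : ℕ) (x : Fin k → Gal(Ω/ℚ)) (f : Fin k → ℕ)
    (ho : IsOrbits Γ φ x f), l.Prime → l ≠ p → IsFrobAt l φ →
    ∀ (τ : Fin k → Γ) (N : Fin k → V →ₗ[ℚ_[p]] V) (P : Fin k → ℤ → ℚ[X]) (S : Fin k → Finset ℤ),
      (∀ i, ρ (τ i) = nexp (N i) ∧ IsWM (l ^ f i) w (ρ (ho.elt i)) (N i) (P i) (S i)) →
      ∀ i, (∀ j : ℕ, Set.BijOn (N i ^ j)
          ((W ⊓ wtPart (ρ (ho.elt i)) (P i) (w + j) : Submodule ℚ_[p] V) : Set V)
          ((W ⊓ wtPart (ρ (ho.elt i)) (P i) (w - j) : Submodule ℚ_[p] V) : Set V)) ∧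
        (∀ j : ℕ, IsoIn (algebraMap ℚ_[p] _ (((l ^ f i : ℕ) : ℚ_[p]) ^ (-(w + j) : ℤ)))
          (eig (ρ (ho.elt i)) (W ⊓ primPart (ρ (ho.elt i)) (N i) (P i) w j))
          (eig (ρ (ho.elt i)) (primPart (ρ (ho.elt i)) (N i) (P i) w j))) ∧
        eig (ρ (ho.elt i)) W = ∑ j ∈ Finset.range (finrank ℚ_[p] V), ∑ m ∈ Finset.range (j + 1),
          (eig (ρ (ho.elt i)) (W ⊓ primPart (ρ (ho.elt i)) (N i) (P i) w j)).map
            (fun z => (((l ^ f i : ℕ) : AlgebraicClosure ℚ_[p]) ^ m) * z)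

/-- `θ` and `ρ` have the same rational characteristic polynomials of Frobenius at all places of `F`
above all large primes `q`, where `Γ = Gal(Ω/F)`: if `φ` is a Frobenius element at `q` and
`φ ^ j ∈ Γ`, which then is a power of a Frobenius element of `Γ` at a place above `q`, the
characteristic polynomials of `φ ^ j` are equal and rational. -/
def IsCompat {l : ℕ} [Fact l.Prime] {U : Type*} [AddCommGroup U] [Module ℚ_[l] U]
    [FiniteDimensional ℚ_[l] U] [FiniteDimensional ℚ_[p] V]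
    (θ : Representation ℚ_[l] Γ U) (ρ : Representation ℚ_[p] Γ V) : Prop :=
  ∃ b : ℕ, ∀ q : ℕ, b < q → q.Prime → ∀ φ : Gal(Ω/ℚ), IsFrobAt q φ →
    ∀ (j : ℕ) (hj : φ ^ j ∈ Γ), 0 < j → ∃ P : ℚ[X],
      (θ ⟨φ ^ j, hj⟩).charpoly = P.map (algebraMap ℚ ℚ_[l]) ∧
      (ρ ⟨φ ^ j, hj⟩).charpoly = P.map (algebraMap ℚ ℚ_[p])

/-- **Clause for the other members of the compatible system.** Let `θ` be an `l`-adic representation
compatible with `ρ`. There is a character `ε'` of `Gal(Ω/ℚ)` with the same kernel as `ε` such that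
for all elements `g` of `Gal(Ω/ℚ)`, if `g i ∈ Γ` are the elements attached to the orbits of `g` on
the cosets of `Γ`, there are multisets `S i` with `r` elements which together with all
`χ (g i) ^ (- w) / z`, `z ∈ S i`, are contained in the eigenvalues of `θ (g i)`, and the product of
all elements of all `S i` is `ε' g * χ g ^ (- H)`, where `χ` is the `l`-adic cyclotomic
character. -/
def SystemClause [FiniteDimensional ℚ_[p] V] (ρ : Representation ℚ_[p] Γ V) (w : ℤ) (r : ℕ)
    (ε : Gal(Ω/ℚ) →* ℤ_[p]ˣ) (H : ℤ) : Prop :=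
  ∀ (l : ℕ) [Fact l.Prime] (m : ℕ) (θ : Representation ℚ_[l] Γ (Fin m → ℚ_[l])),
    IsContRep θ → IsCompat θ ρ → ∃ ε' : Gal(Ω/ℚ) →* (AlgebraicClosure ℚ_[l])ˣ, ε'.ker = ε.ker ∧
      ∀ (g : Gal(Ω/ℚ)) (k : ℕ) (x : Fin k → Gal(Ω/ℚ)) (f : Fin k → ℕ) (ho : IsOrbits Γ g x f),
        ∃ S : Fin k → Multiset (AlgebraicClosure ℚ_[l]), (∀ i, Multiset.card (S i) = r) ∧
          (∀ i, IsoIn (algebraMap ℚ_[l] _ (chi l g (-(w * f i)))) (S i)
            (rts (θ (ho.elt i)).charpoly)) ∧
          ∏ i, (S i).prod = (ε' g : AlgebraicClosure ℚ_[l]) * algebraMap ℚ_[l] _ (chi l g (-H))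

end rep

end Pool.Agent.H99L
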