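import Mathlib
import Pool.Agent.Lib.H99L.Defs
import Pool.Agent.Lib.Helper90.GSem.Pair

/-!
# Auxiliary definitions
-/

namespace Pool.Agent.H99L

open NumberField TensorProduct Module Polynomial Pool.Agent.GSem Pool.Agent.NF

section rep

variable {p : ℕ} [hp : Fact p.Prime] {Ω : Type*} [Field Ω] [CharZero Ω]
variable {Γ : Subgroup Gal(Ω/ℚ)} {V : Type*} [AddCommGroup V] [Module ℚ_[p] V]

/-- `D` is the multiset of the weights of the stable subspace `U` at the embedding `ι`. -/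
def IsWts (ι : Ω →+* PadicAlgCl p) (ρ : Representation ℚ_[p] Γ V) (U : Submodule ℚ_[p] V)
    (D : Multiset ℤ) : Prop :=
  ∃ (d : ℕ) (a : Fin d → ℤ) (v : Fin d → ℂ_[p] ⊗[ℚ_[p]] V),
    ext U = Submodule.span ℂ_[p] (Set.range v) ∧ LinearIndependent ℂ_[p] v ∧
    (∀ σ (g : Γ), Compat ι σ (g : Gal(Ω/ℚ)) → ∀ j, semi σ (ρ g) (v j) =
      algebraMap ℚ_[p] ℂ_[p] (toQ (cyc p Ω (g : Gal(Ω/ℚ))) ^ (-a j)) • v j) ∧
    D = Finset.univ.val.map a

/-- `x` is an eigenvector of weight `a` at `ι`. -/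
def IsEigAt (ι : Ω →+* PadicAlgCl p) (ρ : Representation ℚ_[p] Γ V) (a : ℤ)
    (x : ℂ_[p] ⊗[ℚ_[p]] V) : Prop :=
  ∀ σ (g : Γ), Compat ι σ (g : Gal(Ω/ℚ)) → semi σ (ρ g) x =
    algebraMap ℚ_[p] ℂ_[p] (toQ (cyc p Ω (g : Gal(Ω/ℚ))) ^ (-a)) • x

end rep

/-- There are multisets `S i` with `r` elements which, together with all `lam i / z`, `z ∈ S i`, are
contained in the `R i`, and the product of all elements of all `S i` is `t`. -/
def HasDatum {κ K : Type*} [Fintype κ] [Field K] (r : ℕ) (R : κ → Multiset K) (lam : κ → K)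
    (t : K) : Prop :=
  ∃ S : κ → Multiset K, (∀ i, Multiset.card (S i) = r) ∧ (∀ i, IsoIn (lam i) (S i) (R i)) ∧
    ∏ i, (S i).prod = t

end Pool.Agent.H99L
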