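import Mathlib
import Pool.Agent.Lib.H99L.Defs2

/-!
# Weights of stable subspaces: existence
-/

namespace Pool.Agent.H99L

open NumberField TensorProduct Module Pool.Agent.GSem Pool.Agent.NF

variable {p : ℕ} [hp : Fact p.Prime] {Ω : Type*} [Field Ω] [CharZero Ω]
variable {Γ : Subgroup Gal(Ω/ℚ)} {V : Type*} [AddCommGroup V] [Module ℚ_[p] V]
  [FiniteDimensional ℚ_[p] V]

/-- Chunk D1 (size S/M). **A stable subspace of a Hodge–Tate representation has weights.**

PROOF. `exists_adapted_abs` (file `H99/NF/Abs.lean`) for the relation `relAt ι ρ`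
(file `H99/NF/Sum.lean`), `basisRel_of_HT he` and `X = ext U`, which is stable by
`semi_mem_ext`. It gives `J`, `v` with `finrank (ext U)` members, `v j ∈ ext U`, linearly independent,
so they span `ext U` (the number of members is the dimension; `ext U` is finite-dimensional because
`e` is a finite basis). Take `a j = h (J j)`. -/
theorem exists_wts (ρ : Representation ℚ_[p] Γ V) (ι : Ω →+* PadicAlgCl p)
    {n : ℕ} (h : Fin n → ℤ) (e : Basis (Fin n) ℂ_[p] (ℂ_[p] ⊗[ℚ_[p]] V))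
    (he : IsHTBasisAt ι ρ h e) (U : Submodule ℚ_[p] V) (hU : ∀ g, ∀ u ∈ U, ρ g u ∈ U) :
    ∃ D : Multiset ℤ, IsWts ι ρ U D := by
  have hfinV : FiniteDimensional ℂ_[p] (ℂ_[p] ⊗[ℚ_[p]] V) := e.finiteDimensional_of_finite
  obtain ⟨J, v, hvX, hvli, hvs⟩ := exists_adapted_abs h e (basisRel_of_HT he) (ext U) (by
    rintro σ T u ⟨g, hg, rfl, rfl⟩ x hx
    exact semi_mem_ext σ (ρ g) (hU g) x hx)
  refine ⟨_, finrank ℂ_[p] (ext U), fun j => h (J j), v, ?_, hvli,
    fun σ g hg j => hvs σ (ρ g) _ ⟨g, hg, rfl, rfl⟩ j, rfl⟩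
  symm
  refine Submodule.eq_of_le_of_finrank_eq ?_ ?_
  · rw [Submodule.span_le]
    rintro _ ⟨j, rfl⟩
    exact hvX j
  · rw [finrank_span_eq_card hvli, Fintype.card_fin]

end Pool.Agent.H99L
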