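import Mathlib
import Pool.Agent.Lib.H99L.Defs2

/-!
# Weights of stable subspaces: number and uniqueness
-/

namespace Pool.Agent.H99L

open NumberField TensorProduct Module Pool.Agent.GSem Pool.Agent.NF Pool.Agent.PD

variable {p : ℕ} [hp : Fact p.Prime] {Ω : Type*} [Field Ω] [CharZero Ω]
variable {Γ : Subgroup Gal(Ω/ℚ)} {V : Type*} [AddCommGroup V] [Module ℚ_[p] V]
  [FiniteDimensional ℚ_[p] V]

/-- Chunk D2 (size S). **The number of weights is the dimension.**

PROOF. `finrank ℂ_[p] (ext U) = finrank ℚ_[p] U` (`finrank_ext` in `H99/NF/Abs.lean` with a basis of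
`U`) and `finrank_span_eq_card`. -/
theorem card_wts {ι : Ω →+* PadicAlgCl p} {ρ : Representation ℚ_[p] Γ V}
    {U : Submodule ℚ_[p] V} {D : Multiset ℤ} (h : IsWts ι ρ U D) :
    Multiset.card D = finrank ℚ_[p] U := by
  obtain ⟨d, a, v, hspan, hli, -, rfl⟩ := h
  have h1 : finrank ℂ_[p] (ext U) = d := by
    rw [hspan, finrank_span_eq_card hli, Fintype.card_fin]
  have h2 : finrank ℂ_[p] (ext U) = finrank ℚ_[p] U := finrank_ext (finBasis ℚ_[p] U)
  rw [Multiset.card_map, ← h2, h1]
  exact Fintype.card_fin d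

end Pool.Agent.H99L
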