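import Mathlib
import Pool.Agent.Lib.H99L.Defs2

/-!
# Eigenvectors in the span of eigenvectors
-/

namespace Pool.Agent.H99L

open NumberField TensorProduct Module Pool.Agent.GSem Pool.Agent.NF Pool.Agent.PD

variable {p : ℕ} [hp : Fact p.Prime] {Ω : Type*} [Field Ω] [CharZero Ω] [IsAlgClosed Ω]
  [Normal ℚ Ω]
variable {Γ : Subgroup Gal(Ω/ℚ)} {V : Type*} [AddCommGroup V] [Module ℚ_[p] V]

/-- Chunk D3a (size M). **An eigenvector of weight `b` is a combination of the eigenvectors of weight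
`b` only.**

PROOF. Let `i` with `c i ≠ 0`; suppose `a i ≠ b`. `exists_ne_twist_sub ι Γ (c i) hi (a i - b) _`
(file `H99/PD/Tate2.lean`) gives `σ`, `g ∈ Γ` with `Compat ι σ g` and
`galC σ (c i) ≠ algebraMap (toQ (cyc p Ω g) ^ (a i - b)) * c i`. Apply `semi σ (ρ g)` to
`x = ∑ j, c j • v j`: `semi` is additive and `semi σ T (c • y) = galC σ c • semi σ T y`
(`semi_smul`), so `∑ j, (galC σ (c j) * χ ^ (- a j)) • v j = χ ^ (-b) • ∑ j, c j • v j`. By linear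
independence (`Fintype.linearIndependent_iff`) the coefficients of `v i` agree:
`galC σ (c i) * χ ^ (- a i) = χ ^ (- b) * c i`, i.e. `galC σ (c i) = χ ^ (a i - b) * c i`,
contradiction. Compare the proof of `transport` in `H99/NF/Places.lean`. -/
theorem coeff_eq_zero_of_eig [Γ.FiniteIndex] (ι : Ω →+* PadicAlgCl p)
    (ρ : Representation ℚ_[p] Γ V) {d : ℕ} (a : Fin d → ℤ) (v : Fin d → ℂ_[p] ⊗[ℚ_[p]] V)
    (hv : LinearIndependent ℂ_[p] v) (hva : ∀ j, IsEigAt ι ρ (a j) (v j)) (b : ℤ)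
    (c : Fin d → ℂ_[p]) (hx : IsEigAt ι ρ b (∑ j, c j • v j)) (i : Fin d) (hi : c i ≠ 0) :
    a i = b := by
  classical
  by_contra hne
  obtain ⟨σ, g, hg, hgΓ, hneq⟩ := exists_ne_twist_sub ι Γ (c i) hi (a i - b) (sub_ne_zero.2 hne)
  apply hneq
  set χ : ℚ_[p] := toQ (cyc p Ω g) with hχ
  have hχ0 : χ ≠ 0 := toQ_ne_zero _
  have h1 := hx σ ⟨g, hgΓ⟩ hg
  rw [map_sum] at h1
  have h2 : ∀ j, semi σ (ρ ⟨g, hgΓ⟩) (c j • v j) =
      (galC σ (c j) * algebraMap ℚ_[p] ℂ_[p] (χ ^ (-a j))) • v j := by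
    intro j
    rw [semi_smul, hva j σ ⟨g, hgΓ⟩ hg, smul_smul]
  simp only [h2] at h1
  rw [Finset.smul_sum] at h1
  have h3 : ∑ j, (galC σ (c j) * algebraMap ℚ_[p] ℂ_[p] (χ ^ (-a j)) -
      algebraMap ℚ_[p] ℂ_[p] (χ ^ (-b)) * c j) • v j = 0 := by
    simp only [sub_smul, Finset.sum_sub_distrib]
    rw [h1, sub_eq_zero]
    exact Finset.sum_congr rfl fun j _ => by rw [smul_smul]
  have h4 := Fintype.linearIndependent_iff.1 hv _ h3 i
  have h5 : algebraMap ℚ_[p] ℂ_[p] (χ ^ (a i - b)) =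
      algebraMap ℚ_[p] ℂ_[p] (χ ^ (-b)) / algebraMap ℚ_[p] ℂ_[p] (χ ^ (-a i)) := by
    rw [← map_div₀, ← zpow_sub₀ hχ0]
    congr 2
    ring
  have h6 : algebraMap ℚ_[p] ℂ_[p] (χ ^ (-a i)) ≠ 0 := by
    rw [Ne, map_eq_zero]
    exact zpow_ne_zero _ hχ0
  rw [h5]
  field_simp
  linear_combination h4

end Pool.Agent.H99L
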