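import Mathlib
import Pool.Agent.Lib.H99L.D3a

/-!
# Weights of stable subspaces: uniqueness
-/

namespace Pool.Agent.H99L

open NumberField TensorProduct Module Pool.Agent.GSem Pool.Agent.NF Pool.Agent.PD

variable {p : ℕ} [hp : Fact p.Prime] {Ω : Type*} [Field Ω] [CharZero Ω] [IsAlgClosed Ω]
  [Normal ℚ Ω]
variable {Γ : Subgroup Gal(Ω/ℚ)} {V : Type*} [AddCommGroup V] [Module ℚ_[p] V]
  [FiniteDimensional ℚ_[p] V]

omit [FiniteDimensional ℚ_[p] V] in
theorem d3_le [Γ.FiniteIndex] {ι : Ω →+* PadicAlgCl p} {ρ : Representation ℚ_[p] Γ V}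
    {U : Submodule ℚ_[p] V} {D D' : Multiset ℤ} (h : IsWts ι ρ U D) (h' : IsWts ι ρ U D') (b : ℤ) :
    Multiset.count b D ≤ Multiset.count b D' := by
  classical
  obtain ⟨d, a, v, hspan, hli, hva, rfl⟩ := h
  obtain ⟨d', a', v', hspan', hli', hva', rfl⟩ := h'
  have hcount : ∀ (m : ℕ) (c : Fin m → ℤ), Multiset.count b (Finset.univ.val.map c) =
      Fintype.card {j : Fin m // c j = b} := by
    intro m c
    rw [Multiset.count_map, Fintype.card_subtype, Finset.card_def, Finset.filter_val]
    congr 1
    exact Multiset.filter_congr fun x _ => eq_comm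
  rw [hcount, hcount]
  set W : Submodule ℂ_[p] (ℂ_[p] ⊗[ℚ_[p]] V) :=
    Submodule.span ℂ_[p] (Set.range fun i : {i : Fin d' // a' i = b} => v' i) with hW
  have hWfin : FiniteDimensional ℂ_[p] W := FiniteDimensional.span_of_finite _ (Set.finite_range _)
  have hmem : ∀ j : {j : Fin d // a j = b}, v j ∈ W := by
    intro j
    have h1 : v j ∈ Submodule.span ℂ_[p] (Set.range v') := by
      rw [← hspan', hspan]
      exact Submodule.subset_span ⟨_, rfl⟩
    obtain ⟨c, hc⟩ := (Submodule.mem_span_range_iff_exists_fun ℂ_[p]).1 h1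
    have h2 : IsEigAt ι ρ b (∑ i, c i • v' i) := by
      rw [hc]
      intro σ g hg
      have h3 := hva σ g hg j
      rw [j.2] at h3
      exact h3
    rw [← hc]
    refine Submodule.sum_mem _ fun i _ => ?_
    by_cases hci : c i = 0
    · rw [hci, zero_smul]
      exact Submodule.zero_mem _
    · have h4 := coeff_eq_zero_of_eig ι ρ a' v' hli'
        (fun j σ g hg => hva' σ g hg j) b c h2 i hci
      exact Submodule.smul_mem _ _ (Submodule.subset_span ⟨⟨i, h4⟩, rfl⟩)
  have hli2 : LinearIndependent ℂ_[p] (fun j : {j : Fin d // a j = b} => (⟨v j, hmem j⟩ : W)) := by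
    refine LinearIndependent.of_comp W.subtype ?_
    exact hli.comp _ Subtype.val_injective
  calc Fintype.card {j : Fin d // a j = b} ≤ finrank ℂ_[p] W := hli2.fintype_card_le_finrank
    _ ≤ Fintype.card {i : Fin d' // a' i = b} := finrank_range_le_card _

/-- Chunk D3 (size M). **Uniqueness of the weights.**

PROOF. Let `(d, a, v)` and `(d', a', v')` be the data. For `b : ℤ` it suffices
(`Multiset.ext`) that the number of `j` with `a j = b` is the number of `j` with `a' j = b`
(`Multiset.count` of `Finset.univ.val.map a` is the card of the filter: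
`Multiset.count_map`); by symmetry `≤`. The vectors `v j`, `a j = b`, lie in `ext U`, the span of the
`v'`, so they are combinations `∑ c i • v' i` (`Submodule.mem_span_range_iff_exists_fun`) in which, by
`coeff_eq_zero_of_eig`, only the `i` with `a' i = b` occur. So the linearly independent family
`(v j)`, `a j = b`, lies in the span of the family `(v' i)`, `a' i = b`: compare the cardinalities
(`LinearIndependent.fintype_card_le_finrank`-like, `finrank_span_le_card`, or
`linearIndependent_le_span`). -/
theorem wts_unique [Γ.FiniteIndex] {ι : Ω →+* PadicAlgCl p} {ρ : Representation ℚ_[p] Γ V}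
    {U : Submodule ℚ_[p] V} {D D' : Multiset ℤ} (h : IsWts ι ρ U D) (h' : IsWts ι ρ U D') :
    D = D' := by
  refine Multiset.ext.2 fun b => ?_
  exact le_antisymm (d3_le h h' b) (d3_le h' h b)

end Pool.Agent.H99L
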