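import Mathlib
import Pool.Agent.Lib.H99L.Defs2

/-!
# Transport of weights
-/

namespace Pool.Agent.H99L

open NumberField TensorProduct Module Pool.Agent.GSem Pool.Agent.NF Pool.Agent.PD

variable {p : ℕ} [hp : Fact p.Prime] {Ω : Type*} [Field Ω] [CharZero Ω]
variable {Γ : Subgroup Gal(Ω/ℚ)} {V : Type*} [AddCommGroup V] [Module ℚ_[p] V]
  [FiniteDimensional ℚ_[p] V]

/-- Chunk D4 (size M). **Transport of weights between embeddings inducing the same place.**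

PROOF. Put `v' j = semi τ (ρ γ⁻¹) (v j)`. As in `transport` (file `H99/NF/Places.lean`, there is
the computation `hxs`), `v' j` is an eigenvector of weight `a j` for `ι'`:
`semi σ (ρ g) (v' j) = semi τ (ρ γ⁻¹) (semi (τ⁻¹ * σ * τ) (ρ (γ * g * γ⁻¹)) (v j))` (`semi_mul`),
`Compat ι (τ⁻¹ * σ * τ) (γ * g * γ⁻¹)`, and `cyc_conj`. The map `s = semi τ (ρ γ⁻¹)` is additive,
satisfies `s (c • x) = galC τ c • s x`, and is bijective with inverse `semi τ⁻¹ (ρ γ)`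
(`semi_mul`, `semi_one`); `s` and its inverse preserve `ext U` (`semi_mem_ext`). Hence the `v' j`
are linearly independent (apply the inverse to a relation) and span `ext U` (apply `s` to
`∑ c j • v j = s⁻¹ y`). -/
theorem wts_transport {ι ι' : Ω →+* PadicAlgCl p} (ρ : Representation ℚ_[p] Γ V)
    (τ : Gal(PadicAlgCl p/ℚ_[p])) (γ : Γ) (hι : ∀ x, ι' x = τ (ι ((γ : Gal(Ω/ℚ)) x)))
    (U : Submodule ℚ_[p] V) (hU : ∀ g, ∀ u ∈ U, ρ g u ∈ U) {D : Multiset ℤ}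
    (h : IsWts ι ρ U D) : IsWts ι' ρ U D := by
  classical
  obtain ⟨d, a, v, hspan, hli, hva, rfl⟩ := h
  have hinv : ∀ x, semi τ⁻¹ (ρ γ) (semi τ (ρ γ⁻¹) x) = x := by
    intro x
    rw [semi_mul, inv_mul_cancel, ← map_mul, mul_inv_cancel, map_one, semi_one]
  have hinv' : ∀ x, semi τ (ρ γ⁻¹) (semi τ⁻¹ (ρ γ) x) = x := by
    intro x
    rw [semi_mul, mul_inv_cancel, ← map_mul, inv_mul_cancel, map_one, semi_one]
  have hmem : ∀ j, semi τ (ρ γ⁻¹) (v j) ∈ ext U := by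
    intro j
    refine semi_mem_ext τ (ρ γ⁻¹) (hU _) (v j) ?_
    rw [hspan]
    exact Submodule.subset_span ⟨j, rfl⟩
  refine ⟨d, a, fun j => semi τ (ρ γ⁻¹) (v j), ?_, ?_, ?_, rfl⟩
  · apply le_antisymm
    · intro y hy
      have h1 : semi τ⁻¹ (ρ γ) y ∈ Submodule.span ℂ_[p] (Set.range v) := by
        rw [← hspan]
        exact semi_mem_ext τ⁻¹ (ρ γ) (hU _) y hy
      obtain ⟨c, hc⟩ := (Submodule.mem_span_range_iff_exists_fun ℂ_[p]).1 h1
      have h2 : y = ∑ j, galC τ (c j) • semi τ (ρ γ⁻¹) (v j) := by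
        rw [← hinv' y, ← hc, map_sum]
        exact Finset.sum_congr rfl fun j _ => semi_smul _ _ _ _
      rw [h2]
      exact Submodule.sum_mem _ fun j _ => Submodule.smul_mem _ _ (Submodule.subset_span ⟨j, rfl⟩)
    · rw [Submodule.span_le]
      rintro _ ⟨j, rfl⟩
      exact hmem j
  · rw [Fintype.linearIndependent_iff]
    intro c hc j
    have h1 := congrArg (semi τ⁻¹ (ρ γ)) hc
    rw [map_sum, map_zero] at h1
    have h2 : ∑ j, galC τ⁻¹ (c j) • v j = 0 := by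
      rw [← h1]
      refine Finset.sum_congr rfl fun j _ => ?_
      rw [semi_smul, hinv]
    have h3 := Fintype.linearIndependent_iff.1 hli _ h2 j
    rw [← norm_eq_zero, norm_galC, norm_eq_zero] at h3
    exact h3
  · intro σ g hg j
    have hc : Compat ι (τ⁻¹ * σ * τ) ((γ * g * γ⁻¹ : Γ) : Gal(Ω/ℚ)) := by
      intro z
      have h1 := hg ((γ : Gal(Ω/ℚ))⁻¹ z)
      rw [hι, hι] at h1
      have h2 : (γ : Gal(Ω/ℚ)) ((γ : Gal(Ω/ℚ))⁻¹ z) = z :=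
        (γ : Gal(Ω/ℚ)).apply_symm_apply z
      rw [h2] at h1
      have h3 : ((γ * g * γ⁻¹ : Γ) : Gal(Ω/ℚ)) z =
          (γ : Gal(Ω/ℚ)) ((g : Gal(Ω/ℚ)) ((γ : Gal(Ω/ℚ))⁻¹ z)) := rfl
      rw [h3, AlgEquiv.mul_apply, AlgEquiv.mul_apply, ← h1]
      exact (τ.symm_apply_apply _).symm
    have h1 := hva _ _ hc j
    have h2 : cyc p Ω ((γ * g * γ⁻¹ : Γ) : Gal(Ω/ℚ)) = cyc p Ω (g : Gal(Ω/ℚ)) := by
      have h3 : ((γ * g * γ⁻¹ : Γ) : Gal(Ω/ℚ)) =
        ((γ : Gal(Ω/ℚ))⁻¹)⁻¹ * (g : Gal(Ω/ℚ)) * (γ : Gal(Ω/ℚ))⁻¹ := by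
        rw [inv_inv]; rfl
      rw [h3, cyc_conj]
    rw [h2] at h1
    have h4 : semi σ (ρ g) (semi τ (ρ γ⁻¹) (v j)) =
        semi τ (ρ γ⁻¹) (semi (τ⁻¹ * σ * τ) (ρ (γ * g * γ⁻¹)) (v j)) := by
      rw [semi_mul, semi_mul, ← map_mul, ← map_mul]
      congr 2
      · group
      · group
    rw [h4, h1, semi_smul, galC_algebraMap]

end Pool.Agent.H99L
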