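import Mathlib
import Pool.Agent.Lib.H99L.Defs2

/-!
# Weights and the determinant
-/

namespace Pool.Agent.H99L

open NumberField TensorProduct Module Pool.Agent.GSem Pool.Agent.NF Pool.Agent.PD

variable {p : ℕ} [hp : Fact p.Prime] {Ω : Type*} [Field Ω] [CharZero Ω]
variable {Γ : Subgroup Gal(Ω/ℚ)} {V : Type*} [AddCommGroup V] [Module ℚ_[p] V]
  [FiniteDimensional ℚ_[p] V]

/-- Chunk D5 (size M). **The weight of the determinant is the sum of the weights.**

PROOF. As the proof of `exists_det_abs` (file `H99/NF/Abs.lean`), but with the given family `v` of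
the `IsWts` instead of the one from `exists_adapted_abs`: `b` a basis of `U` indexed by
`Fin (finrank U)`; the number `d` of the `v j` is `finrank ℂ_[p] (ext U) = finrank ℚ_[p] U`
(`finrank_ext`, `finrank_span_eq_card`), reindex; coordinates `M` of the `v j` with respect to
`1 ⊗ₜ b k` (`mem_ext_iff`), `det M ≠ 0` (`det_ne_zero_of_linearIndependent`), `det_relation`, and the
product of the `χ ^ (- a j)` is `χ ^ (- ∑ a j)`; `D.sum = ∑ j, a j`. -/
theorem det_wts {ι : Ω →+* PadicAlgCl p} (ρ : Representation ℚ_[p] Γ V)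
    (U : Submodule ℚ_[p] V) (hU : ∀ g, ∀ u ∈ U, ρ g u ∈ U) {D : Multiset ℤ}
    (h : IsWts ι ρ U D) : ∃ c : ℂ_[p], c ≠ 0 ∧ ∀ σ (g : Γ), Compat ι σ (g : Gal(Ω/ℚ)) →
      galC σ c * algebraMap ℚ_[p] ℂ_[p] (detG ρ U hU g) =
        algebraMap ℚ_[p] ℂ_[p] (toQ (cyc p Ω (g : Gal(Ω/ℚ))) ^ (-D.sum)) * c := by
  classical
  obtain ⟨d', a, v, hspan, hvli, hvs, rfl⟩ := h
  let b : Basis (Fin (finrank ℚ_[p] U)) ℚ_[p] U := Module.finBasis ℚ_[p] U
  have hdim : finrank ℂ_[p] (ext U) = finrank ℚ_[p] U := finrank_ext b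
  have hdd : finrank ℂ_[p] (ext U) = d' := by
    rw [hspan, finrank_span_eq_card hvli, Fintype.card_fin]
  have hd : finrank ℚ_[p] U = d' := hdim.symm.trans hdd
  subst hd
  have hvX : ∀ j, v j ∈ ext U := fun j => by rw [hspan]; exact Submodule.subset_span ⟨j, rfl⟩
  choose M hM using fun j => (mem_ext_iff b (v j)).1 (hvX j)
  have hM' : ∀ j, v j = ∑ k, (Matrix.of M) j k • ((1 : ℂ_[p]) ⊗ₜ[ℚ_[p]] (b k : V)) :=
    fun j => (hM j).symm
  have hdet0 : (Matrix.of M).det ≠ 0 := det_ne_zero_of_linearIndependent b v _ hM' hvli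
  refine ⟨(Matrix.of M).det, hdet0, fun σ g hc => ?_⟩
  have hu0 : toQ (cyc p Ω (g : Gal(Ω/ℚ))) ≠ 0 := toQ_ne_zero _
  have h1 := det_relation b v (Matrix.of M) hM' σ (ρ g) (hU g)
    (fun j => algebraMap ℚ_[p] ℂ_[p] (toQ (cyc p Ω (g : Gal(Ω/ℚ))) ^ (-a j)))
    (fun j => hvs σ g hc j)
  have h2 : ∏ j, algebraMap ℚ_[p] ℂ_[p] (toQ (cyc p Ω (g : Gal(Ω/ℚ))) ^ (-a j)) =
      algebraMap ℚ_[p] ℂ_[p] (toQ (cyc p Ω (g : Gal(Ω/ℚ))) ^
        (-(Multiset.map a Finset.univ.val).sum)) := by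
    have h3 : (Multiset.map a Finset.univ.val).sum = ∑ j, a j := rfl
    rw [← map_prod, h3]
    congr 1
    rw [← Finset.sum_neg_distrib]
    generalize (Finset.univ : Finset (Fin (finrank ℚ_[p] U))) = s
    induction s using Finset.induction_on with
    | empty => simp
    | insert i s hi ih => rw [Finset.prod_insert hi, Finset.sum_insert hi, zpow_add₀ hu0, ih]
  rw [h2] at h1
  exact h1

end Pool.Agent.H99L
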