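import Mathlib
import Pool.Agent.Lib.H99L.Defs2

/-!
# Orthogonality of eigenvectors
-/

namespace Pool.Agent.H99L

open NumberField TensorProduct Module Pool.Agent.GSem Pool.Agent.NF Pool.Agent.PD

variable {p : ℕ} [hp : Fact p.Prime] {Ω : Type*} [Field Ω] [CharZero Ω] [IsAlgClosed Ω]
  [Normal ℚ Ω]
variable {Γ : Subgroup Gal(Ω/ℚ)} {V : Type*} [AddCommGroup V] [Module ℚ_[p] V]

/-- Chunk D6a (size S/M). **Eigenvectors of weights `a`, `b` with `a + b ≠ w` are orthogonal.**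

PROOF. Suppose `z := pairC B x y ≠ 0`. As in `no_opposite_at` (file `H99/NF/Places.lean`, proof of
`hw`): `exists_ne_twist_sub ι Γ z _ (w - (a + b)) _` gives `σ`, `g ∈ Γ` with
`galC σ z ≠ χ ^ (w - (a + b)) * z`, while `pairC_semi` and the two eigenvector equations give
`χ ^ (-b) * (χ ^ (-a) * z) = χ ^ (-w) * galC σ z`. -/
theorem pairC_eig_orth [Γ.FiniteIndex] (ι : Ω →+* PadicAlgCl p)
    (ρ : Representation ℚ_[p] Γ V) (w : ℤ) (B : V →ₗ[ℚ_[p]] V →ₗ[ℚ_[p]] ℚ_[p])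
    (hB : IsPol ρ w B) {a b : ℤ} (hab : a + b ≠ w) {x y : ℂ_[p] ⊗[ℚ_[p]] V}
    (hx : IsEigAt ι ρ a x) (hy : IsEigAt ι ρ b y) : pairC B x y = 0 := by
  by_contra hz
  obtain ⟨σ, g, hc, hgΓ, hne'⟩ := exists_ne_twist_sub ι Γ (pairC B x y) hz
    (w - (a + b)) (sub_ne_zero.2 (Ne.symm hab))
  apply hne'
  have h1 := pairC_semi B σ (ρ ⟨g, hgΓ⟩) _ (hB.2 ⟨g, hgΓ⟩) x y
  rw [hx σ ⟨g, hgΓ⟩ hc, hy σ ⟨g, hgΓ⟩ hc, map_smul, map_smul, LinearMap.smul_apply,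
    smul_eq_mul, smul_eq_mul] at h1
  change algebraMap ℚ_[p] ℂ_[p] (toQ (cyc p Ω g) ^ (-b)) *
    (algebraMap ℚ_[p] ℂ_[p] (toQ (cyc p Ω g) ^ (-a)) * pairC B x y) =
    algebraMap ℚ_[p] ℂ_[p] (toQ (cyc p Ω g) ^ (-w)) * galC σ (pairC B x y) at h1
  have hχ0 : toQ (cyc p Ω g) ≠ 0 := toQ_ne_zero _
  have e1 : algebraMap ℚ_[p] ℂ_[p] (toQ (cyc p Ω g) ^ (w - (a + b))) *
      algebraMap ℚ_[p] ℂ_[p] (toQ (cyc p Ω g) ^ (-w)) =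
      algebraMap ℚ_[p] ℂ_[p] (toQ (cyc p Ω g) ^ (-a)) *
      algebraMap ℚ_[p] ℂ_[p] (toQ (cyc p Ω g) ^ (-b)) := by
    rw [← map_mul, ← map_mul, ← zpow_add₀ hχ0, ← zpow_add₀ hχ0]
    congr 2
    ring
  have e2 : algebraMap ℚ_[p] ℂ_[p] (toQ (cyc p Ω g) ^ (-w)) ≠ 0 := by
    rw [Ne, map_eq_zero]
    exact zpow_ne_zero _ hχ0
  apply mul_left_cancel₀ e2
  rw [← h1]
  linear_combination (pairC B x y) * (-e1)

end Pool.Agent.H99L
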