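import Mathlib
import Pool.Agent.Lib.H99L.D6a
import Pool.Agent.Lib.H99L.D3a
import Pool.Agent.Lib.Helper90.GSem.WD2

/-!
# Weights of isotropic subspaces
-/

namespace Pool.Agent.H99L

open NumberField TensorProduct Module Pool.Agent.GSem Pool.Agent.NF Pool.Agent.PD

variable {p : ℕ} [hp : Fact p.Prime] {Ω : Type*} [Field Ω] [CharZero Ω] [IsAlgClosed Ω]
  [Normal ℚ Ω]
variable {Γ : Subgroup Gal(Ω/ℚ)} {V : Type*} [AddCommGroup V] [Module ℚ_[p] V]
  [FiniteDimensional ℚ_[p] V]

/-- Chunk D6b (size M/L). **Multiplicities of the weights of an isotropic subspace.**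

PROOF. Let `E` be the span of the `e i` with `h i = b` (dimension: the right-hand side). Let `X` be
the span of the `v j` with `a j = b` and `Y` the span of the `v j` with `a j = w - b` (dimensions:
the two cards on the left, linear independence).
(1) `X ≤ E`: each `v j` with `a j = b` is a combination of the `e i`, and only those with `h i = b`
occur (`coeff_eq_zero_of_eig` with `v := e`, `e.linearIndependent`, `he` and `e.sum_repr`).
(2) `pairC B x y = 0` for `x ∈ Y`, `y ∈ X`: `v j ∈ ext U` and `pairC_eq_zero B U hiso`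
(file `Helper90/GSem/Pair.lean`).
(3) If `x ∈ Y` and `pairC B x y = 0` for all `y ∈ E` then `x = 0`: by `eq_zero_of_pairC` it suffices
that `pairC B x (e i) = 0` for all `i`; for `h i = b` by hypothesis, and for `h i ≠ b` by
`pairC_eig_orth` (`x` is a combination of eigenvectors of weight `w - b`, and
`(w - b) + h i ≠ w`; the span of eigenvectors: `pairC B · (e i)` is linear).
(4) `pairing_bound` (file `Helper90/GSem/WD2.lean`), over the field `ℂ_[p]` with
`B := pairC B`, `E := Y`, `A := E`, `Z := X`: `finrank Y + finrank X ≤ finrank E`. -/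
theorem wts_isotropic_count [Γ.FiniteIndex] (ι : Ω →+* PadicAlgCl p)
    (ρ : Representation ℚ_[p] Γ V) (w : ℤ) (B : V →ₗ[ℚ_[p]] V →ₗ[ℚ_[p]] ℚ_[p])
    (hB : IsPol ρ w B) {n : ℕ} (h : Fin n → ℤ) (e : Basis (Fin n) ℂ_[p] (ℂ_[p] ⊗[ℚ_[p]] V))
    (he : IsHTBasisAt ι ρ h e) (U : Submodule ℚ_[p] V) (hiso : ∀ x ∈ U, ∀ y ∈ U, B x y = 0)
    {d : ℕ} (a : Fin d → ℤ) (v : Fin d → ℂ_[p] ⊗[ℚ_[p]] V) (hvU : ∀ j, v j ∈ ext U)
    (hv : LinearIndependent ℂ_[p] v) (hva : ∀ j, IsEigAt ι ρ (a j) (v j)) (b : ℤ) :
    (Finset.univ.filter fun j => a j = w - b).card + (Finset.univ.filter fun j => a j = b).card ≤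
      (Finset.univ.filter fun i => h i = b).card := by
  classical
  have hfd : FiniteDimensional ℂ_[p] (ℂ_[p] ⊗[ℚ_[p]] V) := inferInstance
  -- spans of subfamilies
  have hdim : ∀ {m : ℕ} (u : Fin m → ℂ_[p] ⊗[ℚ_[p]] V) (hu : LinearIndependent ℂ_[p] u)
      (P : Fin m → Prop) [DecidablePred P],
      finrank ℂ_[p] (Submodule.span ℂ_[p] (Set.range fun j : {j // P j} => u j)) =
        (Finset.univ.filter P).card := by
    intro m u hu P _
    have h1 : LinearIndependent ℂ_[p] (fun j : {j // P j} => u j) :=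
      hu.comp _ Subtype.val_injective
    rw [finrank_span_eq_card h1, Fintype.card_subtype]
  set E := Submodule.span ℂ_[p] (Set.range fun i : {i // h i = b} => e i) with hE
  set X := Submodule.span ℂ_[p] (Set.range fun j : {j // a j = b} => v j) with hX
  set Y := Submodule.span ℂ_[p] (Set.range fun j : {j // a j = w - b} => v j) with hY
  have hEd : finrank ℂ_[p] E = (Finset.univ.filter fun i => h i = b).card :=
    hdim e e.linearIndependent _
  have hXd : finrank ℂ_[p] X = (Finset.univ.filter fun j => a j = b).card := hdim v hv _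
  have hYd : finrank ℂ_[p] Y = (Finset.univ.filter fun j => a j = w - b).card := hdim v hv _
  have hXE : X ≤ E := by
    rw [hX, Submodule.span_le]
    rintro _ ⟨⟨j, hj⟩, rfl⟩
    change v j ∈ E
    rw [← e.sum_repr (v j)]
    refine Submodule.sum_mem _ fun i _ => ?_
    by_cases hi : e.repr (v j) i = 0
    · rw [hi, zero_smul]; exact Submodule.zero_mem _
    · have h1 : h i = b := by
        refine coeff_eq_zero_of_eig ι ρ h e e.linearIndependent (fun i σ g hg => he σ g hg i) b
          (fun i => e.repr (v j) i) ?_ i hi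
        rw [e.sum_repr]
        have := hva j
        rwa [hj] at this
      exact Submodule.smul_mem _ _ (Submodule.subset_span ⟨⟨i, h1⟩, rfl⟩)
  have hXU : X ≤ ext U := by
    rw [hX, Submodule.span_le]
    rintro _ ⟨⟨j, hj⟩, rfl⟩
    exact hvU j
  have hYU : Y ≤ ext U := by
    rw [hY, Submodule.span_le]
    rintro _ ⟨⟨j, hj⟩, rfl⟩
    exact hvU j
  have h1 := pairing_bound (pairC B) Y E X hXE
    (fun x hx y hy => pairC_eq_zero B U hiso x y (hYU hx) (hXU hy)) (by
    intro x hx hxE
    apply eq_zero_of_pairC B hB.1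
    intro y
    rw [← e.sum_repr y, map_sum]
    refine Finset.sum_eq_zero fun i _ => ?_
    rw [map_smul]
    by_cases hi : h i = b
    · rw [hxE (e i) (Submodule.subset_span ⟨⟨i, hi⟩, rfl⟩), smul_zero]
    · have h2 : Y ≤ LinearMap.ker ((pairC B).flip (e i)) := by
        rw [hY, Submodule.span_le]
        rintro _ ⟨⟨j, hj⟩, rfl⟩
        rw [SetLike.mem_coe, LinearMap.mem_ker, LinearMap.flip_apply]
        have h5 : a j + h i ≠ w := by
          rw [hj]
          intro h3
          apply hi
          linarith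
        have h6 : IsEigAt ι ρ (h i) (e i) := fun σ g hg => he σ g hg i
        exact pairC_eig_orth ι ρ w B hB h5 (hva j) h6
      have h3 := h2 hx
      rw [LinearMap.mem_ker, LinearMap.flip_apply] at h3
      rw [h3, smul_zero])
  rw [hEd, hXd, hYd] at h1
  exact h1

end Pool.Agent.H99L
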