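import Mathlib
import Pool.Agent.Lib.H99L.D6b

/-!
# Weights of isotropic subspaces
-/

namespace Pool.Agent.H99L

open NumberField TensorProduct Module Pool.Agent.GSem Pool.Agent.NF Pool.Agent.PD

variable {p : ℕ} [hp : Fact p.Prime] {Ω : Type*} [Field Ω] [CharZero Ω] [IsAlgClosed Ω]
  [Normal ℚ Ω]
variable {Γ : Subgroup Gal(Ω/ℚ)} {V : Type*} [AddCommGroup V] [Module ℚ_[p] V]
  [FiniteDimensional ℚ_[p] V]

/-- Chunk D6 (size S/M). **The weights of an isotropic subspace.**

PROOF. `Multiset.le_iff_count`: for `b : ℤ`, `count b (D + D.map (w - ·))` is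
`#{j | a j = b} + #{j | w - a j = b}` (`Multiset.count_add`, `Multiset.count_map`), and
`count b (univ.val.map h) = #{i | h i = b}`; use `wts_isotropic_count` (the `v j` lie in `ext U`
because they span it). -/
theorem wts_isotropic [Γ.FiniteIndex] {ι : Ω →+* PadicAlgCl p}
    (ρ : Representation ℚ_[p] Γ V) (w : ℤ) (B : V →ₗ[ℚ_[p]] V →ₗ[ℚ_[p]] ℚ_[p])
    (hB : IsPol ρ w B) {n : ℕ} (h : Fin n → ℤ) (e : Basis (Fin n) ℂ_[p] (ℂ_[p] ⊗[ℚ_[p]] V))
    (he : IsHTBasisAt ι ρ h e) (U : Submodule ℚ_[p] V) (hiso : ∀ x ∈ U, ∀ y ∈ U, B x y = 0)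
    {D : Multiset ℤ} (hD : IsWts ι ρ U D) :
    D + D.map (fun d => w - d) ≤ Finset.univ.val.map h := by
  classical
  obtain ⟨d, a, v, hspan, hli, hva, rfl⟩ := hD
  have hvU : ∀ j, v j ∈ ext U := fun j => by
    rw [hspan]
    exact Submodule.subset_span ⟨j, rfl⟩
  have hcount : ∀ {m : ℕ} (u : Fin m → ℤ) (b : ℤ), Multiset.count b (Finset.univ.val.map u) =
      (Finset.univ.filter fun i => u i = b).card := by
    intro m u b
    rw [Multiset.count_map]
    change Multiset.card (Finset.univ.filter fun i => b = u i).val = _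
    rw [Finset.card_val]
    congr 1
    ext i
    simp only [Finset.mem_filter, Finset.mem_univ, true_and]
    exact eq_comm
  rw [Multiset.le_iff_count]
  intro b
  rw [Multiset.count_add, Multiset.map_map]
  have h1 := wts_isotropic_count ι ρ w B hB h e he U hiso a v hvU hli
    (fun j σ g hg => hva σ g hg j) b
  have h2 : Multiset.count b (Finset.univ.val.map ((fun d => w - d) ∘ a)) =
      (Finset.univ.filter fun j => a j = w - b).card := by
    rw [hcount]
    congr 1
    ext j
    simp only [Finset.mem_filter, Finset.mem_univ, true_and, Function.comp_apply]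
    constructor
    · intro h; linarith
    · intro h; linarith
  rw [h2, hcount, hcount]
  omega

end Pool.Agent.H99L
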