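import Mathlib
import Pool.Agent.Lib.H99L.D1
import Pool.Agent.Lib.H99L.D2
import Pool.Agent.Lib.H99L.D3
import Pool.Agent.Lib.H99L.D4
import Pool.Agent.Lib.H99L.D6

/-!
# The Hodge–Tate clause
-/

namespace Pool.Agent.H99L

open NumberField TensorProduct Module Pool.Agent.GSem Pool.Agent.NF Pool.Agent.PD

variable {p : ℕ} [hp : Fact p.Prime] {Ω : Type*} [Field Ω] [CharZero Ω]
variable {V : Type*} [AddCommGroup V] [Module ℚ_[p] V] [FiniteDimensional ℚ_[p] V]

/-- Chunk D7 (size M). **The weights of a stable isotropic subspace, as a function of the embedding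
of the number field.**

PROOF. Choose for every `ι` the basis `e ι` (`hHT`), `Dι ι` with `IsWts ι ρ U (Dι ι)` (`exists_wts`),
and for `σ : F →+* PadicAlgCl p` an extension `E σ : Ω →+* PadicAlgCl p` (`exists_ext_emb`, file
`H99/NF/Places.lean`). Put `D σ = Dι (E σ)`. Key (as `key` in `exists_family`,
file `H99/NF/Main1.lean`): if `ι' y = τ (ι y)` for all `y ∈ F` then `Dι ι = Dι ι'`: let
`ι₁ = τ ∘ ι`, `exists_between ι₁ ι'` gives `g` with `ι' x = ι₁ (g x)`, `g` fixes `F`, so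
`wts_transport` gives `IsWts ι' ρ U (Dι ι)`, and `wts_unique`. The first property: `ι` and
`E (ι|F)` agree on `F` (key with `τ = 1`). The other ones: `card_wts`, `wts_isotropic` (the weights of
`V` at `E σ` are `h σ` because `(E σ)|F = σ`), key. -/
theorem exists_ht_family [IsAlgClosure ℚ Ω] (F : IntermediateField ℚ Ω) [NumberField F]
    (ρ : Representation ℚ_[p] F.fixingSubgroup V) (w : ℤ)
    (B : V →ₗ[ℚ_[p]] V →ₗ[ℚ_[p]] ℚ_[p]) (hB : IsPol ρ w B) {n : ℕ}
    (h : (F →+* PadicAlgCl p) → Fin n → ℤ)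
    (hHT : ∀ ι : Ω →+* PadicAlgCl p, ∃ e : Basis (Fin n) ℂ_[p] (ℂ_[p] ⊗[ℚ_[p]] V),
      IsHTBasisAt ι ρ (h (ι.comp (algebraMap F Ω))) e)
    (U : Submodule ℚ_[p] V) (hU : ∀ g, ∀ u ∈ U, ρ g u ∈ U)
    (hiso : ∀ x ∈ U, ∀ y ∈ U, B x y = 0) :
    ∃ D : (F →+* PadicAlgCl p) → Multiset ℤ,
      (∀ ι : Ω →+* PadicAlgCl p, IsWts ι ρ U (D (ι.comp (algebraMap F Ω)))) ∧
      (∀ σ, Multiset.card (D σ) = finrank ℚ_[p] U) ∧
      (∀ σ, D σ + (D σ).map (fun d => w - d) ≤ Finset.univ.val.map (h σ)) ∧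
      (∀ σ (τ : Gal(PadicAlgCl p/ℚ_[p])),
        D (((τ : PadicAlgCl p ≃+* PadicAlgCl p) : PadicAlgCl p →+* PadicAlgCl p).comp σ) =
          D σ) := by
  classical
  have _ : IsAlgClosed Ω := IsAlgClosure.isAlgClosed ℚ
  have _ : Algebra.IsAlgebraic ℚ Ω := IsAlgClosure.isAlgebraic
  have _ : IsGalois ℚ Ω := IsAlgClosure.isGalois ℚ Ω
  have hopen : IsOpen (F.fixingSubgroup : Set Gal(Ω/ℚ)) :=
    IntermediateField.fixingSubgroup_isOpen F
  have hfinq : Finite (Gal(Ω/ℚ) ⧸ F.fixingSubgroup) := Subgroup.quotient_finite_of_isOpen _ hopen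
  have hfi : F.fixingSubgroup.FiniteIndex := Subgroup.finiteIndex_of_finite_quotient
  choose e he using hHT
  choose E hE using exists_ext_emb (p := p) F
  choose D hD using fun ι : Ω →+* PadicAlgCl p => exists_wts ρ ι _ (e ι) (he ι) U hU
  have hEc : ∀ σ : F →+* PadicAlgCl p, (E σ).comp (algebraMap F Ω) = σ :=
    fun σ => RingHom.ext fun y => hE σ y
  -- invariance
  have key : ∀ (ι ι' : Ω →+* PadicAlgCl p) (τ : Gal(PadicAlgCl p/ℚ_[p])),
      (∀ y : F, ι' (y : Ω) = τ (ι (y : Ω))) → D ι = D ι' := by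
    intro ι ι' τ hιι'
    let ι₁ : Ω →+* PadicAlgCl p :=
      (((τ : PadicAlgCl p ≃+* PadicAlgCl p) : PadicAlgCl p →+* PadicAlgCl p)).comp ι
    obtain ⟨g, hg⟩ := exists_between ι₁ ι'
    have hgF : g ∈ F.fixingSubgroup := by
      rw [IntermediateField.mem_fixingSubgroup_iff]
      intro y hy
      apply ι₁.injective
      rw [← hg]
      exact hιι' ⟨y, hy⟩
    exact wts_unique (wts_transport ρ τ ⟨g, hgF⟩ (fun x => hg x) U hU (hD ι)) (hD ι')
  refine ⟨fun σ => D (E σ), ?_, fun σ => card_wts (hD (E σ)), ?_, ?_⟩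
  · intro ι
    have h1 : D (E (ι.comp (algebraMap F Ω))) = D ι := by
      refine key _ _ 1 fun y => ?_
      rw [hE]
      rfl
    change IsWts ι ρ U (D (E (ι.comp (algebraMap F Ω))))
    rw [h1]
    exact hD ι
  · intro σ
    have h1 := wts_isotropic ρ w B hB _ (e (E σ)) (he (E σ)) U hiso (hD (E σ))
    rw [hEc] at h1
    exact h1
  · intro σ τ
    symm
    refine key _ _ τ fun y => ?_
    rw [hE, hE]
    rfl

end Pool.Agent.H99L
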