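import Mathlib
import Pool.Agent.Lib.H99L.Defs

/-!
# Eigenvalues on stable subspaces
-/

namespace Pool.Agent.H99L

open Module Polynomial

section

variable {K V : Type*} [Field K] [AddCommGroup V] [Module K V] [FiniteDimensional K V]

theorem eig_of_stable (T : V →ₗ[K] V) (U : Submodule K V) (h : ∀ x ∈ U, T x ∈ U) :
    eig T U = rts (T.restrict h).charpoly := dif_pos h

theorem card_rts {P : K[X]} : Multiset.card (rts P) = P.natDegree := by
  rw [rts, ← (IsAlgClosed.splits _).natDegree_eq_card_roots, natDegree_map]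

theorem card_eig (T : V →ₗ[K] V) (U : Submodule K V) (h : ∀ x ∈ U, T x ∈ U) :
    Multiset.card (eig T U) = finrank K U := by
  rw [eig_of_stable T U h, card_rts, LinearMap.charpoly_natDegree]

theorem rts_mul {P Q : K[X]} (hP : P ≠ 0) (hQ : Q ≠ 0) : rts (P * Q) = rts P + rts Q := by
  rw [rts, Polynomial.map_mul, roots_mul]
  · rfl
  · exact mul_ne_zero ((Polynomial.map_ne_zero_iff (algebraMap K _).injective).2 hP)
      ((Polynomial.map_ne_zero_iff (algebraMap K _).injective).2 hQ)

theorem eig_top (T : V →ₗ[K] V) : eig T ⊤ = rts T.charpoly := by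
  rw [eig_of_stable T ⊤ (fun _ _ => trivial)]
  congr 1
  have h1 : T = (Submodule.topEquiv : (⊤ : Submodule K V) ≃ₗ[K] V).conj
      (T.restrict (p := ⊤) (q := ⊤) (fun _ _ => trivial)) := by
    ext x
    rfl
  conv_rhs => rw [h1, LinearEquiv.charpoly_conj]

theorem prod_rts_charpoly (T : V →ₗ[K] V) :
    (rts T.charpoly).prod = algebraMap K (AlgebraicClosure K) (LinearMap.det T) := by
  have h1 := Module.End.det_eq_prod_roots_charpoly_of_splits (f := T.baseChange (AlgebraicClosure K))
    (IsAlgClosed.splits _)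
  rw [LinearMap.det_baseChange, LinearMap.charpoly_baseChange] at h1
  exact h1.symm

theorem prod_eig (T : V →ₗ[K] V) (U : Submodule K V) (h : ∀ x ∈ U, T x ∈ U) :
    (eig T U).prod = algebraMap K (AlgebraicClosure K) (LinearMap.det (T.restrict h)) := by
  rw [eig_of_stable T U h, prod_rts_charpoly]

end

end Pool.Agent.H99L
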