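import Mathlib
import Pool.Agent.Lib.H99L.E1
import Pool.Agent.Lib.H43.GS.Isotropic
import Pool.Agent.Lib.H43.GS.Fam

/-!
# Eigenvalues on isotropic subspaces
-/

namespace Pool.Agent.H99L

open Module Polynomial

/-- Chunk E2 (size M). **Eigenvalues of a similitude on a stable isotropic subspace.**

PROOF. This is `Pool.Agent.H43GS.isotropic_charpoly` (file `H43/GS/Isotropic.lean`) with the
additional information that the `z i` there are the eigenvalues of `T` on `W`: copy that proof
(with `K := AlgebraicClosure k`); it contains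
`hz' : TW.charpoly.map (algebraMap k K) = ∏ i, (X - C (z i))` with `TW = T.restrict hW`. Then
`rts TW.charpoly = Multiset.map z univ.val` and the divisibility
`(∏ (X - C (z i))) * ∏ (X - C (lam / z i)) ∣ T.charpoly.map _` gives the claim by
`roots.le_of_dvd` (`T.charpoly.map _` is monic) and `Pool.Agent.H43GS.roots_iso`
(file `H43/GS/Fam.lean`; or compute as in `relN_iff`). -/
theorem isoIn_eig {k V : Type*} [Field k] [Infinite k] [AddCommGroup V] [Module k V]
    [FiniteDimensional k V] (T : V →ₗ[k] V) (B : V →ₗ[k] V →ₗ[k] k) (lam : k) (hlam : lam ≠ 0)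
    (hB : ∀ x, (∀ y, B x y = 0) → x = 0) (hBT : ∀ x y, B (T x) (T y) = lam * B x y)
    (W : Submodule k V) (hW : ∀ x ∈ W, T x ∈ W) (hiso : ∀ x ∈ W, ∀ y ∈ W, B x y = 0) :
    IsoIn (algebraMap k (AlgebraicClosure k) lam) (eig T W) (rts T.charpoly) := by
  let K := AlgebraicClosure k
  classical
  have hW' : W ≤ W.comap T := hW
  set TW : W →ₗ[k] W := T.restrict hW with hTW
  have hTinj : Function.Injective T := by
    rw [← LinearMap.ker_eq_bot, LinearMap.ker_eq_bot']
    intro x hx
    apply hB
    intro y
    have h1 := hBT x y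
    rw [hx, map_zero, LinearMap.zero_apply] at h1
    exact (mul_eq_zero.1 h1.symm).resolve_left hlam
  have hTWinj : Function.Injective TW := by
    intro x y hxy
    apply Subtype.ext
    apply hTinj
    exact congrArg Subtype.val hxy
  let e : W ≃ₗ[k] W := LinearEquiv.ofInjectiveEndo TW hTWinj
  have he : ∀ x, TW (e.symm x) = x := fun x => e.apply_symm_apply x
  let S : Dual k W →ₗ[k] Dual k W := lam • (e.symm : W →ₗ[k] W).dualMap
  have hS : ∀ f x, S f x = lam * f (e.symm x) := fun f x => rfl
  -- the map to the dual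
  let F : V →ₗ[k] Dual k W := LinearMap.lcomp k k W.subtype ∘ₗ B.flip
  have hF : ∀ (y : V) (x : W), F y x = B x y := fun y x => rfl
  have hFsurj : Function.Surjective F := by
    -- the composite of the injection of `W` in the dual of `V` is dual to `F`
    let F' : W →ₗ[k] Dual k V := B ∘ₗ W.subtype
    have hF' : Function.Injective F' := by
      rw [← LinearMap.ker_eq_bot, LinearMap.ker_eq_bot']
      intro x hx
      apply Subtype.ext
      apply hB
      intro y
      exact LinearMap.congr_fun hx y
    have h1 : Function.Surjective F'.dualMap := LinearMap.dualMap_surjective_of_injective hF'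
    intro f
    obtain ⟨g, hg⟩ := h1 f
    obtain ⟨y, hy⟩ := (Module.evalEquiv k V).surjective g
    refine ⟨y, ?_⟩
    ext x
    rw [hF, ← hg, ← hy]
    rfl
  have hFW : W ≤ LinearMap.ker F := by
    intro y hy
    rw [LinearMap.mem_ker]
    ext x
    rw [hF]
    exact hiso x x.2 y hy
  let Fb : (V ⧸ W) →ₗ[k] Dual k W := W.liftQ F hFW
  have hFb : Function.Surjective Fb := by
    intro f
    obtain ⟨y, hy⟩ := hFsurj f
    exact ⟨W.mkQ y, hy⟩
  have hFS : ∀ x, Fb (W.mapQ W T hW' x) = S (Fb x) := by
    intro x
    obtain ⟨y, rfl⟩ := W.mkQ_surjective x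
    change F (T y) = S (F y)
    ext x
    rw [hF, hS, hF, ← hBT]
    congr 1
    have := congrArg Subtype.val (he x)
    rw [← this]
    rfl
  have hdvd := Pool.Agent.H43GS.charpoly_dvd_of_surjective (W.mapQ W T hW') S Fb hFb hFS
  -- eigenvalues
  set r := finrank k W with hr
  let b : Basis (Fin r) k W := Module.finBasis k W
  let bd : Basis (Fin r) k (Dual k W) := b.dualBasis
  obtain ⟨z, hz⟩ := Pool.Agent.Ord.exists_eigenvalues
    ((LinearMap.toMatrix b b TW).map (algebraMap k K))
  have hz' : TW.charpoly.map (algebraMap k K) = ∏ i, (X - C (z i)) := by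
    rw [← hz, Matrix.charpoly_map, LinearMap.charpoly_toMatrix]
  have hSc := Pool.Agent.H43GS.charpoly_inv bd TW.dualMap S lam hlam (by
    ext f x
    change S f (TW x) = lam * f x
    rw [hS]
    congr 2
    exact e.symm_apply_apply x) z (by rw [Pool.Agent.H43GS.charpoly_dualMap, hz'])
  have hdv : ((∏ i, (X - C (z i))) * ∏ i, (X - C (algebraMap k K lam / z i))) ∣
      T.charpoly.map (algebraMap k K) := by
    rw [Pool.Agent.H43GS.charpoly_eq_mul T W hW', Polynomial.map_mul]
    exact mul_dvd_mul (dvd_of_eq hz'.symm) (by rw [← hSc]; exact Polynomial.map_dvd _ hdvd)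
  have hmon : (T.charpoly.map (algebraMap k K)).Monic := (LinearMap.charpoly_monic T).map _
  have h2 := roots.le_of_dvd hmon.ne_zero hdv
  rw [Pool.Agent.H43GS.roots_iso] at h2
  have h3 : eig T W = Multiset.map z Finset.univ.val := by
    rw [eig_of_stable T W hW]
    unfold rts
    have h4 : TW.charpoly.map (algebraMap k (AlgebraicClosure k)) = ∏ i, (X - C (z i)) := hz'
    rw [h4]
    have := roots_multiset_prod_X_sub_C (Multiset.map z Finset.univ.val)
    rw [Multiset.map_map] at this
    exact this
  unfold IsoIn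
  rw [h3, Multiset.map_map]
  exact h2

end Pool.Agent.H99L
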