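import Mathlib
import Pool.Agent.Lib.H99L.E1
import Pool.Agent.Lib.Helper90.GSem.WD

/-!
# Eigenvalues on direct sums
-/

namespace Pool.Agent.H99L

open Module Polynomial

variable {K V : Type*} [Field K] [AddCommGroup V] [Module K V] [FiniteDimensional K V]

/-- Chunk E3 (size S/M). **Eigenvalues on a direct sum of stable subspaces.** -/
theorem eig_sup (T : V →ₗ[K] V) (A₁ A₂ : Submodule K V) (h₁ : ∀ x ∈ A₁, T x ∈ A₁)
    (h₂ : ∀ x ∈ A₂, T x ∈ A₂) (hdisj : Disjoint A₁ A₂) :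
    eig T (A₁ ⊔ A₂) = eig T A₁ + eig T A₂ := by
  have h : ∀ x ∈ A₁ ⊔ A₂, T x ∈ A₁ ⊔ A₂ := by
    intro x hx
    obtain ⟨y, hy, z, hz, rfl⟩ := Submodule.mem_sup.1 hx
    rw [map_add]
    exact Submodule.add_mem_sup (h₁ y hy) (h₂ z hz)
  let F : (A₁ × A₂) →ₗ[K] (A₁ ⊔ A₂ : Submodule K V) :=
    LinearMap.coprod (Submodule.inclusion le_sup_left) (Submodule.inclusion le_sup_right)
  have hF : ∀ x : A₁ × A₂, ((F x : (A₁ ⊔ A₂ : Submodule K V)) : V) = (x.1 : V) + (x.2 : V) := fun x => rfl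
  have hinj : Function.Injective F := by
    rw [← LinearMap.ker_eq_bot, LinearMap.ker_eq_bot']
    rintro ⟨x, y⟩ hxy
    have h1 : (x : V) + (y : V) = 0 := by
      rw [← hF ⟨x, y⟩, hxy]; rfl
    have h2 : (x : V) ∈ A₁ ⊓ A₂ := by
      refine ⟨x.2, ?_⟩
      rw [eq_neg_of_add_eq_zero_left h1]
      exact A₂.neg_mem y.2
    rw [disjoint_iff.1 hdisj, Submodule.mem_bot] at h2
    rw [h2, zero_add] at h1
    ext
    · exact h2
    · exact h1
  have hsurj : Function.Surjective F := by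
    intro z
    obtain ⟨x, hx, y, hy, hxy⟩ := Submodule.mem_sup.1 z.2
    exact ⟨(⟨x, hx⟩, ⟨y, hy⟩), Subtype.ext hxy⟩
  let E := LinearEquiv.ofBijective F ⟨hinj, hsurj⟩
  have h3 : E.conj (LinearMap.prodMap (T.restrict h₁) (T.restrict h₂)) = T.restrict h := by
    ext z
    obtain ⟨x, rfl⟩ := E.surjective z
    rw [LinearEquiv.conj_apply, LinearMap.comp_apply, LinearMap.comp_apply, LinearEquiv.coe_coe,
      LinearEquiv.coe_coe, LinearEquiv.symm_apply_apply, LinearMap.coe_restrict_apply]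
    change ((F _ : (A₁ ⊔ A₂ : Submodule K V)) : V) = T ((F x : (A₁ ⊔ A₂ : Submodule K V)) : V)
    rw [hF, hF, map_add]
    rfl
  rw [eig_of_stable T _ h, eig_of_stable T _ h₁, eig_of_stable T _ h₂, ← h3, LinearEquiv.charpoly_conj,
    LinearMap.charpoly_prodMap, rts_mul (LinearMap.charpoly_monic _).ne_zero (LinearMap.charpoly_monic _).ne_zero]

end Pool.Agent.H99L
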