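import Mathlib
import Pool.Agent.Lib.H99L.E1

/-!
# Eigenvalues of a multiple
-/

namespace Pool.Agent.H99L

open Module Polynomial

variable {K V : Type*} [Field K] [AddCommGroup V] [Module K V] [FiniteDimensional K V]

theorem charpoly_smul_eq (T : V →ₗ[K] V) (c : K) (hc : c ≠ 0) [Infinite K] :
    (c • T).charpoly = T.charpoly.scaleRoots c := by
  apply Polynomial.funext
  intro t
  have h1 : t = c * (c⁻¹ * t) := by rw [mul_inv_cancel_left₀ hc]
  conv_rhs => rw [h1]
  rw [scaleRoots_eval_mul, LinearMap.eval_charpoly, LinearMap.eval_charpoly, LinearMap.charpoly_natDegree,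
    ← LinearMap.det_smul]
  congr 1
  rw [smul_sub]
  congr 1
  ext x
  change t • x = c • ((c⁻¹ * t) • x)
  rw [smul_smul, mul_inv_cancel_left₀ hc]

theorem roots_scaleRoots {L : Type*} [Field L] (p : L[X]) (c : L) (hc : c ≠ 0) :
    (p.scaleRoots c).roots = p.roots.map (fun z => c * z) := by
  classical
  ext a
  have h1 : a = c * (c⁻¹ * a) := by rw [mul_inv_cancel_left₀ hc]
  have hinj : Function.Injective (fun z : L => c * z) := mul_right_injective₀ hc
  have h2 := Multiset.count_map_eq_count' (fun z : L => c * z) p.roots hinj (c⁻¹ * a)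
  simp only [mul_inv_cancel_left₀ hc] at h2
  rw [h2, count_roots, count_roots]
  conv_lhs => rw [h1]
  exact rootMultiplicity_scaleRoots p (IsRegular.of_ne_zero hc).left

/-- Chunk E4a (size S/M). **Eigenvalues of `c • T`.** -/
theorem rts_smul (T : V →ₗ[K] V) (c : K) (hc : c ≠ 0) [Infinite K] :
    rts (c • T).charpoly = (rts T.charpoly).map (fun z => algebraMap K _ c * z) := by
  have hc' : algebraMap K (AlgebraicClosure K) c ≠ 0 := by
    rw [Ne, map_eq_zero]
    exact hc
  rw [rts, rts, charpoly_smul_eq T c hc, map_scaleRoots, roots_scaleRoots _ _ hc']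
  rw [(LinearMap.charpoly_monic T).leadingCoeff, map_one]
  exact one_ne_zero

end Pool.Agent.H99L
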