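import Mathlib
import Pool.Agent.Lib.H99L.E4a

/-!
# Eigenvalues on the image under a twisted commuting operator
-/

namespace Pool.Agent.H99L

open Module Polynomial

variable {K V : Type*} [Field K] [AddCommGroup V] [Module K V] [FiniteDimensional K V]

/-- Chunk E4 (size S/M). **Eigenvalues on `N A`.** -/
theorem eig_map [Infinite K] (T N : V →ₗ[K] V) (c : K) (hc : c ≠ 0) (A : Submodule K V)
    (hA : ∀ x ∈ A, T x ∈ A) (hTN : ∀ x ∈ A, T (N x) = c • N (T x))
    (hinj : ∀ x ∈ A, N x = 0 → x = 0) :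
    eig T (A.map N) = (eig T A).map (fun z => algebraMap K _ c * z) := by
  have h : ∀ x ∈ A.map N, T x ∈ A.map N := by
    rintro _ ⟨x, hx, rfl⟩
    rw [hTN x hx]
    exact (A.map N).smul_mem c ⟨T x, hA x hx, rfl⟩
  let F : A →ₗ[K] A.map N := (N.domRestrict A).codRestrict (A.map N) (fun x => ⟨x, x.2, rfl⟩)
  have hF : ∀ x : A, ((F x : A.map N) : V) = N (x : V) := fun x => rfl
  have hFinj : Function.Injective F := by
    rw [← LinearMap.ker_eq_bot, LinearMap.ker_eq_bot']
    intro x hx
    have h1 : N (x : V) = 0 := by rw [← hF, hx]; rfl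
    exact Subtype.ext (hinj x x.2 h1)
  have hFsurj : Function.Surjective F := by
    rintro ⟨_, x, hx, rfl⟩
    exact ⟨⟨x, hx⟩, rfl⟩
  let E := LinearEquiv.ofBijective F ⟨hFinj, hFsurj⟩
  have h3 : E.conj (c • T.restrict hA) = T.restrict h := by
    ext z
    obtain ⟨x, rfl⟩ := E.surjective z
    rw [LinearEquiv.conj_apply, LinearMap.comp_apply, LinearMap.comp_apply, LinearEquiv.coe_coe,
      LinearEquiv.coe_coe, LinearEquiv.symm_apply_apply, LinearMap.coe_restrict_apply]
    change ((F (c • T.restrict hA x) : A.map N) : V) = T ((F x : A.map N) : V)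
    rw [hF, hF, hTN _ x.2]
    change N (c • T (x : V)) = c • N (T (x : V))
    rw [map_smul]
  rw [eig_of_stable T _ h, eig_of_stable T _ hA, ← h3, LinearEquiv.charpoly_conj, rts_smul _ c hc]

end Pool.Agent.H99L
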