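import Mathlib
import Pool.Agent.Lib.H99L.E3
import Pool.Agent.Lib.Helper90.GSem.WD2

/-!
# Eigenvalues and weights
-/

namespace Pool.Agent.H99L

open Module Polynomial Pool.Agent.GSem

variable {k V : Type*} [Field k] [CharZero k] [AddCommGroup V] [Module k V] [FiniteDimensional k V]

/-- Chunk E5 (size M). **The eigenvalues on a stable subspace, sorted by weights.**

PROOF. Induction on `S` as in `Pool.Agent.GSem.norm_det_weights` (file `Helper90/GSem/WD.lean`):
for `insert i S` the subspace `A` is the direct sum of `A ⊓ ker Q₁(T)` and `A ⊓ ker Q₂(T)` with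
`Q₁ = P i`, `Q₂ = ∏ j ∈ S, P j` (coprime by `HasWeight.isCoprime`, `isCoprime_map`), use `eig_sup`
instead of `det_restrict_sup`, and the equality `hker` there. For `S = ∅` the space `A` is `⊥`. -/
theorem eig_weights (T : V →ₗ[k] V) {q : ℕ} (hq : 1 < q)
    (P : ℤ → ℚ[X]) (hP : ∀ i, HasWeight q i (P i)) (S : Finset ℤ) (A : Submodule k V)
    (hA : ∀ x ∈ A, T x ∈ A)
    (hS : ∀ x ∈ A, aeval T ((∏ i ∈ S, P i).map (algebraMap ℚ k)) x = 0) :
    eig T A = ∑ i ∈ S, eig T (A ⊓ wtPart T P i) := by
  classical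
  induction S using Finset.induction_on generalizing A with
  | empty =>
    have h1 : A = ⊥ := by
      rw [eq_bot_iff]
      intro x hx
      have := hS x hx
      rw [Finset.prod_empty, Polynomial.map_one, map_one] at this
      exact this
    rw [Finset.sum_empty, ← Multiset.card_eq_zero, card_eig T A hA, h1]
    exact finrank_bot k V
  | insert i S hi ih =>
    set Q₁ := (P i).map (algebraMap ℚ k) with hQ₁
    set Q₂ := (∏ j ∈ S, P j).map (algebraMap ℚ k) with hQ₂
    have hcop : IsCoprime Q₁ Q₂ := by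
      apply Pool.Agent.GSem.isCoprime_map
      apply IsCoprime.prod_right
      intro j hj
      apply HasWeight.isCoprime hq _ (hP i) (hP j)
      rintro rfl
      exact hi hj
    set A₁ := A ⊓ LinearMap.ker (aeval T Q₁) with hA₁
    set A₂ := A ⊓ LinearMap.ker (aeval T Q₂) with hA₂
    have hs₁ : ∀ x ∈ A₁, T x ∈ A₁ := ker_stable T A hA Q₁
    have hs₂ : ∀ x ∈ A₂, T x ∈ A₂ := ker_stable T A hA Q₂
    have hpolyA : ∀ (R : k[X]), ∀ x ∈ A, aeval T R x ∈ A := by
      intro R x hx
      have := aeval_restrict T A hA R ⟨x, hx⟩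
      rw [← this]
      exact Subtype.mem _
    have hdisj : Disjoint A₁ A₂ := by
      rw [disjoint_iff_inf_le]
      rintro x ⟨hx1, hx2⟩
      exact (disjoint_iff_inf_le.1 (disjoint_ker_aeval_of_isCoprime T hcop)) ⟨hx1.2, hx2.2⟩
    have hsup : A ≤ A₁ ⊔ A₂ := by
      intro x hx
      obtain ⟨a, b, hab⟩ := hcop
      have h1 : x = aeval T (b * Q₂) x + aeval T (a * Q₁) x := by
        rw [← LinearMap.add_apply, ← map_add, add_comm, hab, map_one]
        rfl
      have h0 : aeval T (Q₁ * Q₂) x = 0 := by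
        have := hS x hx
        rw [Finset.prod_insert hi, Polynomial.map_mul] at this
        exact this
      rw [h1]
      refine Submodule.add_mem_sup ⟨hpolyA _ x hx, ?_⟩ ⟨hpolyA _ x hx, ?_⟩
      · change aeval T Q₁ (aeval T (b * Q₂) x) = 0
        rw [← Module.End.mul_apply, ← map_mul,
          show Q₁ * (b * Q₂) = b * (Q₁ * Q₂) by ring, map_mul, Module.End.mul_apply, h0, map_zero]
      · change aeval T Q₂ (aeval T (a * Q₁) x) = 0
        rw [← Module.End.mul_apply, ← map_mul,
          show Q₂ * (a * Q₁) = a * (Q₁ * Q₂) by ring, map_mul, Module.End.mul_apply, h0, map_zero]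
    have hA12 : A = A₁ ⊔ A₂ := le_antisymm hsup (sup_le inf_le_left inf_le_left)
    have hih := ih A₂ hs₂ (fun x hx => hx.2)
    have hker : ∀ j ∈ S, A₂ ⊓ wtPart T P j = A ⊓ wtPart T P j := by
      intro j hj
      apply le_antisymm
      · exact inf_le_inf_right _ inf_le_left
      · rintro x ⟨hx1, hx2⟩
        refine ⟨⟨hx1, ?_⟩, hx2⟩
        change aeval T Q₂ x = 0
        have h1 : Q₂ = (∏ l ∈ S.erase j, P l).map (algebraMap ℚ k) *
            (P j).map (algebraMap ℚ k) := by
          rw [hQ₂, ← Polynomial.map_mul, Finset.prod_erase_mul _ _ hj]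
        rw [h1, map_mul, Module.End.mul_apply]
        have h2 : aeval T ((P j).map (algebraMap ℚ k)) x = 0 := hx2
        rw [h2, map_zero]
    rw [Finset.sum_insert hi]
    calc eig T A = eig T (A₁ ⊔ A₂) := congrArg _ hA12
      _ = eig T A₁ + eig T A₂ := eig_sup T A₁ A₂ hs₁ hs₂ hdisj
      _ = _ := by
        rw [hih]
        congr 1
        exact Finset.sum_congr rfl fun j hj => by rw [hker j hj]

end Pool.Agent.H99L
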