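import Mathlib
import Pool.Agent.Lib.H99L.E1

/-!
# Eigenvalues on subspaces of a stable subspace
-/

namespace Pool.Agent.H99L

open Module Polynomial

variable {K V : Type*} [Field K] [AddCommGroup V] [Module K V] [FiniteDimensional K V]

/-- Chunk E6 (size S/M). **Eigenvalues on a subspace, computed inside a larger stable subspace.** -/
theorem eig_comap (T : V →ₗ[K] V) (Q A : Submodule K V) (hQ : ∀ x ∈ Q, T x ∈ Q)
    (hA : ∀ x ∈ A, T x ∈ A) (hAQ : A ≤ Q) :
    eig (T.restrict hQ) (A.comap Q.subtype) = eig T A := by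
  have h : ∀ x ∈ A.comap Q.subtype, T.restrict hQ x ∈ A.comap Q.subtype := by
    intro x hx
    exact hA _ hx
  have h3 : (Submodule.comapSubtypeEquivOfLe hAQ).conj ((T.restrict hQ).restrict h) = T.restrict hA := by
    ext z
    rfl
  rw [eig_of_stable _ _ h, eig_of_stable T _ hA, ← h3, LinearEquiv.charpoly_conj]

end Pool.Agent.H99L
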