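import Mathlib
import Pool.Agent.Lib.H99L.Defs
import Pool.Agent.Lib.H99.NF.Mono2

/-!
# The determinant of Frobenius on a stable subspace under weight–monodromy
-/

namespace Pool.Agent.H99L

open NumberField Module Polynomial Pool.Agent.GSem Pool.Agent.NF

variable {p : ℕ} [hp : Fact p.Prime] {V : Type*} [AddCommGroup V] [Module ℚ_[p] V]
  [FiniteDimensional ℚ_[p] V]

/-- Chunk M1 (size M). **Weights of a subspace stable under Frobenius and monodromy.**

PROOF. See `HasWMAt.norm_det` in `H99/NF/Mono2.lean`. Let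
`u i = finrank (U ⊓ wtPart T P i)` and `a = ∑ i ∈ S, i * u i`. `norm_det_weights` gives the first
claim and `finrank U = ∑ i ∈ S, u i` (`wtPart` is the kernel used there, by definition);
`monodromy_maps` gives `hmaps`; `weights_sub_le` gives `a ≤ w * finrank U`. If equality holds,
`symm_of_sum u w S` (file `Helper90/GSem/WD2.lean`) gives `u (w + j) = u (w - j)`: it needs
`u i = 0` for `i ∉ S` (`wtPart_eq_bot`) and `u (w + j) ≤ u (w - j)` (proved inside
`weights_sub_le`: `N ^ j` maps `U ⊓ wtPart T P (w + j)` injectively to `U ⊓ wtPart T P (w - j)`,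
`pow_maps`, `pow_stable`). -/
theorem wm_norm {q : ℕ} (hq : 1 < q) {w : ℤ} {T N : V →ₗ[ℚ_[p]] V} {P : ℤ → ℚ[X]}
    {S : Finset ℤ} (h : IsWM q w T N P S) (J : AlgebraicClosure ℚ_[p] →+* ℂ)
    (U : Submodule ℚ_[p] V) (hUT : ∀ x ∈ U, T x ∈ U) (hUN : ∀ x ∈ U, N x ∈ U) :
    ∃ a : ℤ, ‖J (algebraMap ℚ_[p] _ (LinearMap.det (T.restrict hUT)))‖ ^ 2 = (q : ℝ) ^ (-a) ∧
      a ≤ w * finrank ℚ_[p] U ∧ (a = w * finrank ℚ_[p] U → ∀ j : ℕ,
        finrank ℚ_[p] (U ⊓ wtPart T P (w + j) : Submodule ℚ_[p] V) =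
          finrank ℚ_[p] (U ⊓ wtPart T P (w - j) : Submodule ℚ_[p] V)) := by
  obtain ⟨hN, hTN, hP, hS, hbij⟩ := h
  have hmaps := monodromy_maps T N hq P hP S hS hTN
  obtain ⟨h1, h2⟩ := norm_det_weights J T hq P hP S U hUT (fun x _ => by rw [hS]; rfl)
  have hinj : ∀ j : ℕ, ∀ x ∈ wtPart T P (w + j), (N ^ j) x = 0 → x = 0 := fun j x hx hx0 => by
    refine (hbij j).injOn hx (Submodule.zero_mem _) ?_
    rw [hx0, map_zero]
  have h3 := weights_sub_le T N hq w P hP S hS hmaps hinj U hUN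
  refine ⟨_, h1, ?_, fun ha j => ?_⟩
  · rw [h2]
    push_cast
    exact h3
  · refine symm_of_sum (fun i => finrank ℚ_[p] (U ⊓ wtPart T P i : Submodule ℚ_[p] V)) w S ?_ ?_
      ?_ j
    · intro i hi
      change finrank ℚ_[p] (U ⊓ wtPart T P i : Submodule ℚ_[p] V) = 0
      rw [wtPart_eq_bot T hq P hP S hS i hi, inf_bot_eq, finrank_bot]
    · intro j
      have hmapsto : ∀ x ∈ (U ⊓ wtPart T P (w + j)), (N ^ j) x ∈ (U ⊓ wtPart T P (w - j)) := by
        rintro x ⟨hx1, hx2⟩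
        refine ⟨pow_stable hUN j x hx1, ?_⟩
        have h1 := pow_maps hmaps j _ x hx2
        have h2 : w + (j : ℤ) - 2 * j = w - j := by ring
        rw [h2] at h1
        exact h1
      apply LinearMap.finrank_le_finrank_of_injective (f := (N ^ j).restrict hmapsto)
      rw [← LinearMap.ker_eq_bot, LinearMap.ker_eq_bot']
      intro x hx
      apply Subtype.ext
      exact hinj j x x.2.2 (congrArg Subtype.val hx)
    · have h4 : (finrank ℚ_[p] U : ℤ) =
          ∑ i ∈ S, (finrank ℚ_[p] (U ⊓ wtPart T P i : Submodule ℚ_[p] V) : ℤ) := by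
        rw [h2]
        push_cast
        rfl
      rw [h4] at ha
      exact ha

end Pool.Agent.H99L
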