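import Mathlib
import Pool.Agent.Lib.H99L.Defs
import Pool.Agent.Lib.H99.NF.Mono2

/-!
# Weight–monodromy for a stable subspace
-/

namespace Pool.Agent.H99L

open NumberField Module Polynomial Pool.Agent.GSem Pool.Agent.NF

variable {p : ℕ} [hp : Fact p.Prime] {V : Type*} [AddCommGroup V] [Module ℚ_[p] V]
  [FiniteDimensional ℚ_[p] V]

/-- Chunk M2 (size S/M). **Equal dimensions imply weight–monodromy for the subspace.**

PROOF. `N ^ j` maps `U ⊓ wtPart T P (w + j)` to `U ⊓ wtPart T P (w - j)` (`monodromy_maps`,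
`pow_maps`, `pow_stable` in `H99/NF/Mono2.lean`; `w + j - 2 * j = w - j`), injectively (`h` contains
`Set.BijOn (N ^ j) (wtPart T P (w + j)) (wtPart T P (w - j))`), and the dimensions are equal, so the
restricted linear map is surjective
(`LinearMap.injective_iff_surjective_of_finrank_eq_finrank`). -/
theorem wm_bijOn {q : ℕ} (hq : 1 < q) {w : ℤ} {T N : V →ₗ[ℚ_[p]] V} {P : ℤ → ℚ[X]}
    {S : Finset ℤ} (h : IsWM q w T N P S) (U : Submodule ℚ_[p] V) (hUN : ∀ x ∈ U, N x ∈ U)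
    (j : ℕ) (hdim : finrank ℚ_[p] (U ⊓ wtPart T P (w + j) : Submodule ℚ_[p] V) =
      finrank ℚ_[p] (U ⊓ wtPart T P (w - j) : Submodule ℚ_[p] V)) :
    Set.BijOn (N ^ j) ((U ⊓ wtPart T P (w + j) : Submodule ℚ_[p] V) : Set V)
      ((U ⊓ wtPart T P (w - j) : Submodule ℚ_[p] V) : Set V) := by
  obtain ⟨hNnil, hTN, hP, hS, hbij⟩ := h
  have hmaps := monodromy_maps T N hq P hP S hS hTN
  have h1 : ∀ x ∈ (U ⊓ wtPart T P (w + j) : Submodule ℚ_[p] V),
      (N ^ j) x ∈ (U ⊓ wtPart T P (w - j) : Submodule ℚ_[p] V) := by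
    intro x hx
    refine ⟨pow_stable hUN j x hx.1, ?_⟩
    have h2 := pow_maps hmaps j (w + j) x hx.2
    have h3 : w + (j : ℤ) - 2 * (j : ℤ) = w - j := by ring
    rwa [h3] at h2
  let f : (U ⊓ wtPart T P (w + j) : Submodule ℚ_[p] V) →ₗ[ℚ_[p]]
      (U ⊓ wtPart T P (w - j) : Submodule ℚ_[p] V) := (N ^ j).restrict h1
  have hinj : Function.Injective f := by
    intro a b hab
    have h2 : (N ^ j) (a : V) = (N ^ j) (b : V) := congrArg Subtype.val hab
    exact Subtype.ext ((hbij j).injOn a.2.2 b.2.2 h2)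
  have hsurj := (LinearMap.injective_iff_surjective_of_finrank_eq_finrank hdim).1 hinj
  refine ⟨fun x hx => h1 x hx, fun x hx y hy hxy => (hbij j).injOn hx.2 hy.2 hxy, fun y hy => ?_⟩
  obtain ⟨x, hx⟩ := hsurj ⟨y, hy⟩
  exact ⟨x, x.2, congrArg Subtype.val hx⟩

end Pool.Agent.H99L
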