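import Mathlib
import Pool.Agent.Lib.H99L.Defs

/-!
# Weights at all places above `l`, and the number of cosets
-/

namespace Pool.Agent.H99L

/-- Chunk M3 (size S/M), first statement. **Equality of the weights.**

PROOF. `∏ i, l ^ (- f i * a i) = l ^ (-(2 * H))` in `ℝ`, so `∑ f i * a i = 2 * H = ∑ f i * b`
(`zpow_right_injective₀`, `Finset.prod_zpow`-like; see `sum_of_norms` in `H99/NF/Sum.lean`). Since
`a i ≤ b` and `f i > 0`, all `a i = b` (`Finset.sum_eq_sum_iff_of_le`). -/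
theorem weights_eq {k : ℕ} {l : ℕ} (hl : 1 < l) (f : Fin k → ℕ) (hf : ∀ i, 0 < f i)
    (a : Fin k → ℤ) (b H : ℤ) (ha : ∀ i, a i ≤ b) (hH : 2 * H = b * ∑ i, (f i : ℤ))
    (R : Fin k → ℝ) (hR : ∀ i, R i = ((l ^ f i : ℕ) : ℝ) ^ (-a i))
    (hprod : ∏ i, R i = (l : ℝ) ^ (-(2 * H))) : ∀ i, a i = b := by
  have hl0 : (0 : ℝ) < l := by exact_mod_cast (by omega : 0 < l)
  have hl1 : (l : ℝ) ≠ 1 := by exact_mod_cast (by omega : l ≠ 1)
  have h1 : ∀ s : Finset (Fin k), ∏ i ∈ s, R i = (l : ℝ) ^ (∑ i ∈ s, (f i : ℤ) * (-a i)) := by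
    intro s
    induction s using Finset.induction_on with
    | empty => simp
    | insert i s hi ih =>
      rw [Finset.prod_insert hi, Finset.sum_insert hi, zpow_add₀ hl0.ne', ih, hR i, Nat.cast_pow,
        ← zpow_natCast, ← zpow_mul]
  have h2 : ∑ i, (f i : ℤ) * (-a i) = -(2 * H) := by
    apply zpow_right_injective₀ hl0 hl1
    change (l : ℝ) ^ _ = (l : ℝ) ^ _
    rw [← h1, hprod]
  have h3 : ∑ i, (f i : ℤ) * (b - a i) = 0 := by
    have h4 : ∑ i, (f i : ℤ) * (b - a i) = b * ∑ i, (f i : ℤ) + ∑ i, (f i : ℤ) * (-a i) := by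
      rw [Finset.mul_sum, ← Finset.sum_add_distrib]
      exact Finset.sum_congr rfl fun i _ => by ring
    rw [h4, h2, ← hH]
    ring
  intro i
  have h5 := (Finset.sum_eq_zero_iff_of_nonneg fun i _ =>
    mul_nonneg (Int.natCast_nonneg (f i)) (sub_nonneg.2 (ha i))).1 h3 i (Finset.mem_univ i)
  rcases mul_eq_zero.1 h5 with h6 | h6
  · have h7 := hf i
    omega
  · omega

/-- Chunk M3, second statement. **The orbit lengths add up to the index.**

PROOF. `Nat.card_eq_of_bijective _ ho.bij` (or `Nat.card_congr`), `Nat.card_sigma` /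
`Fintype.card_sigma`, `Fintype.card_fin`. -/
theorem sum_orbits {G : Type*} [Group G] {Γ : Subgroup G} {g : G} {k : ℕ} {x : Fin k → G}
    {f : Fin k → ℕ} (ho : IsOrbits Γ g x f) : ∑ i, f i = Nat.card (G ⧸ Γ) := by
  rw [← Nat.card_eq_of_bijective _ ho.bij, Nat.card_sigma]
  exact Finset.sum_congr rfl fun i _ => (Nat.card_fin (f i)).symm

end Pool.Agent.H99L
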