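import Mathlib
import Pool.Agent.Lib.Helper90.GSem.Defs
import Pool.Agent.Lib.Helper90.GSem.Steinberg

/-!
# Powers of unipotent operators; polynomial sequences
-/

namespace Pool.Agent.H99L

open Module Polynomial Pool.Agent.GSem

/-- Chunk M5a (size M), first statement. **Powers of the exponential of a nilpotent operator.**

PROOF. `N ^ (finrank K V + 1) = 0` (a nilpotent operator satisfies `N ^ finrank K V = 0`; see
`IsNilpotent` lemmas, `Module.End` / `LinearMap.charpoly_eq_X_pow_finrank`, or
`Helper90/GSem/Steinberg.lean`), so `nexp N = IsNilpotent.exp N` (`IsNilpotent.exp_eq_sum`). By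
induction on `m`, `(IsNilpotent.exp N) ^ m = IsNilpotent.exp (m • N)`
(`IsNilpotent.exp_add_of_commute`), and `(m • N) ^ i = (m : K) ^ i • N ^ i`. -/
theorem nexp_pow {K V : Type*} [Field K] [CharZero K] [AddCommGroup V] [Module K V]
    [FiniteDimensional K V] (N : V →ₗ[K] V) (hN : IsNilpotent N) (m : ℕ) :
    nexp N ^ m = ∑ i ∈ Finset.range (finrank K V + 1),
      ((i.factorial : K)⁻¹ * (m : K) ^ i) • N ^ i := by
  let _ : Algebra ℚ K := DivisionRing.toRatAlgebra
  let _ : Module ℚ V := Module.compHom V (algebraMap ℚ K)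
  have _ : IsScalarTower ℚ K V := ⟨fun q a v => by
    change (q • a) • v = (algebraMap ℚ K q) • a • v
    rw [Algebra.smul_def, mul_smul]⟩
  have hq : ∀ (i : ℕ) (T : Module.End K V), ((i.factorial : ℚ)⁻¹) • T = ((i.factorial : K)⁻¹) • T := by
    intro i T
    ext v
    change (algebraMap ℚ K ((i.factorial : ℚ)⁻¹)) • (T v) = ((i.factorial : K)⁻¹) • T v
    rw [map_inv₀, map_natCast]
  have hN0 : N ^ (finrank K V + 1) = 0 := by
    rw [pow_succ, pow_finrank_eq_zero N hN, zero_mul]
  have h1 : nexp N = IsNilpotent.exp (A := Module.End K V) N := by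
    rw [IsNilpotent.exp_eq_sum hN0, nexp]
    exact Finset.sum_congr rfl fun i _ => (hq i _).symm
  have h2 : ∀ m : ℕ, (IsNilpotent.exp (A := Module.End K V) N) ^ m = IsNilpotent.exp (m • N) := by
    intro m
    induction m with
    | zero => rw [pow_zero, zero_smul, IsNilpotent.exp_zero]
    | succ m ih =>
      rw [pow_succ, ih, succ_nsmul, IsNilpotent.exp_add_of_commute]
      · exact (Commute.refl N).smul_left m
      · exact hN.smul m
      · exact hN
  have hmN : (m • N) ^ (finrank K V + 1) = 0 := by
    rw [_root_.smul_pow, hN0, smul_zero]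
  rw [h1, h2, IsNilpotent.exp_eq_sum hmN]
  refine Finset.sum_congr rfl fun i _ => ?_
  rw [hq, _root_.smul_pow, mul_smul]
  congr 1
  rw [← Nat.cast_smul_eq_nsmul K, Nat.cast_pow]

/-- Chunk M5a, second statement. **A polynomial which is a geometric sequence is constant.**

PROOF. If `F = 0` this is clear. The polynomial `F.comp (X + 1) - C c * F` vanishes at all `m : ℕ`,
so it is zero (infinitely many roots, `Polynomial.eq_zero_of_infinite_isRoot`). Its coefficient at
`natDegree F` is `leadingCoeff F * (1 - c)` (`leadingCoeff_comp`, degree of the composition), so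
`c = 1`, and `F - C β` vanishes at all `m : ℕ`, so `F = C β` and `coeff 1` is `0`. -/
theorem coeff_one_eq_zero {K : Type*} [Field K] [CharZero K] (F : K[X]) (c β : K)
    (h : ∀ m : ℕ, F.eval (m : K) = c ^ m * β) : F.coeff 1 = 0 := by
  have hinf : ∀ G : K[X], (∀ m : ℕ, G.eval (m : K) = 0) → G = 0 := by
    intro G hG
    apply Polynomial.eq_zero_of_infinite_isRoot
    refine Set.Infinite.mono ?_ (Set.infinite_range_of_injective (Nat.cast_injective (R := K)))
    rintro _ ⟨m, rfl⟩
    exact hG m
  by_cases hF : F = 0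
  · rw [hF, coeff_zero]
  · have h1 : F.comp (X + C 1) - C c * F = 0 := by
      apply hinf
      intro m
      rw [eval_sub, eval_comp, eval_add, eval_X, eval_C, eval_mul, eval_C, h m]
      have h2 := h (m + 1)
      rw [Nat.cast_add, Nat.cast_one] at h2
      rw [h2, pow_succ]
      ring
    have h2 : F.comp (X + C 1) = C c * F := sub_eq_zero.1 h1
    have h3 : (F.comp (X + C 1)).leadingCoeff = F.leadingCoeff := by
      rw [leadingCoeff_comp (by rw [natDegree_X_add_C]; exact one_ne_zero), leadingCoeff_X_add_C,
        one_pow, mul_one]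
    rw [h2, leadingCoeff_mul, leadingCoeff_C] at h3
    have hc : c = 1 := mul_right_cancel₀ (leadingCoeff_ne_zero.2 hF) (h3.trans (one_mul _).symm)
    have h4 : F - C β = 0 := by
      apply hinf
      intro m
      rw [eval_sub, eval_C, h m, hc, one_pow, one_mul, sub_self]
    rw [sub_eq_zero.1 h4, coeff_C, if_neg one_ne_zero]

end Pool.Agent.H99L
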