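import Mathlib
import Pool.Agent.Lib.H99L.M5a

/-!
# The form is invariant under the monodromy operator
-/

namespace Pool.Agent.H99L

open Module Polynomial Pool.Agent.GSem

/-- Chunk M5 (size M). **Infinitesimal invariance.** If `exp N` is a similitude of a bilinear form,
then `B (N x) y = - B x (N y)`.

PROOF. Put `E = nexp N`, `n = finrank K V + 1`. By induction `B (E ^ m x) (E ^ m y) = c ^ m * B x y`.
Let `F = ∑ i < n, ∑ j < n, C (B (N ^ i x) (N ^ j y) / (i! * j!)) * X ^ (i + j)`. By `nexp_pow`,
`F.eval m = B (E ^ m x) (E ^ m y) = c ^ m * B x y` (expand with `map_sum`, `LinearMap.sum_apply`,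
`map_smul`). By `coeff_one_eq_zero` the coefficient of `X` in `F` vanishes; it is
`B (N x) y + B x (N y)` (terms `(i, j) = (1, 0), (0, 1)`; if `finrank K V = 0` everything is `0`
because then `V` is trivial). -/
theorem form_nexp {K V : Type*} [Field K] [CharZero K] [AddCommGroup V] [Module K V]
    [FiniteDimensional K V] (N : V →ₗ[K] V) (hN : IsNilpotent N) (B : V →ₗ[K] V →ₗ[K] K) (c : K)
    (hB : ∀ x y, B (nexp N x) (nexp N y) = c * B x y) (x y : V) : B (N x) y = - B x (N y) := by
  have hpow : ∀ (m : ℕ) (x y : V), B ((nexp N ^ m) x) ((nexp N ^ m) y) = c ^ m * B x y := by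
    intro m
    induction m with
    | zero => intro x y; rw [pow_zero, pow_zero, one_mul]; rfl
    | succ m ih =>
      intro x y
      rw [pow_succ, Module.End.mul_apply, Module.End.mul_apply, ih, hB, pow_succ]
      ring
  by_cases hfr : finrank K V = 0
  · have hs : Subsingleton V := finrank_zero_iff.1 hfr
    rw [Subsingleton.elim (N x) 0, Subsingleton.elim (N y) 0, map_zero, map_zero,
      LinearMap.zero_apply, neg_zero]
  · obtain ⟨k, hk⟩ : ∃ k, finrank K V + 1 = k + 2 := ⟨finrank K V - 1, by omega⟩
    obtain ⟨a, ha⟩ : ∃ a : ℕ → ℕ → K, a = fun i j =>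
      (i.factorial : K)⁻¹ * (j.factorial : K)⁻¹ * B ((N ^ i) x) ((N ^ j) y) := ⟨_, rfl⟩
    obtain ⟨F, hF⟩ : ∃ F : K[X], F = ∑ i ∈ Finset.range (k + 2), ∑ j ∈ Finset.range (k + 2),
      C (a i j) * X ^ (i + j) := ⟨_, rfl⟩
    have h1 : ∀ m : ℕ, F.eval (m : K) = c ^ m * B x y := by
      intro m
      rw [← hpow m x y, nexp_pow N hN m, hk, hF, eval_finsetSum, LinearMap.sum_apply, map_sum,
        LinearMap.sum_apply]
      refine Finset.sum_congr rfl fun i _ => ?_
      rw [eval_finsetSum, LinearMap.sum_apply, map_sum]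
      refine Finset.sum_congr rfl fun j _ => ?_
      rw [eval_mul, eval_C, eval_pow, eval_X, ha, LinearMap.smul_apply, LinearMap.smul_apply,
        map_smul, map_smul, LinearMap.smul_apply, smul_eq_mul, smul_eq_mul, pow_add]
      ring
    have h2 := coeff_one_eq_zero F c (B x y) h1
    have h3 : F.coeff 1 = a 1 0 + a 0 1 := by
      rw [hF, finsetSum_coeff]
      have h4 : ∀ i, (∑ j ∈ Finset.range (k + 2), C (a i j) * X ^ (i + j) : K[X]).coeff 1 =
          ∑ j ∈ Finset.range (k + 2), if 1 = i + j then a i j else 0 := by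
        intro i
        rw [finsetSum_coeff]
        refine Finset.sum_congr rfl fun j _ => ?_
        rw [coeff_C_mul, coeff_X_pow]
        split_ifs
        · rw [mul_one]
        · rw [mul_zero]
      rw [Finset.sum_congr rfl fun i _ => h4 i, Finset.sum_range_succ', Finset.sum_range_succ']
      have h5 : ∑ i ∈ Finset.range k, ∑ j ∈ Finset.range (k + 2),
          (if 1 = i + 1 + 1 + j then a (i + 1 + 1) j else 0) = 0 :=
        Finset.sum_eq_zero fun i _ => Finset.sum_eq_zero fun j _ => if_neg (by omega)
      have h6 : ∑ j ∈ Finset.range (k + 2), (if 1 = 0 + 1 + j then a (0 + 1) j else 0) = a 1 0 := by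
        rw [Finset.sum_eq_single 0]
        · rw [if_pos rfl]
        · intro j _ hj
          exact if_neg (by omega)
        · intro h
          exact absurd (Finset.mem_range.2 (by omega)) h
      have h7 : ∑ j ∈ Finset.range (k + 2), (if 1 = 0 + j then a 0 j else 0) = a 0 1 := by
        rw [Finset.sum_eq_single 1]
        · rw [if_pos rfl]
        · intro j _ hj
          exact if_neg (by omega)
        · intro h
          exact absurd (Finset.mem_range.2 (by omega)) h
      rw [h5, h6, h7, zero_add]
    rw [h3, ha] at h2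
    simp only [Nat.factorial, Nat.cast_one, inv_one, one_mul, pow_one, pow_zero, mul_one,
      Module.End.one_apply, zero_add] at h2
    exact eq_neg_of_add_eq_zero_left h2

end Pool.Agent.H99L
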