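import Mathlib
import Pool.Agent.Lib.H99L.Defs
import Pool.Agent.Lib.H99.NF.Mono2

/-!
# The primitive parts are stable
-/

namespace Pool.Agent.H99L

open NumberField Module Polynomial Pool.Agent.GSem Pool.Agent.NF

variable {p : ℕ} [hp : Fact p.Prime] {V : Type*} [AddCommGroup V] [Module ℚ_[p] V]

/-- Chunk M6a (size S/M), first statement.

PROOF. Induction on `j` from `T (N y) = q • N (T y)`. -/
theorem wm_comm {q : ℕ} {w : ℤ} {T N : V →ₗ[ℚ_[p]] V} {P : ℤ → ℚ[X]} {S : Finset ℤ}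
    (h : IsWM q w T N P S) (j : ℕ) (y : V) :
    T ((N ^ j) y) = ((q : ℚ_[p]) ^ j) • (N ^ j) (T y) := by
  induction j with
  | zero => simp
  | succ j ih =>
    rw [pow_succ', Module.End.mul_apply, h.2.1, ih, map_smul, smul_smul, pow_succ',
      Module.End.mul_apply]

/-- Chunk M6a, second statement. **Weight parts are stable under Frobenius.**

PROOF. `aeval T Q (T x) = T (aeval T Q x)`, see `ker_stable` in `Helper90/GSem/WD.lean`. -/
theorem wtPart_stable (T : V →ₗ[ℚ_[p]] V) (P : ℤ → ℚ[X]) (i : ℤ) :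
    ∀ x ∈ wtPart T P i, T x ∈ wtPart T P i := by
  intro x hx
  have h1 : aeval T ((P i).map (algebraMap ℚ ℚ_[p])) x = 0 := hx
  change aeval T ((P i).map (algebraMap ℚ ℚ_[p])) (T x) = 0
  have h2 : aeval T ((P i).map (algebraMap ℚ ℚ_[p])) (T x) =
      T (aeval T ((P i).map (algebraMap ℚ ℚ_[p])) x) := by
    have h3 : aeval T ((P i).map (algebraMap ℚ ℚ_[p]) * X) =
      aeval T (X * (P i).map (algebraMap ℚ ℚ_[p])) := by rw [mul_comm]
    rw [map_mul, map_mul, aeval_X] at h3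
    exact LinearMap.congr_fun h3 x
  rw [h2, h1, map_zero]

/-- Chunk M6a, third statement. **Primitive parts are stable under Frobenius.**

PROOF. `wtPart_stable`, and if `(N ^ (j + 1)) x = 0` then `q ^ (j + 1) • (N ^ (j + 1)) (T x) = 0`
with `q ≠ 0`. -/
theorem prim_stable {q : ℕ} (hq : 1 < q) {w : ℤ} {T N : V →ₗ[ℚ_[p]] V} {P : ℤ → ℚ[X]}
    {S : Finset ℤ} (h : IsWM q w T N P S) (j : ℕ) :
    ∀ x ∈ primPart T N P w j, T x ∈ primPart T N P w j := by
  rintro x ⟨hx1, hx2⟩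
  refine ⟨wtPart_stable T P _ x hx1, ?_⟩
  have h1 : (N ^ (j + 1)) x = 0 := hx2
  have h2 := wm_comm h (j + 1) x
  rw [h1, map_zero] at h2
  have hq0 : ((q : ℚ_[p]) ^ (j + 1)) ≠ 0 := pow_ne_zero _ (by
    exact_mod_cast (show q ≠ 0 by omega))
  exact (smul_eq_zero.1 h2.symm).resolve_left hq0

end Pool.Agent.H99L
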