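import Mathlib
import Pool.Agent.Lib.H99L.Defs
import Pool.Agent.Lib.H99.NF.Mono2

/-!
# The primitive decomposition
-/

namespace Pool.Agent.H99L

open NumberField Module Polynomial Pool.Agent.GSem Pool.Agent.NF

variable {p : ℕ} [hp : Fact p.Prime] {V : Type*} [AddCommGroup V] [Module ℚ_[p] V]
  [FiniteDimensional ℚ_[p] V]

/-- Chunk M6b (size M). **The part of weight `w + j` is the direct sum of the primitive part and of
the image of the part of weight `w + j + 2`.**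

PROOF. Put `U_i = U ⊓ wtPart T P i`. `N` maps `U_i` to `U_(i-2)` (`monodromy_maps`, `hUN`).
`⊇`: clear (`primPart ≤ wtPart T P (w + j)`, `w + (j + 2) - 2 = w + j`). `⊆`: let `y ∈ U_(w+j)`.
Then `N ^ (j + 1) y ∈ U_(w-j-2)`, which is the image of `U_(w+j+2)` under `N ^ (j + 2)` (`hbij (j+2)`),
so `N ^ (j + 1) y = N ^ (j + 1) (N z)`, `z ∈ U_(w+j+2)`, and `y - N z ∈ U_(w+j)` is killed by
`N ^ (j + 1)`. Disjoint: if `z ∈ U_(w+j+2)` and `N ^ (j + 1) (N z) = 0` then `N ^ (j + 2) z = 0`, so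
`z = 0` by injectivity (`hbij (j + 2)`, `N ^ (j + 2) 0 = 0`). Use `pow_maps`, `pow_stable`. -/
theorem prim_decomp {q : ℕ} (hq : 1 < q) {w : ℤ} {T N : V →ₗ[ℚ_[p]] V} {P : ℤ → ℚ[X]}
    {S : Finset ℤ} (h : IsWM q w T N P S) (U : Submodule ℚ_[p] V) (hUN : ∀ x ∈ U, N x ∈ U)
    (hbij : ∀ j : ℕ, Set.BijOn (N ^ j) ((U ⊓ wtPart T P (w + j) : Submodule ℚ_[p] V) : Set V)
      ((U ⊓ wtPart T P (w - j) : Submodule ℚ_[p] V) : Set V)) (j : ℕ) :
    U ⊓ wtPart T P (w + j) = (U ⊓ primPart T N P w j) ⊔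
        (U ⊓ wtPart T P (w + ((j + 2 : ℕ) : ℤ))).map N ∧
      Disjoint (U ⊓ primPart T N P w j) ((U ⊓ wtPart T P (w + ((j + 2 : ℕ) : ℤ))).map N) := by
  obtain ⟨_, hTN, hP, hT, _⟩ := h
  have hmaps := monodromy_maps T N hq P hP S hT hTN
  have hN : ∀ z ∈ U ⊓ wtPart T P (w + ((j + 2 : ℕ) : ℤ)), N z ∈ U ⊓ wtPart T P (w + j) := by
    rintro z ⟨hz1, hz2⟩
    refine ⟨hUN z hz1, ?_⟩
    have h1 := hmaps _ z hz2
    have h2 : w + ((j + 2 : ℕ) : ℤ) - 2 = w + j := by push_cast; ring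
    rw [h2] at h1
    exact h1
  constructor
  · apply le_antisymm
    · rintro y ⟨hy1, hy2⟩
      have h1 : (N ^ (j + 1)) y ∈ U ⊓ wtPart T P (w - ((j + 2 : ℕ) : ℤ)) := by
        refine ⟨pow_stable hUN _ y hy1, ?_⟩
        have h2 := pow_maps hmaps (j + 1) _ y hy2
        have h3 : w + (j : ℤ) - 2 * ((j + 1 : ℕ) : ℤ) = w - ((j + 2 : ℕ) : ℤ) := by
          push_cast; ring
        rw [h3] at h2
        exact h2
      obtain ⟨z, hz, hzy⟩ := (hbij (j + 2)).surjOn h1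
      have hzy' : (N ^ (j + 1)) (N z) = (N ^ (j + 1)) y := by
        rw [← hzy, pow_succ N (j + 1), Module.End.mul_apply]
      rw [Submodule.mem_sup]
      refine ⟨y - N z, ?_, N z, Submodule.mem_map_of_mem hz, by abel⟩
      have h4 : y - N z ∈ U ⊓ wtPart T P (w + j) :=
        Submodule.sub_mem _ ⟨hy1, hy2⟩ (hN z hz)
      refine ⟨h4.1, h4.2, ?_⟩
      change (N ^ (j + 1)) (y - N z) = 0
      rw [map_sub, hzy', sub_self]
    · apply sup_le
      · rintro y ⟨hy1, hy2⟩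
        exact ⟨hy1, hy2.1⟩
      · rintro _ ⟨z, hz, rfl⟩
        exact hN z hz
  · rw [disjoint_iff_inf_le]
    rintro x ⟨⟨hx1, hx2⟩, ⟨z, hz, rfl⟩⟩
    have h1 : (N ^ (j + 1)) (N z) = 0 := hx2.2
    have h2 : (N ^ (j + 2)) z = (N ^ (j + 2)) 0 := by
      rw [map_zero, ← h1, pow_succ N (j + 1), Module.End.mul_apply]
    have h3 := (hbij (j + 2)).injOn hz (Submodule.zero_mem _) h2
    rw [h3, map_zero]
    exact Submodule.zero_mem _

end Pool.Agent.H99L
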