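import Mathlib
import Pool.Agent.Lib.H99L.M6b

/-!
# The form on the primitive parts
-/

namespace Pool.Agent.H99L

open NumberField Module Polynomial Pool.Agent.GSem Pool.Agent.NF

variable {p : ℕ} [hp : Fact p.Prime] {V : Type*} [AddCommGroup V] [Module ℚ_[p] V]
  [FiniteDimensional ℚ_[p] V]

omit [FiniteDimensional ℚ_[p] V] in
/-- powers of `N` and the form -/
theorem m6c_pow (B : V →ₗ[ℚ_[p]] V →ₗ[ℚ_[p]] ℚ_[p]) {N : V →ₗ[ℚ_[p]] V}
    (hBN : ∀ x y, B (N x) y = - B x (N y)) (j : ℕ) (x y : V) :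
    B x ((N ^ j) y) = (-1) ^ j * B ((N ^ j) x) y := by
  induction j generalizing x with
  | zero => simp
  | succ j ih =>
    have h1 : (N ^ (j + 1)) y = N ((N ^ j) y) := by
      rw [pow_succ', Module.End.mul_apply]
    have h2 : (N ^ (j + 1)) x = (N ^ j) (N x) := by
      rw [pow_succ, Module.End.mul_apply]
    have h3 := hBN x ((N ^ j) y)
    rw [ih] at h3
    rw [h1, h2, pow_succ]
    linear_combination h3

/-- Chunk M6c (size M). **Nondegeneracy of `B x (N ^ j y)` on the primitive part.**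

PROOF. By `hB` it suffices that `B x v = 0` for all `v`. `V` is spanned by the `wtPart T P i`
(`le_iSup_wtPart T hq P hP S ⊤`, see `htotal` in `isotropic_eq_bot_of_sum`, `H99/NF/Mono1.lean`; use
`Submodule.iSup_induction'`). For `v ∈ wtPart T P i` with `i ≠ w - j`: `pair_orth`
(`(w + j) + i ≠ 2 * w`). For `i = w - j`: `v = N ^ j y` with `y ∈ wtPart T P (w + j)` (`h`, bijection),
and `y = y₁ + N z` with `y₁` primitive, `z ∈ wtPart T P (w + j + 2)` (`prim_decomp` for `U = ⊤`).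
`B x (N ^ j y₁) = 0` by `hx`, and `B x (N ^ j (N z)) = B x (N ^ (j + 1) z) = ± B (N ^ (j + 1) x) z = 0`
(induction from `hBN`). -/
theorem prim_nondeg {q : ℕ} (hq : 1 < q) {w : ℤ} {T N : V →ₗ[ℚ_[p]] V} {P : ℤ → ℚ[X]}
    {S : Finset ℤ} (h : IsWM q w T N P S) (B : V →ₗ[ℚ_[p]] V →ₗ[ℚ_[p]] ℚ_[p])
    (hB : ∀ x, (∀ y, B x y = 0) → x = 0)
    (hBT : ∀ x y, B (T x) (T y) = (q : ℚ_[p]) ^ (-w) * B x y)
    (hBN : ∀ x y, B (N x) y = - B x (N y)) (j : ℕ) (x : V) (hxj : x ∈ primPart T N P w j)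
    (hx : ∀ y ∈ primPart T N P w j, B x ((N ^ j) y) = 0) : x = 0 := by
  have hwm := h
  obtain ⟨_, hTN, hP, hT, hbij⟩ := h
  apply hB
  intro v
  have htotal : (⊤ : Submodule ℚ_[p] V) ≤ ⨆ i, wtPart T P i := by
    have h1 := le_iSup_wtPart T hq P hP S ⊤ (fun _ _ => trivial) (fun x _ => by rw [hT]; rfl)
    exact h1.trans (iSup_mono fun i => inf_le_right)
  have h1 := htotal (show v ∈ (⊤ : Submodule ℚ_[p] V) from trivial)
  induction h1 using Submodule.iSup_induction' with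
  | mem i v hv =>
    by_cases hi : i = w - j
    · subst hi
      obtain ⟨y, hy, hyv⟩ := (hbij j).surjOn hv
      have hdec := (prim_decomp hq hwm ⊤ (fun _ _ => trivial) (fun j => by
        rw [top_inf_eq, top_inf_eq]
        exact hbij j) j).1
      rw [top_inf_eq, top_inf_eq, top_inf_eq] at hdec
      have hy' : y ∈ primPart T N P w j ⊔ (wtPart T P (w + ((j + 2 : ℕ) : ℤ))).map N := by
        rw [← hdec]
        exact hy
      rw [Submodule.mem_sup] at hy'
      obtain ⟨y₁, hy₁, y₂, ⟨z, hz, hzy⟩, hyy⟩ := hy'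
      rw [← hyv, ← hyy, map_add, map_add, hx y₁ hy₁, zero_add, ← hzy]
      have h2 : (N ^ j) (N z) = (N ^ (j + 1)) z := by rw [pow_succ, Module.End.mul_apply]
      have h3 : (N ^ (j + 1)) x = 0 := hxj.2
      rw [h2, m6c_pow B hBN, h3, map_zero, LinearMap.zero_apply, mul_zero]
    · refine pair_orth B T hq w hBT (i := w + j) (j := i) ?_ (hP _) (hP _) x v hxj.1 hv
      intro h2
      apply hi
      linarith
  | zero => rw [map_zero]
  | add v v' _ _ hv hv' => rw [map_add, hv, hv', add_zero]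

end Pool.Agent.H99L
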