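import Mathlib
import Pool.Agent.Lib.H99L.M6a
import Pool.Agent.Lib.H99L.M6c
import Pool.Agent.Lib.H99L.E2
import Pool.Agent.Lib.H99L.E6

/-!
# Eigenvalues on the primitive part of an isotropic subspace
-/

namespace Pool.Agent.H99L

open NumberField Module Polynomial Pool.Agent.GSem Pool.Agent.NF

variable {p : ℕ} [hp : Fact p.Prime] {V : Type*} [AddCommGroup V] [Module ℚ_[p] V]
  [FiniteDimensional ℚ_[p] V]

/-- Chunk M6 (size M). **Eigenvalues on the primitive part of a stable isotropic subspace.**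

PROOF. Let `Q = primPart T N P w j`, stable by `prim_stable`. On `Q` take the operator
`T.restrict _` and the form `B' x y = B x (N ^ j y)` (compose `B` with `Q.subtype` on the left and
with `(N ^ j) ∘ₗ Q.subtype` on the right: `B.compl₁₂ Q.subtype ((N ^ j) ∘ₗ Q.subtype)`). Then
`B' (T x) (T y) = B (T x) (N ^ j (T y)) = q ^ (-j) * B (T x) (T (N ^ j y)) =
q ^ (-j) * q ^ (-w) * B' x y` (`wm_comm`), `B'` is nondegenerate on the left (`prim_nondeg`), and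
`(U ⊓ Q).comap Q.subtype` is stable and isotropic for `B'` (`N ^ j y ∈ U` by `pow_stable`). Apply
`isoIn_eig` (E2) with `lam = q ^ (-(w + j))`, and rewrite with `eig_comap` (E6) and
`eig_of_stable`. -/
theorem prim_isoIn {q : ℕ} (hq : 1 < q) {w : ℤ} {T N : V →ₗ[ℚ_[p]] V} {P : ℤ → ℚ[X]}
    {S : Finset ℤ} (h : IsWM q w T N P S) (B : V →ₗ[ℚ_[p]] V →ₗ[ℚ_[p]] ℚ_[p])
    (hB : ∀ x, (∀ y, B x y = 0) → x = 0)
    (hBT : ∀ x y, B (T x) (T y) = (q : ℚ_[p]) ^ (-w) * B x y)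
    (hBN : ∀ x y, B (N x) y = - B x (N y)) (U : Submodule ℚ_[p] V)
    (hUT : ∀ x ∈ U, T x ∈ U) (hUN : ∀ x ∈ U, N x ∈ U) (hiso : ∀ x ∈ U, ∀ y ∈ U, B x y = 0)
    (j : ℕ) :
    IsoIn (algebraMap ℚ_[p] _ ((q : ℚ_[p]) ^ (-(w + j) : ℤ)))
      (eig T (U ⊓ primPart T N P w j)) (eig T (primPart T N P w j)) := by
  have hq0 : (q : ℚ_[p]) ≠ 0 := by exact_mod_cast (show q ≠ 0 by omega)
  have hst := prim_stable hq h j
  set Q := primPart T N P w j with hQ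
  have hUQ : ∀ x ∈ U ⊓ Q, T x ∈ U ⊓ Q := fun x hx => ⟨hUT x hx.1, hst x hx.2⟩
  set B' : Q →ₗ[ℚ_[p]] Q →ₗ[ℚ_[p]] ℚ_[p] := B.compl₁₂ Q.subtype ((N ^ j) ∘ₗ Q.subtype) with hB'
  have hB'a : ∀ x y : Q, B' x y = B (x : V) ((N ^ j) (y : V)) := fun x y => rfl
  have h1 := isoIn_eig (T.restrict hst) B' ((q : ℚ_[p]) ^ (-(w + j) : ℤ))
    (zpow_ne_zero _ hq0) ?_ ?_ ((U ⊓ Q).comap Q.subtype) ?_ ?_
  · rw [eig_comap T Q (U ⊓ Q) hst hUQ inf_le_right] at h1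
    rw [eig_of_stable T Q hst]
    exact h1
  · intro x hx
    apply Subtype.ext
    refine prim_nondeg hq h B hB hBT hBN j x x.2 ?_
    intro y hy
    exact hx ⟨y, hy⟩
  · intro x y
    rw [hB'a, hB'a]
    have h2 := wm_comm h j (y : V)
    have h3 := hBT (x : V) ((N ^ j) (y : V))
    rw [h2, map_smul, smul_eq_mul] at h3
    change B (T (x : V)) ((N ^ j) (T (y : V))) = _
    have h4 : (q : ℚ_[p]) ^ (-(w + j) : ℤ) * (q : ℚ_[p]) ^ j = (q : ℚ_[p]) ^ (-w) := by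
      rw [← zpow_natCast, ← zpow_add₀ hq0]
      congr 1
      ring
    have h5 : (q : ℚ_[p]) ^ j ≠ 0 := pow_ne_zero _ hq0
    rw [← h4] at h3
    apply mul_left_cancel₀ h5
    rw [h3]
    ring
  · intro x hx
    exact ⟨hUT _ hx.1, hst _ x.2⟩
  · intro x hx y hy
    rw [hB'a]
    exact hiso _ hx.1 _ (pow_stable hUN j _ hy.1)

end Pool.Agent.H99L
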