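import Mathlib

/-!
# Blocks and weights: combinatorics
-/

namespace Pool.Agent.H99L

lemma m7a_comb {A : Type*} [AddCommMonoid A] (K : ℕ) (F : ℕ → ℕ → A) (hF : ∀ u J, K ≤ J → F u J = 0) :
    (∑ p ∈ Finset.range (K + 1) ×ˢ Finset.range K, F p.2 (p.1 + 2 * p.2)) +
      (∑ p ∈ Finset.range K ×ˢ Finset.range K, F (p.1 + 1 + p.2) (p.1 + 1 + 2 * p.2)) =
      ∑ q ∈ (Finset.range K).sigma (fun J => Finset.range (J + 1)), F q.2 q.1 := by
  have h1 : (∑ p ∈ Finset.range (K + 1) ×ˢ Finset.range K, F p.2 (p.1 + 2 * p.2)) +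
      (∑ p ∈ Finset.range K ×ˢ Finset.range K, F (p.1 + 1 + p.2) (p.1 + 1 + 2 * p.2)) =
      ∑ z ∈ (Finset.range (K + 1) ×ˢ Finset.range K).disjSum (Finset.range K ×ˢ Finset.range K),
        Sum.elim (fun p : ℕ × ℕ => F p.2 (p.1 + 2 * p.2))
          (fun p : ℕ × ℕ => F (p.1 + 1 + p.2) (p.1 + 1 + 2 * p.2)) z := by
    rw [Finset.sum_disjSum]
    rfl
  rw [h1]
  let φ : (ℕ × ℕ) ⊕ (ℕ × ℕ) → (Σ _ : ℕ, ℕ) := Sum.elim (fun p => ⟨p.1 + 2 * p.2, p.2⟩)
    (fun p => ⟨p.1 + 1 + 2 * p.2, p.1 + 1 + p.2⟩)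
  refine Finset.sum_bij_ne_zero (fun z _ _ => φ z) ?_ ?_ ?_ ?_
  · rintro (⟨j, m⟩ | ⟨j, m⟩) hz hne
    · have h2 : j + 2 * m < K := by
        by_contra h3
        exact hne (hF _ _ (not_lt.1 h3))
      simp only [φ, Sum.elim_inl, Finset.mem_sigma, Finset.mem_range]
      exact ⟨h2, by omega⟩
    · have h2 : j + 1 + 2 * m < K := by
        by_contra h3
        exact hne (hF _ _ (not_lt.1 h3))
      simp only [φ, Sum.elim_inr, Finset.mem_sigma, Finset.mem_range]
      exact ⟨h2, by omega⟩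
  · rintro (⟨j, m⟩ | ⟨j, m⟩) _ _ (⟨j', m'⟩ | ⟨j', m'⟩) _ _ heq
    · simp only [φ, Sum.elim_inl, Sigma.mk.injEq, heq_eq_eq] at heq
      obtain ⟨h2, h3⟩ := heq
      have h4 : j = j' := by omega
      rw [h4, h3]
    · exfalso
      simp only [φ, Sum.elim_inl, Sum.elim_inr, Sigma.mk.injEq, heq_eq_eq] at heq
      obtain ⟨h2, h3⟩ := heq
      omega
    · exfalso
      simp only [φ, Sum.elim_inl, Sum.elim_inr, Sigma.mk.injEq, heq_eq_eq] at heq
      obtain ⟨h2, h3⟩ := heq
      omega
    · simp only [φ, Sum.elim_inr, Sigma.mk.injEq, heq_eq_eq] at heq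
      obtain ⟨h2, h3⟩ := heq
      have h4 : m = m' := by omega
      have h5 : j = j' := by omega
      rw [h4, h5]
  · rintro ⟨J, u⟩ hq hne
    simp only [Finset.mem_sigma, Finset.mem_range] at hq
    obtain ⟨h2, h3⟩ := hq
    by_cases h4 : 2 * u ≤ J
    · have e : J - 2 * u + 2 * u = J := by omega
      refine ⟨Sum.inl (J - 2 * u, u), ?_, ?_, ?_⟩
      · simp only [Finset.inl_mem_disjSum, Finset.mem_product, Finset.mem_range]
        constructor <;> omega
      · simp only [Sum.elim_inl]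
        rw [e]
        exact hne
      · simp only [φ, Sum.elim_inl]
        rw [e]
    · have e1 : 2 * u - J - 1 + 1 + (J - u) = u := by omega
      have e2 : 2 * u - J - 1 + 1 + 2 * (J - u) = J := by omega
      refine ⟨Sum.inr (2 * u - J - 1, J - u), ?_, ?_, ?_⟩
      · simp only [Finset.inr_mem_disjSum, Finset.mem_product, Finset.mem_range]
        constructor <;> omega
      · simp only [Sum.elim_inr]
        rw [e1, e2]
        exact hne
      · simp only [φ, Sum.elim_inr]
        rw [e1, e2]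
  · rintro (⟨j, m⟩ | ⟨j, m⟩) _ _
    · rfl
    · rfl

/-- Chunk M7a (size M). **Weights and blocks.** Here `c j` are the primitive eigenvalues of weight
`w + j` and `a j` the eigenvalues of weight `w + j`.

PROOF. (1) For all `j`, `a j = ∑ m < K, s^[m] (c (j + 2 * m))`: for `K ≤ j` both sides are `0`
(`haK`, `hcK`, `s` additive: `s^[m] 0 = 0`); otherwise downward induction on `j` from
`a j = c j + s (a (j + 2))` (the term `m = K` vanishes since `K ≤ j + 2 * K`; `s` additive).
(2) Both sides of the claim are sums of terms `s^[u] (c J)` over sets of pairs `(u, J)` with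
`u, J < K`, all other terms being `0` by `hcK`: on the left `a 0` and the `a (j + 1)` give the pairs
`(m, j + 2 * m)`, i.e. all `(u, J)` with `2 * u ≤ J`, and the `s^[j+1] (a (j + 1))` give the pairs
`(j + 1 + m, j + 1 + 2 * m)`, i.e. all `(u, J)` with `u ≤ J < 2 * u`; together `u ≤ J`, which is the
right-hand side. (`Finset.sum_sigma'`, `Finset.sum_nbij'`, splitting by `2 * u ≤ J`.)
Another way: induction on `K`, proving the statement for the pair of sequences with
`c K` added: `a j` changes by `s^[(K - j) / 2] (c K)` for `j ≤ K`, `j ≡ K mod 2`. -/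
theorem sum_blocks {A : Type*} [AddCommMonoid A] (s : A →+ A) (K : ℕ) (a c : ℕ → A)
    (hac : ∀ j, a j = c j + s (a (j + 2))) (haK : ∀ j, K ≤ j → a j = 0)
    (hcK : ∀ j, K ≤ j → c j = 0) :
    a 0 + ∑ j ∈ Finset.range K, (a (j + 1) + s^[j + 1] (a (j + 1))) =
      ∑ j ∈ Finset.range K, ∑ m ∈ Finset.range (j + 1), s^[m] (c j) := by
  have hs0 : ∀ m, s^[m] 0 = 0 := fun m => iterate_map_zero s m
  have hsadd : ∀ m x y, s^[m] (x + y) = s^[m] x + s^[m] y := fun m x y => iterate_map_add s m x y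
  have hssum : ∀ (m : ℕ) (t : Finset ℕ) (f : ℕ → A), s^[m] (∑ i ∈ t, f i) = ∑ i ∈ t, s^[m] (f i) := by
    intro m t f
    induction t using Finset.induction_on with
    | empty => simp [hs0]
    | insert i t hi ih => rw [Finset.sum_insert hi, Finset.sum_insert hi, hsadd, ih]
  -- partial unfolding
  have hpart : ∀ n j, a j = (∑ m ∈ Finset.range n, s^[m] (c (j + 2 * m))) + s^[n] (a (j + 2 * n)) := by
    intro n
    induction n with
    | zero => intro j; simp
    | succ n ih =>
      intro j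
      rw [ih j, Finset.sum_range_succ, add_assoc]
      congr 1
      rw [hac (j + 2 * n), hsadd]
      congr 1
  have ha : ∀ j, a j = ∑ m ∈ Finset.range K, s^[m] (c (j + 2 * m)) := by
    intro j
    rw [hpart K j, haK (j + 2 * K) (by omega), hs0, add_zero]
  have hcomb := m7a_comb K (fun u J => s^[u] (c J)) (by
    intro u J hJ
    show s^[u] (c J) = 0
    rw [hcK J hJ, hs0])
  rw [Finset.sum_sigma] at hcomb
  rw [← hcomb, Finset.sum_product, Finset.sum_product, Finset.sum_range_succ', Finset.sum_add_distrib]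
  have e1 : ∀ j, (∑ m ∈ Finset.range K, s^[m] (c (j + 2 * m))) = a j := fun j => (ha j).symm
  have e2 : ∀ j, (∑ m ∈ Finset.range K, s^[j + 1 + m] (c (j + 1 + 2 * m))) = s^[j + 1] (a (j + 1)) := by
    intro j
    rw [ha (j + 1), hssum]
    apply Finset.sum_congr rfl
    intro m _
    rw [Function.iterate_add_apply]
  simp only [e1, e2]
  rw [← add_assoc, add_comm (a 0)]

end Pool.Agent.H99L
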