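import Mathlib
import Pool.Agent.Lib.H99L.M6a
import Pool.Agent.Lib.H99L.M6b
import Pool.Agent.Lib.H99L.E3
import Pool.Agent.Lib.H99L.E4

/-!
# Eigenvalues of weight `w + j` and `w - j`
-/

namespace Pool.Agent.H99L

open NumberField Module Polynomial Pool.Agent.GSem Pool.Agent.NF

variable {p : ℕ} [hp : Fact p.Prime] {V : Type*} [AddCommGroup V] [Module ℚ_[p] V]
  [FiniteDimensional ℚ_[p] V]

/-- Chunk M7b (size M), first statement. **Eigenvalues of weight `w + j`.**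

PROOF. `prim_decomp` and `eig_sup` (E3), `eig_map` (E4) with `c = q` (`N` is injective on
`U ⊓ wtPart T P (w + (j + 2))` because `N ^ (j + 2)` is). Stability under `T`: `hUT`,
`prim_stable`, `wtPart_stable`. -/
theorem eig_wt_add {q : ℕ} (hq : 1 < q) {w : ℤ} {T N : V →ₗ[ℚ_[p]] V} {P : ℤ → ℚ[X]}
    {S : Finset ℤ} (h : IsWM q w T N P S) (U : Submodule ℚ_[p] V) (hUT : ∀ x ∈ U, T x ∈ U)
    (hUN : ∀ x ∈ U, N x ∈ U)
    (hbij : ∀ j : ℕ, Set.BijOn (N ^ j) ((U ⊓ wtPart T P (w + j) : Submodule ℚ_[p] V) : Set V)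
      ((U ⊓ wtPart T P (w - j) : Submodule ℚ_[p] V) : Set V)) (j : ℕ) :
    eig T (U ⊓ wtPart T P (w + j)) = eig T (U ⊓ primPart T N P w j) +
      (eig T (U ⊓ wtPart T P (w + ((j + 2 : ℕ) : ℤ)))).map
        (fun z => ((q : ℕ) : AlgebraicClosure ℚ_[p]) * z) := by
  have hq0 : (q : ℚ_[p]) ≠ 0 := by exact_mod_cast (show q ≠ 0 by omega)
  obtain ⟨h1, h2⟩ := prim_decomp hq h U hUN hbij j
  have hA : ∀ x ∈ U ⊓ wtPart T P (w + ((j + 2 : ℕ) : ℤ)),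
      T x ∈ U ⊓ wtPart T P (w + ((j + 2 : ℕ) : ℤ)) :=
    fun x hx => ⟨hUT x hx.1, wtPart_stable T P _ x hx.2⟩
  have hinj : ∀ x ∈ U ⊓ wtPart T P (w + ((j + 2 : ℕ) : ℤ)), N x = 0 → x = 0 := by
    intro x hx hx0
    refine (hbij (j + 2)).injOn hx (Submodule.zero_mem _) ?_
    rw [map_zero, pow_succ N (j + 1), Module.End.mul_apply, hx0, map_zero]
  rw [h1, eig_sup T _ _ ?_ ?_ h2]
  · congr 1
    rw [eig_map T N (q : ℚ_[p]) hq0 _ hA (fun x _ => h.2.1 x) hinj, map_natCast]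
  · intro x hx
    exact ⟨hUT x hx.1, prim_stable hq h j x hx.2⟩
  · rintro _ ⟨x, hx, rfl⟩
    rw [h.2.1]
    exact Submodule.smul_mem _ _ (Submodule.mem_map_of_mem (hA x hx))

/-- Chunk M7b, second statement. **Eigenvalues of weight `w - j`.**

PROOF. `U ⊓ wtPart T P (w - j)` is the image of `U ⊓ wtPart T P (w + j)` under `N ^ j` (`hbij j`), on
which `N ^ j` is injective, and `T (N ^ j y) = q ^ j • N ^ j (T y)` (`wm_comm`): `eig_map` (E4). -/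
theorem eig_wt_sub {q : ℕ} (hq : 1 < q) {w : ℤ} {T N : V →ₗ[ℚ_[p]] V} {P : ℤ → ℚ[X]}
    {S : Finset ℤ} (h : IsWM q w T N P S) (U : Submodule ℚ_[p] V) (hUT : ∀ x ∈ U, T x ∈ U)
    (hbij : ∀ j : ℕ, Set.BijOn (N ^ j) ((U ⊓ wtPart T P (w + j) : Submodule ℚ_[p] V) : Set V)
      ((U ⊓ wtPart T P (w - j) : Submodule ℚ_[p] V) : Set V)) (j : ℕ) :
    eig T (U ⊓ wtPart T P (w - j)) = (eig T (U ⊓ wtPart T P (w + j))).map
        (fun z => ((q : ℕ) : AlgebraicClosure ℚ_[p]) ^ j * z) := by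
  have hq0 : (q : ℚ_[p]) ≠ 0 := by exact_mod_cast (show q ≠ 0 by omega)
  have hA : ∀ x ∈ U ⊓ wtPart T P (w + j), T x ∈ U ⊓ wtPart T P (w + j) :=
    fun x hx => ⟨hUT x hx.1, wtPart_stable T P _ x hx.2⟩
  have h1 : U ⊓ wtPart T P (w - j) = (U ⊓ wtPart T P (w + j)).map (N ^ j) := by
    apply SetLike.coe_injective
    rw [Submodule.map_coe]
    exact (hbij j).image_eq.symm
  have hinj : ∀ x ∈ U ⊓ wtPart T P (w + j), (N ^ j) x = 0 → x = 0 := by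
    intro x hx hx0
    refine (hbij j).injOn hx (Submodule.zero_mem _) ?_
    rw [map_zero, hx0]
  rw [h1, eig_map T (N ^ j) ((q : ℚ_[p]) ^ j) (pow_ne_zero _ hq0) _ hA
    (fun x _ => wm_comm h j x) hinj, map_pow, map_natCast]

end Pool.Agent.H99L
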