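import Mathlib
import Pool.Agent.Lib.H99L.M7a
import Pool.Agent.Lib.H99L.M7b
import Pool.Agent.Lib.H99L.E5

/-!
# The eigenvalues in terms of the primitive eigenvalues
-/

namespace Pool.Agent.H99L

open NumberField Module Polynomial Pool.Agent.GSem Pool.Agent.NF

variable {p : ℕ} [hp : Fact p.Prime] {V : Type*} [AddCommGroup V] [Module ℚ_[p] V]
  [FiniteDimensional ℚ_[p] V]

theorem m7_Icc {A : Type*} [AddCommMonoid A] (u : ℤ → A) (w : ℤ) (K : ℕ) :
    ∑ i ∈ Finset.Icc (w - K) (w + K), u i =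
      u w + ∑ j ∈ Finset.range K, (u (w + ((j + 1 : ℕ) : ℤ)) + u (w - ((j + 1 : ℕ) : ℤ))) := by
  induction K with
  | zero => simp
  | succ K ih =>
    have h1 : Finset.Icc (w - (K + 1 : ℕ)) (w + (K + 1 : ℕ)) =
        insert (w + (K + 1 : ℕ)) (insert (w - (K + 1 : ℕ)) (Finset.Icc (w - K) (w + K))) := by
      ext i
      simp only [Finset.mem_Icc, Finset.mem_insert]
      push_cast
      omega
    rw [h1, Finset.sum_insert, Finset.sum_insert, ih, Finset.sum_range_succ _ K]
    · abel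
    · rw [Finset.mem_Icc]; push_cast; omega
    · rw [Finset.mem_insert, Finset.mem_Icc]; push_cast; omega

theorem m7_eig_bot {K V : Type*} [Field K] [AddCommGroup V] [Module K V] [FiniteDimensional K V]
    (T : V →ₗ[K] V) {U : Submodule K V} (hU : U = ⊥) : eig T U = 0 := by
  subst hU
  have h : ∀ x ∈ (⊥ : Submodule K V), T x ∈ (⊥ : Submodule K V) := by
    intro x hx
    rw [Submodule.mem_bot] at hx
    rw [hx, map_zero]
    exact Submodule.zero_mem _
  rw [← Multiset.card_eq_zero, card_eig T ⊥ h, finrank_bot]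

theorem m7_nil {K V : Type*} [Field K] [AddCommGroup V] [Module K V] [FiniteDimensional K V]
    {N : V →ₗ[K] V} (hN : IsNilpotent N) {j : ℕ} (hj : finrank K V ≤ j) : N ^ j = 0 := by
  have h1 : LinearMap.charpoly N = X ^ finrank K V :=
    (LinearMap.isNilpotent_iff_charpoly N).1 hN
  have h2 := LinearMap.aeval_self_charpoly N
  rw [h1, map_pow, aeval_X] at h2
  obtain ⟨d, rfl⟩ := Nat.exists_eq_add_of_le hj
  rw [pow_add, h2, zero_mul]

theorem m7_iter {A : Type*} [Field A] (q : A) (s : Multiset A →+ Multiset A)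
    (hs : ∀ M, s M = M.map (fun z => q * z)) (m : ℕ) (M : Multiset A) :
    s^[m] M = M.map (fun z => q ^ m * z) := by
  induction m with
  | zero => simp
  | succ m ih =>
    rw [Function.iterate_succ_apply', ih, hs, Multiset.map_map]
    refine Multiset.map_congr rfl fun z _ => ?_
    rw [Function.comp_apply, pow_succ']
    ring

/-- Chunk M7 (size M/L). **The eigenvalues of Frobenius on a pure stable subspace.**

PROOF. Put `n = finrank V`. `N ^ n = 0` (nilpotent), so for `n ≤ j` the injectivity of `N ^ j` on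
`wtPart T P (w + j)` (`h`) gives `wtPart T P (w + j) = ⊥`, hence also `wtPart T P (w - j) = ⊥`
(surjectivity). By `eig_weights` (E5), `eig T U = ∑ i ∈ S, eig T (U ⊓ wtPart T P i)`. Since
`wtPart T P i = ⊥` for `i ∉ S` (`wtPart_eq_bot`) and for `|i - w| ≥ n`, and `eig T ⊥ = 0`
(`card_eig`), the sum may be taken over `Finset.Icc (w - n) (w + n)` instead, i.e.
`eig T U = a 0 + ∑ j < n, (a (j + 1) + a' (j + 1))` with `a j = eig T (U ⊓ wtPart T P (w + j))`,
`a' j = eig T (U ⊓ wtPart T P (w - j))` (compare `sum_Icc_symm` in `Helper90/GSem/WD2.lean`). Let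
`s : Multiset _ →+ Multiset _` be `Multiset.map (q * ·)` (`Multiset.mapAddMonoidHom`). By `eig_wt_sub`
`a' j = s^[j] (a j)` (iterate: `Multiset.map_map`), and by `eig_wt_add`
`a j = c j + s (a (j + 2))`, `c j = eig T (U ⊓ primPart T N P w j)`. Conclude by `sum_blocks` with
`K = n` (for `n ≤ j`, `a j = 0` and `c j = 0`) and `s^[m] (c j) = (c j).map (q ^ m * ·)`. -/
theorem eig_blocks {q : ℕ} (hq : 1 < q) {w : ℤ} {T N : V →ₗ[ℚ_[p]] V} {P : ℤ → ℚ[X]}
    {S : Finset ℤ} (h : IsWM q w T N P S) (U : Submodule ℚ_[p] V) (hUT : ∀ x ∈ U, T x ∈ U)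
    (hUN : ∀ x ∈ U, N x ∈ U)
    (hbij : ∀ j : ℕ, Set.BijOn (N ^ j) ((U ⊓ wtPart T P (w + j) : Submodule ℚ_[p] V) : Set V)
      ((U ⊓ wtPart T P (w - j) : Submodule ℚ_[p] V) : Set V)) :
    eig T U = ∑ j ∈ Finset.range (finrank ℚ_[p] V), ∑ m ∈ Finset.range (j + 1),
      (eig T (U ⊓ primPart T N P w j)).map
        (fun z => ((q : ℕ) : AlgebraicClosure ℚ_[p]) ^ m * z) := by
  set n := finrank ℚ_[p] V with hn
  obtain ⟨K, hSK, hnK⟩ : ∃ K : ℕ, S ⊆ Finset.Icc (w - K) (w + K) ∧ n ≤ K := by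
    refine ⟨n + ∑ i ∈ S, (i - w).natAbs, ?_, by omega⟩
    intro i hi
    have h1 : (i - w).natAbs ≤ ∑ i ∈ S, (i - w).natAbs :=
      Finset.single_le_sum (f := fun i => (i - w).natAbs) (fun _ _ => Nat.zero_le _) hi
    rw [Finset.mem_Icc]
    omega
  set a : ℕ → Multiset (AlgebraicClosure ℚ_[p]) := fun j => eig T (U ⊓ wtPart T P (w + j)) with ha
  set c : ℕ → Multiset (AlgebraicClosure ℚ_[p]) := fun j => eig T (U ⊓ primPart T N P w j) with hc
  set s : Multiset (AlgebraicClosure ℚ_[p]) →+ Multiset (AlgebraicClosure ℚ_[p]) :=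
    Multiset.mapAddMonoidHom (fun z => ((q : ℕ) : AlgebraicClosure ℚ_[p]) * z) with hs
  have hs' : ∀ M, s M = M.map (fun z => ((q : ℕ) : AlgebraicClosure ℚ_[p]) * z) := fun M => rfl
  have hiter := m7_iter ((q : ℕ) : AlgebraicClosure ℚ_[p]) s hs'
  have hbot : ∀ j, n ≤ j → wtPart T P (w + j) = ⊥ := by
    intro j hj
    rw [Submodule.eq_bot_iff]
    intro x hx
    refine (h.2.2.2.2 j).injOn hx (Submodule.zero_mem _) ?_
    rw [m7_nil h.1 hj]
    rfl
  have hac : ∀ j, a j = c j + s (a (j + 2)) := fun j => eig_wt_add hq h U hUT hUN hbij j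
  have haK : ∀ j, K ≤ j → a j = 0 := by
    intro j hj
    apply m7_eig_bot
    rw [hbot j (hnK.trans hj), inf_bot_eq]
  have hcn : ∀ j, n ≤ j → c j = 0 := by
    intro j hj
    apply m7_eig_bot
    rw [eq_bot_iff, ← hbot j hj]
    exact inf_le_right.trans inf_le_left
  have hblocks := sum_blocks s K a c hac haK (fun j hj => hcn j (hnK.trans hj))
  have hsum : eig T U = a 0 + ∑ j ∈ Finset.range K, (a (j + 1) + s^[j + 1] (a (j + 1))) := by
    rw [eig_weights T hq P h.2.2.1 S U hUT (fun x _ => by rw [h.2.2.2.1]; rfl)]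
    rw [Finset.sum_subset hSK (fun i _ hi => m7_eig_bot T (by
      rw [wtPart_eq_bot T hq P h.2.2.1 S h.2.2.2.1 i hi, inf_bot_eq]))]
    rw [m7_Icc (fun i => eig T (U ⊓ wtPart T P i)) w K]
    have e0 : a 0 = eig T (U ⊓ wtPart T P w) := by
      rw [ha]
      simp
    rw [e0]
    congr 1
    refine Finset.sum_congr rfl fun j _ => ?_
    congr 1
    rw [hiter]
    exact eig_wt_sub hq h U hUT hbij (j + 1)
  rw [hsum, hblocks]
  symm
  rw [Finset.sum_subset (Finset.range_subset_range.2 hnK)]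
  · refine Finset.sum_congr rfl fun j _ => Finset.sum_congr rfl fun m _ => ?_
    rw [hiter]
  · intro j _ hj
    rw [Finset.mem_range, not_lt] at hj
    refine Finset.sum_eq_zero fun m _ => ?_
    have h1 := hcn j hj
    rw [hc] at h1
    simp only at h1
    rw [h1, Multiset.map_zero]

end Pool.Agent.H99L
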