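import Mathlib
import Pool.Agent.Lib.H99L.M1
import Pool.Agent.Lib.H99L.M2
import Pool.Agent.Lib.H99L.M3
import Pool.Agent.Lib.H99L.M5
import Pool.Agent.Lib.H99L.M6
import Pool.Agent.Lib.H99L.M7

/-!
# The monodromy clause
-/

namespace Pool.Agent.H99L

open NumberField Module Polynomial Pool.Agent.GSem Pool.Agent.NF

variable {p : ℕ} [hp : Fact p.Prime] {Ω : Type*} [Field Ω] [CharZero Ω] [IsAlgClosed Ω]
  [IsGalois ℚ Ω]
variable {Γ : Subgroup Gal(Ω/ℚ)} {V : Type*} [AddCommGroup V] [Module ℚ_[p] V]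
  [FiniteDimensional ℚ_[p] V]

/-- Chunk M8 (size M/L). **The monodromy clause.**

PROOF. Let `l`, `φ`, `ho`, `τ`, `N`, `P`, `S` and `hyp` be as in the clause; `q i = l ^ f i > 1`,
`T i = ρ (ho.elt i)`. `W` is stable under `N i` (`stable_of_nexp (N i) _ W`, see
`HasWMAt.norm_det` in `H99/NF/Mono2.lean`) and under `T i`. Let `J` be an embedding of
`AlgebraicClosure ℚ_[p]` in `ℂ` (`exists_embedding p`). `wm_norm` (M1) gives `a i` with
`‖J (det (T i | W))‖ ^ 2 = (q i) ^ (- a i)`, `a i ≤ w * finrank W`. The product of the determinants is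
`toQ (ε φ) * chi p φ (-H)` (`hdet`; `detG ρ W hW g` is the determinant of the restriction by
definition), and `‖J (toQ (ε φ))‖ = 1` because `ε φ` has finite order (`norm_eq_one_of_pow_eq_one` or
`pow_eq_one_iff_of_nonneg`), `toQ (cyc p Ω φ) = l` (`cyc_frob`), so
`∏ i, ‖J (det (T i | W))‖ ^ 2 = l ^ (-(2 * H))`. With `∑ f i = Nat.card (Gal(Ω/ℚ) ⧸ Γ)` (`sum_orbits`)
and `hH`, `weights_eq` (M3) gives `a i = w * finrank W` for all `i`. So `wm_norm` and `wm_bijOn` (M2)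
give the first claim. The form: `B (N i x) y = - B x (N i y)` by `form_nexp` (M5) for
`ρ (τ i) = nexp (N i)`, and `B (T i x) (T i y) = (q i) ^ (-w) * B x y` since
`χ (ho.elt i) = χ φ ^ f i = l ^ f i` (`cyc_conj`, `map_pow`). The second claim is `prim_isoIn` (M6),
the third `eig_blocks` (M7). Casts: `((l ^ f i : ℕ) : ℚ_[p])`. -/
theorem monodromyClause (ρ : Representation ℚ_[p] Γ V) (w : ℤ)
    (B : V →ₗ[ℚ_[p]] V →ₗ[ℚ_[p]] ℚ_[p]) (hB : IsPol ρ w B) (W : Submodule ℚ_[p] V)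
    (hW : ∀ g, ∀ x ∈ W, ρ g x ∈ W) (hiso : ∀ x ∈ W, ∀ y ∈ W, B x y = 0)
    (ε : Gal(Ω/ℚ) →* ℤ_[p]ˣ) (hε : IsOfFinOrder ε) (H : ℤ)
    (hH : 2 * H = w * (finrank ℚ_[p] W * Nat.card (Gal(Ω/ℚ) ⧸ Γ)))
    (hdet : ∀ (g : Gal(Ω/ℚ)) (k : ℕ) (x : Fin k → Gal(Ω/ℚ)) (f : Fin k → ℕ)
      (ho : IsOrbits Γ g x f),
        ∏ i, detG ρ W hW (ho.elt i) = toQ (ε g) * chi p g (-H)) :
    MonodromyClause ρ w W := by
  intro l φ k x f ho hl hlp hφ τ N P S hyp
  have hq : ∀ i, 1 < l ^ f i := fun i => Nat.one_lt_pow (ho.pos i).ne' hl.one_lt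
  have hWN : ∀ i, ∀ y ∈ W, N i y ∈ W := fun i =>
    stable_of_nexp (N i) (hyp i).2.1 W (fun y hy => by rw [← (hyp i).1]; exact hW _ y hy)
  obtain ⟨J⟩ := exists_embedding p
  choose a ha1 ha2 ha3 using fun i => wm_norm (hq i) (hyp i).2 J W (hW (ho.elt i)) (hWN i)
  have hcyc : toQ (cyc p Ω φ) = (l : ℚ_[p]) := by
    rw [toQ_apply, cyc_frob hl hlp hφ, PadicInt.coe_natCast]
  have hnε : ‖J (algebraMap ℚ_[p] _ (toQ (ε φ)))‖ = 1 := by
    obtain ⟨M, hM, hM'⟩ := isOfFinOrder_iff_pow_eq_one.1 hε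
    have h1 : (ε φ) ^ M = 1 := by
      have h2 := DFunLike.congr_fun hM' φ
      exact h2
    have h2 : ‖J (algebraMap ℚ_[p] _ (toQ (ε φ)))‖ ^ M = 1 := by
      rw [← norm_pow, ← map_pow, ← map_pow, ← map_pow, h1, map_one, map_one, map_one, norm_one]
    exact (pow_eq_one_iff_of_nonneg (norm_nonneg _) hM.ne').1 h2
  have hprod : ∏ i, ‖J (algebraMap ℚ_[p] _
      (LinearMap.det ((ρ (ho.elt i)).restrict (hW (ho.elt i)))))‖ ^ 2 = (l : ℝ) ^ (-(2 * H)) := by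
    have h1 : ∏ i, LinearMap.det ((ρ (ho.elt i)).restrict (hW (ho.elt i))) =
        toQ (ε φ) * chi p φ (-H) := hdet φ k x f ho
    rw [Finset.prod_pow, ← norm_prod, ← map_prod, ← map_prod, h1, chi, hcyc, map_mul, map_mul,
      norm_mul, mul_pow, hnε, one_pow, one_mul, map_zpow₀, map_zpow₀, map_natCast, map_natCast,
      norm_zpow, Complex.norm_natCast, ← zpow_natCast, ← zpow_mul]
    congr 1
    push_cast
    ring
  have haw := weights_eq hl.one_lt f ho.pos a (w * finrank ℚ_[p] W) H ha2 (by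
    rw [hH, ← sum_orbits ho]
    push_cast
    ring) (fun i => ‖J (algebraMap ℚ_[p] _
      (LinearMap.det ((ρ (ho.elt i)).restrict (hW (ho.elt i)))))‖ ^ 2) ha1 hprod
  intro i
  have hbij := fun j => wm_bijOn (hq i) (hyp i).2 W (hWN i) j (ha3 i (haw i) j)
  have hBN : ∀ y z, B (N i y) z = - B y (N i z) :=
    form_nexp (N i) (hyp i).2.1 B (toQ (cyc p Ω ((τ i : Γ) : Gal(Ω/ℚ))) ^ (-w)) (fun y z => by
      rw [← (hyp i).1]
      exact hB.2 _ y z)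
  have hBT : ∀ y z, B (ρ (ho.elt i) y) (ρ (ho.elt i) z) =
      ((l ^ f i : ℕ) : ℚ_[p]) ^ (-w) * B y z := by
    intro y z
    rw [hB.2]
    congr 1
    have h1 : cyc p Ω ((ho.elt i : Γ) : Gal(Ω/ℚ)) = cyc p Ω φ ^ f i := by
      change cyc p Ω ((x i)⁻¹ * φ ^ f i * x i) = _
      rw [cyc_conj, map_pow]
    rw [h1, map_pow, hcyc, Nat.cast_pow]
  exact ⟨hbij, fun j => prim_isoIn (hq i) (hyp i).2 B hB.1 hBT hBN W (hW _) (hWN i) hiso j,
    eig_blocks (hq i) (hyp i).2 W (hW _) (hWN i) hbij⟩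

end Pool.Agent.H99L
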