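import Mathlib

/-!
# Minimal stable subspaces without stable complement
-/

namespace Pool.Agent.H99L

open Module

/-- Chunk S1a (size M). **A minimal stable subspace without stable complement is irreducible.**

PROOF. Call a stable subspace bad if it has no stable complement. By `h` there is a bad one; choose a
bad `W` of minimal `finrank` (`Nat.find`, or `WellFounded.min` on `finrank`). `W ≠ ⊥` since `⊤` is a
complement of `⊥`. Let `U ≤ W` be stable, `U ≠ ⊥`, `U ≠ W`. Then `U` is not bad (smaller dimension,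
`Submodule.finrank_lt_finrank_of_lt`), let `C` be a stable complement of `U`. Put `U' = W ⊓ C`
(stable). `U' ≠ W` (otherwise `U ≤ W ≤ C` and `U ⊓ C = ⊥` give `U = ⊥`), so `U'` is not bad either,
let `C'` be a stable complement of `U'`. Then `C ⊓ C'` is a stable complement of `W`:
* `W = U ⊔ U'` by the modular law (`U ≤ W`, `U ⊔ C = ⊤`);
* `C = U' ⊔ (C ⊓ C')` by the modular law (`U' ≤ C`, `U' ⊔ C' = ⊤`), so
  `W ⊔ (C ⊓ C') = U ⊔ U' ⊔ (C ⊓ C') = U ⊔ C = ⊤`;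
* `W ⊓ (C ⊓ C') = (W ⊓ C) ⊓ C' = U' ⊓ C' = ⊥`.
Contradiction. Modular law: `sup_inf_assoc_of_le`, `IsModularLattice`. -/
theorem s1a_minimal {K G V : Type*} [Field K] [Group G] [AddCommGroup V] [Module K V]
    [FiniteDimensional K V] (ρ : Representation K G V)
    (h : ¬ ∀ W : Submodule K V, (∀ g, ∀ x ∈ W, ρ g x ∈ W) →
      ∃ W' : Submodule K V, (∀ g, ∀ x ∈ W', ρ g x ∈ W') ∧ IsCompl W W') :
    ∃ W : Submodule K V, (∀ g, ∀ x ∈ W, ρ g x ∈ W) ∧ W ≠ ⊥ ∧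
      (∀ U ≤ W, (∀ g, ∀ x ∈ U, ρ g x ∈ U) → U = ⊥ ∨ U = W) ∧
      ¬ ∃ W' : Submodule K V, (∀ g, ∀ x ∈ W', ρ g x ∈ W') ∧ IsCompl W W' := by
  classical
  have h' : ∃ W : Submodule K V, (∀ g, ∀ x ∈ W, ρ g x ∈ W) ∧
      ¬ ∃ W' : Submodule K V, (∀ g, ∀ x ∈ W', ρ g x ∈ W') ∧ IsCompl W W' := by
    by_contra hc
    apply h
    intro W hW
    by_contra hW'
    exact hc ⟨W, hW, hW'⟩
  obtain ⟨W0, hW0, hb0⟩ := h'
  have hex : ∃ n : ℕ, ∃ W : Submodule K V, (∀ g, ∀ x ∈ W, ρ g x ∈ W) ∧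
      (¬ ∃ W' : Submodule K V, (∀ g, ∀ x ∈ W', ρ g x ∈ W') ∧ IsCompl W W') ∧ finrank K W = n :=
    ⟨_, W0, hW0, hb0, rfl⟩
  obtain ⟨W, hW, hb, hn⟩ := Nat.find_spec hex
  have hmin : ∀ U : Submodule K V, (∀ g, ∀ x ∈ U, ρ g x ∈ U) → U < W →
      ∃ C : Submodule K V, (∀ g, ∀ x ∈ C, ρ g x ∈ C) ∧ IsCompl U C := by
    intro U hU hlt
    by_contra hC
    refine Nat.find_min hex (m := finrank K U) ?_ ⟨U, hU, hC, rfl⟩
    rw [← hn]
    exact Submodule.finrank_lt_finrank_of_lt hlt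
  refine ⟨W, hW, ?_, ?_, hb⟩
  · rintro rfl
    exact hb ⟨⊤, fun _ _ _ => Submodule.mem_top, isCompl_bot_top⟩
  · intro U hUW hU
    by_contra hne
    rw [not_or] at hne
    obtain ⟨C, hC, hUC⟩ := hmin U hU (lt_of_le_of_ne hUW hne.2)
    have hU'ne : W ⊓ C ≠ W := by
      intro h1
      have h2 : W ≤ C := inf_eq_left.1 h1
      have h3 : U ≤ U ⊓ C := le_inf le_rfl (hUW.trans h2)
      rw [hUC.inf_eq_bot] at h3
      exact hne.1 (le_bot_iff.1 h3)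
    obtain ⟨C', hC', hUC'⟩ := hmin (W ⊓ C) (fun g x hx => ⟨hW g x hx.1, hC g x hx.2⟩)
      (lt_of_le_of_ne inf_le_left hU'ne)
    refine hb ⟨C ⊓ C', fun g x hx => ⟨hC g x hx.1, hC' g x hx.2⟩, ?_, ?_⟩
    · rw [disjoint_iff, ← inf_assoc, hUC'.inf_eq_bot]
    · rw [codisjoint_iff, eq_top_iff, ← hUC.sup_eq_top]
      have h4 : C ≤ (W ⊓ C) ⊔ (C' ⊓ C) := by
        rw [← sup_inf_assoc_of_le C' (inf_le_right : W ⊓ C ≤ C), hUC'.sup_eq_top, top_inf_eq]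
      refine sup_le (hUW.trans le_sup_left) (h4.trans (sup_le ?_ ?_))
      · exact inf_le_left.trans le_sup_left
      · rw [inf_comm]
        exact le_sup_right

end Pool.Agent.H99L
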