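import Mathlib
import Pool.Agent.Lib.H99L.Defs
import Pool.Agent.Lib.H99L.S1a

/-!
# An irreducible isotropic subrepresentation without complement
-/

namespace Pool.Agent.H99L

open Module Pool.Agent.GSem Pool.Agent.NF

variable {p : ℕ} [hp : Fact p.Prime] {Ω : Type*} [Field Ω] [CharZero Ω]
variable {Γ : Subgroup Gal(Ω/ℚ)} {V : Type*} [AddCommGroup V] [Module ℚ_[p] V]
  [FiniteDimensional ℚ_[p] V]

/-- Chunk S1 (size S/M). **A polarised representation which is not semisimple contains an irreducible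
isotropic subrepresentation without stable complement.**

PROOF. Take `W` from `s1a_minimal`. With `perp B W` (file `Helper90/GSem/LinAlg.lean`) the subspace
`W ⊓ perp B W` is stable (`perp_stableG` in `H99/NF/Main1.lean`, with
`μ g = toQ (cyc p Ω g) ^ (-w)`) and contained in `W`, so it is `⊥` or `W`. If it is `⊥`, then
`perp B W` is a stable complement of `W` (`isCompl_perp B W`, see `semisimple_of_isotropicF`),
contradiction. If it is `W`, then `W ≤ perp B W`, i.e. `B x y = 0` for `x, y ∈ W`. -/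
theorem exists_irred_isotropic (ρ : Representation ℚ_[p] Γ V) (w : ℤ)
    (B : V →ₗ[ℚ_[p]] V →ₗ[ℚ_[p]] ℚ_[p]) (hB : IsPol ρ w B) (hns : ¬ IsSemisimpleRep ρ) :
    ∃ W : Submodule ℚ_[p] V, IsIrredSub ρ W ∧ (∀ x ∈ W, ∀ y ∈ W, B x y = 0) ∧
      ¬ ∃ W' : Submodule ℚ_[p] V, IsStable ρ W' ∧ IsCompl W W' := by
  obtain ⟨W, hW, hW0, hirr, hb⟩ := s1a_minimal ρ hns
  refine ⟨W, ⟨hW0, hW, hirr⟩, ?_, hb⟩
  have hWp := perp_stableG ρ B (fun g => toQ (cyc p Ω (g : Gal(Ω/ℚ))) ^ (-w)) hB.2 W hW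
  rcases hirr (W ⊓ perp B W) inf_le_left (fun g x hx => ⟨hW g x hx.1, hWp g x hx.2⟩) with h | h
  · exact absurd ⟨perp B W, hWp, isCompl_perp B W h⟩ hb
  · intro x hx y hy
    have h1 : y ∈ W ⊓ perp B W := by rw [h]; exact hy
    exact h1.2 x hx

end Pool.Agent.H99L
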