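import Mathlib
import Pool.Agent.Lib.H99L.Defs

/-!
# The transfer and orbits
-/

namespace Pool.Agent.H99L

open Module

/-- Chunk T1 (size M). **The transfer in terms of orbits.**

PROOF. See `Pool.Agent.NF.transfer_core` (file `H99/NF/Transfer.lean`) for the method. Let `t s`, for
`s = ⟨i, j⟩` in `Σ i, Fin (f i)`, be `g ^ j * x i`. By `ho.bij` these represent the cosets once, so
there is a left transversal `T` (`Subgroup.LeftTransversal`,
`Subgroup.isComplement_range_left`, applied to the section `q ↦ t (e.symm q)` where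
`e : (Σ i, Fin (f i)) ≃ G ⧸ Γ` is `Equiv.ofBijective _ ho.bij`) whose element in the coset `e s` is
`t s`. By `MonoidHom.transfer_def`, `transfer δ g = ∏ q, δ (T(q)⁻¹ * (g • T)(q))` with
`(g • T)(q) = g * T(g⁻¹ q)` (`Subgroup.smul_apply_eq_smul_apply_inv_smul`). For `q = e ⟨i, j⟩`:
* if `0 < j` then `g⁻¹ q` is the coset of `g ^ (j - 1) * x i`, so `(g • T)(q) = g ^ j * x i = T(q)`
  and the factor is `1`;
* if `j = 0` then `g⁻¹ q` is the coset of `g⁻¹ * x i`, which is that of `g ^ (f i - 1) * x i`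
  because `(x i)⁻¹ * g ^ f i * x i ∈ Γ` (`ho.mem`); so `(g • T)(q) = g ^ f i * x i` and the factor is
  `δ (ho.elt i)`.
Rewrite the product over `G ⧸ Γ` as a product over `Σ i, Fin (f i)` (`Equiv.prod_comp`), then
`Fintype.prod_sigma`, and `Finset.prod_eq_single 0` (note `0 < f i`). -/
theorem transfer_orbits {G : Type*} [Group G] (Γ : Subgroup G) [Γ.FiniteIndex] {A : Type*}
    [CommGroup A] (δ : Γ →* A) {g : G} {k : ℕ} {x : Fin k → G} {f : Fin k → ℕ}
    (ho : IsOrbits Γ g x f) : MonoidHom.transfer δ g = ∏ i, δ (ho.elt i) := by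
  classical
  have : Fintype (G ⧸ Γ) := Subgroup.fintypeQuotientOfFiniteIndex
  let t : (Σ i : Fin k, Fin (f i)) → G := fun s => g ^ (s.2 : ℕ) * x s.1
  let e : (Σ i : Fin k, Fin (f i)) ≃ G ⧸ Γ := Equiv.ofBijective _ ho.bij
  have he : ∀ s, e s = ((t s : G) : G ⧸ Γ) := fun s => rfl
  have hsec : ∀ q : G ⧸ Γ, ((t (e.symm q) : G) : G ⧸ Γ) = q := by
    intro q
    rw [← he, Equiv.apply_symm_apply]
  let T : Γ.LeftTransversal := ⟨Set.range fun q : G ⧸ Γ => t (e.symm q),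
    Subgroup.isComplement_range_left hsec⟩
  have hT : ∀ q : G ⧸ Γ, ((T.2.leftQuotientEquiv q : T.1) : G) = t (e.symm q) := fun q =>
    Subgroup.IsComplement.leftQuotientEquiv_apply hsec q
  rw [MonoidHom.transfer_def δ T g]
  simp only [Subgroup.leftTransversals.diff]
  have hg : ∀ q : G ⧸ Γ, ((g • T).2.leftQuotientEquiv q : G) =
      g * (T.2.leftQuotientEquiv (g⁻¹ • q) : G) := by
    intro q
    rw [Subgroup.smul_apply_eq_smul_apply_inv_smul]
    rfl
  -- the factors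
  have key : ∀ (i : Fin k) (j : Fin (f i)), ∃ h : (t ⟨i, j⟩)⁻¹ * (g * t (e.symm (g⁻¹ • e ⟨i, j⟩))) ∈ Γ,
      δ ⟨(t ⟨i, j⟩)⁻¹ * (g * t (e.symm (g⁻¹ • e ⟨i, j⟩))), h⟩ =
        if (j : ℕ) = 0 then δ (ho.elt i) else 1 := by
    intro i j
    by_cases hj : (j : ℕ) = 0
    · have hf := ho.pos i
      have hlast : g⁻¹ • e ⟨i, j⟩ = e ⟨i, ⟨f i - 1, by omega⟩⟩ := by
        rw [he, he, MulAction.Quotient.smul_coe, smul_eq_mul, QuotientGroup.eq]
        have h1 : (g⁻¹ * t ⟨i, j⟩)⁻¹ * t ⟨i, ⟨f i - 1, by omega⟩⟩ = (x i)⁻¹ * g ^ f i * x i := by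
          show (g⁻¹ * (g ^ (j : ℕ) * x i))⁻¹ * (g ^ (f i - 1) * x i) = (x i)⁻¹ * g ^ f i * x i
          rw [hj, pow_zero, one_mul, mul_inv_rev, inv_inv]
          have h2 : g ^ f i = g * g ^ (f i - 1) := by
            rw [← pow_succ']
            congr 1
            omega
          rw [h2]
          simp only [mul_assoc]
        rw [h1]
        exact ho.mem i
      have h3 : (t ⟨i, j⟩)⁻¹ * (g * t (e.symm (g⁻¹ • e ⟨i, j⟩))) = (x i)⁻¹ * g ^ f i * x i := by
        rw [hlast, Equiv.symm_apply_apply]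
        show (g ^ (j : ℕ) * x i)⁻¹ * (g * (g ^ (f i - 1) * x i)) = (x i)⁻¹ * g ^ f i * x i
        rw [hj, pow_zero, one_mul]
        have h2 : g ^ f i = g * g ^ (f i - 1) := by
          rw [← pow_succ']
          congr 1
          omega
        rw [h2]
        simp only [mul_assoc]
      refine ⟨by rw [h3]; exact ho.mem i, ?_⟩
      rw [if_pos hj]
      congr 1
      exact Subtype.ext h3
    · have hlast : g⁻¹ • e ⟨i, j⟩ = e ⟨i, ⟨(j : ℕ) - 1, by omega⟩⟩ := by
        rw [he, he, MulAction.Quotient.smul_coe, smul_eq_mul]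
        congr 1
        show g⁻¹ * (g ^ (j : ℕ) * x i) = g ^ ((j : ℕ) - 1) * x i
        have h2 : g ^ (j : ℕ) = g * g ^ ((j : ℕ) - 1) := by
          rw [← pow_succ']
          congr 1
          omega
        rw [h2]
        group
      have h3 : (t ⟨i, j⟩)⁻¹ * (g * t (e.symm (g⁻¹ • e ⟨i, j⟩))) = 1 := by
        rw [hlast, Equiv.symm_apply_apply]
        show (g ^ (j : ℕ) * x i)⁻¹ * (g * (g ^ ((j : ℕ) - 1) * x i)) = 1
        have h2 : g ^ (j : ℕ) = g * g ^ ((j : ℕ) - 1) := by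
          rw [← pow_succ']
          congr 1
          omega
        rw [h2, ← mul_assoc g, inv_mul_cancel]
      refine ⟨by rw [h3]; exact one_mem Γ, ?_⟩
      rw [if_neg hj]
      have h4 : (⟨(t ⟨i, j⟩)⁻¹ * (g * t (e.symm (g⁻¹ • e ⟨i, j⟩))), by rw [h3]; exact one_mem Γ⟩ : Γ) = 1 :=
        Subtype.ext h3
      rw [h4, map_one]
  -- the product
  have hprod : ∀ q : G ⧸ Γ, ∀ h : ((T.2.leftQuotientEquiv q : T.1) : G)⁻¹ *
      ((g • T).2.leftQuotientEquiv q : G) ∈ Γ,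
      δ ⟨((T.2.leftQuotientEquiv q : T.1) : G)⁻¹ * ((g • T).2.leftQuotientEquiv q : G), h⟩ =
        (fun s : (Σ i : Fin k, Fin (f i)) => if (s.2 : ℕ) = 0 then δ (ho.elt s.1) else 1)
          (e.symm q) := by
    intro q h
    obtain ⟨s, rfl⟩ := e.surjective q
    obtain ⟨i, j⟩ := s
    obtain ⟨h', hk⟩ := key i j
    rw [Equiv.symm_apply_apply]
    show _ = if (j : ℕ) = 0 then δ (ho.elt i) else 1
    rw [← hk]
    congr 1
    apply Subtype.ext
    show ((T.2.leftQuotientEquiv (e ⟨i, j⟩) : T.1) : G)⁻¹ * ((g • T).2.leftQuotientEquiv (e ⟨i, j⟩) : G) = _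
    rw [hg, hT, hT, Equiv.symm_apply_apply]
  refine (Finset.prod_congr rfl fun q _ => hprod q _).trans ?_
  have h5 := Equiv.prod_comp e.symm (fun s : (Σ i : Fin k, Fin (f i)) =>
    if (s.2 : ℕ) = 0 then δ (ho.elt s.1) else 1)
  have h6 : (∏ s : (Σ i : Fin k, Fin (f i)), if (s.2 : ℕ) = 0 then δ (ho.elt s.1) else 1) =
      ∏ i, δ (ho.elt i) := by
    rw [Fintype.prod_sigma]
    refine Finset.prod_congr rfl fun i _ => ?_
    rw [Finset.prod_eq_single (⟨0, ho.pos i⟩ : Fin (f i))]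
    · simp
    · intro j _ hj
      have h7 : (j : ℕ) ≠ 0 := fun h => hj (Fin.ext h)
      simp [h7]
    · intro h
      exact absurd (Finset.mem_univ _) h
  rw [← h6, ← h5]
  exact Finset.prod_congr (by ext; simp) fun _ _ => rfl

end Pool.Agent.H99L
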