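import Mathlib
import Pool.Agent.Lib.H99L.Defs

/-!
# The transfer of a Hodge–Tate character
-/

namespace Pool.Agent.H99L

open NumberField TensorProduct Module Pool.Agent.GSem Pool.Agent.NF Pool.Agent.PD

variable {p : ℕ} [hp : Fact p.Prime] {Ω : Type*} [Field Ω] [CharZero Ω] [IsAlgClosed Ω]
  [IsGalois ℚ Ω]

/-- Chunk T2 (size S/M). **The transfer of a Hodge–Tate character is, up to a character of finite
order, a power of the cyclotomic character**, on the whole group.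

PROOF. `exists_transfer_relation` (file `H99/NF/Transfer.lean`) gives `M > 0` with
`(∏ x, δ ⟨x.out⁻¹ * g * x.out, _⟩) ^ M = (cyc p Ω g) ^ (-(M * ∑ x, H x))` for `g` in the normal core
of `Γ`, and the product is `transfer δ g` by `transfer_core`. The normal core has finite index `e`
(`Γ.normalCore.index`, `≠ 0`), and `g ^ e` lies in it for every `g`
(`Subgroup.pow_index_mem`, the core is normal). So `M * e` works: both sides are homomorphisms in
`g` (`map_pow`). -/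
theorem exists_transfer_finite (Γ : Subgroup Gal(Ω/ℚ)) [Γ.FiniteIndex]
    (hΓ : IsOpen (Γ : Set Gal(Ω/ℚ))) [Fintype (Gal(Ω/ℚ) ⧸ Γ)] (δ : Γ →* ℤ_[p]ˣ)
    (hδ : Continuous δ)
    (ι : Ω →+* PadicAlgCl p) (H : Gal(Ω/ℚ) ⧸ Γ → ℤ) (c : Gal(Ω/ℚ) ⧸ Γ → ℂ_[p])
    (hc0 : ∀ x, c x ≠ 0)
    (hc : ∀ x σ (g : Γ), Compat (twistEmb ι x.out) σ g →
      galC σ (c x) * algebraMap ℚ_[p] ℂ_[p] (toQ (δ g)) =
        algebraMap ℚ_[p] ℂ_[p] (toQ (cyc p Ω (g : Gal(Ω/ℚ))) ^ (-H x)) * c x) :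
    ∃ M : ℕ, 0 < M ∧ ∀ g : Gal(Ω/ℚ),
      (MonoidHom.transfer δ g) ^ M = (cyc p Ω g) ^ (-(M * ∑ x, H x) : ℤ) := by
  classical
  obtain ⟨M, hM, hrel⟩ := exists_transfer_relation Γ hΓ δ hδ ι H c hc0 hc
  have hfin : Γ.normalCore.FiniteIndex := inferInstance
  refine ⟨M * Γ.normalCore.index, Nat.mul_pos hM (Nat.pos_of_ne_zero hfin.index_ne_zero),
    fun g => ?_⟩
  have hg : g ^ Γ.normalCore.index ∈ Γ.normalCore := Subgroup.pow_index_mem _ _
  have h1 := hrel _ hg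
  rw [← transfer_core Γ δ hg, map_pow, map_pow, ← pow_mul] at h1
  rw [mul_comm M, h1, ← zpow_natCast, ← zpow_mul]
  congr 1
  push_cast
  ring

end Pool.Agent.H99L
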