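import Mathlib
import Pool.Agent.Lib.H99L.T1
import Pool.Agent.Lib.H99L.T2

/-!
# The finite-order character
-/

namespace Pool.Agent.H99L

open NumberField TensorProduct Module Pool.Agent.GSem Pool.Agent.NF Pool.Agent.PD

variable {p : ℕ} [hp : Fact p.Prime] {Ω : Type*} [Field Ω] [CharZero Ω] [IsAlgClosed Ω]
  [IsGalois ℚ Ω]
variable {Γ : Subgroup Gal(Ω/ℚ)} {V : Type*} [AddCommGroup V] [Module ℚ_[p] V]
  [FiniteDimensional ℚ_[p] V]

/-- Chunk T3 (size M). **One finite-order character for all elements.** For a stable subspace `U`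
whose determinant has the weights `H x` at the embeddings `ι ∘ x`, the products of the determinants
over the orbits of `g` are `ε g * χ g ^ (- ∑ H x)` with one continuous character `ε` of finite order.

PROOF. As in `exists_det_relation` (file `H99/NF/Sum.lean`): `Γ` is compact,
`exists_unit_charG (detG ρ U hU) (continuous_detG ρ hρ U hU)` gives `δ : Γ →* ℤ_[p]ˣ` continuous with
`toQ (δ g) = detG ρ U hU g`. Put `ε = transfer δ * (cyc p Ω) ^ (∑ x, H x)` (product in the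
commutative group of homomorphisms to `ℤ_[p]ˣ`). It is continuous (`continuous_transfer`,
`continuous_cyc p Ω`, `Continuous.zpow`) and `ε ^ M = 1` by `exists_transfer_finite`
(`isOfFinOrder_iff_pow_eq_one`). By `transfer_orbits`,
`∏ i, detG ρ U hU (ho.elt i) = toQ (transfer δ g) = toQ (ε g) * toQ (cyc p Ω g) ^ (-∑ x, H x)`. -/
theorem exists_eps [Γ.FiniteIndex] [Fintype (Gal(Ω/ℚ) ⧸ Γ)] (hΓ : IsOpen (Γ : Set Gal(Ω/ℚ)))
    (ι : Ω →+* PadicAlgCl p) (ρ : Representation ℚ_[p] Γ V) (hρ : IsContRep ρ)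
    (U : Submodule ℚ_[p] V) (hU : ∀ g, ∀ u ∈ U, ρ g u ∈ U) (H : Gal(Ω/ℚ) ⧸ Γ → ℤ)
    (hH : ∀ x : Gal(Ω/ℚ) ⧸ Γ, ∃ c : ℂ_[p], c ≠ 0 ∧ ∀ σ (g : Γ),
      Compat (twistEmb ι x.out) σ (g : Gal(Ω/ℚ)) →
      galC σ c * algebraMap ℚ_[p] ℂ_[p] (detG ρ U hU g) =
        algebraMap ℚ_[p] ℂ_[p] (toQ (cyc p Ω (g : Gal(Ω/ℚ))) ^ (-H x)) * c) :
    ∃ ε : Gal(Ω/ℚ) →* ℤ_[p]ˣ, Continuous ε ∧ IsOfFinOrder ε ∧
      ∀ (g : Gal(Ω/ℚ)) (k : ℕ) (x : Fin k → Gal(Ω/ℚ)) (f : Fin k → ℕ) (ho : IsOrbits Γ g x f),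
        ∏ i, detG ρ U hU (ho.elt i) = toQ (ε g) * chi p g (-∑ x, H x) := by
  classical
  have hΓc : IsClosed (Γ : Set Gal(Ω/ℚ)) := Γ.isClosed_of_isOpen hΓ
  have hcomp : CompactSpace Γ := isCompact_iff_compactSpace.1 hΓc.isCompact
  obtain ⟨δ, hδc, hδ⟩ := exists_unit_charG (detG ρ U hU) (continuous_detG ρ hρ U hU)
  choose c hc0 hc using hH
  obtain ⟨M, hM, hrel⟩ := exists_transfer_finite Γ hΓ δ hδc ι H c hc0 (by
    intro x σ g hg
    rw [hδ]
    exact hc x σ g hg)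
  obtain ⟨n, hn⟩ : ∃ n : ℤ, n = ∑ x, H x := ⟨_, rfl⟩
  rw [← hn] at hrel ⊢
  let ε : Gal(Ω/ℚ) →* ℤ_[p]ˣ :=
    { toFun := fun g => MonoidHom.transfer δ g * (cyc p Ω g) ^ n
      map_one' := by rw [map_one, map_one, one_zpow, one_mul]
      map_mul' := fun g h => by rw [map_mul, map_mul, mul_zpow, mul_mul_mul_comm] }
  have hεg : ∀ g, ε g = MonoidHom.transfer δ g * (cyc p Ω g) ^ n := fun g => rfl
  refine ⟨ε, ?_, ?_, ?_⟩
  · exact (continuous_transfer Γ hΓ δ hδc).mul ((continuous_cyc p Ω).zpow n)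
  · rw [isOfFinOrder_iff_pow_eq_one]
    refine ⟨M, hM, ?_⟩
    ext1 g
    rw [MonoidHom.pow_apply, hεg, mul_pow, hrel, MonoidHom.one_apply, ← zpow_natCast, ← zpow_mul,
      ← zpow_add]
    have h1 : -((M : ℤ) * n) + n * (M : ℤ) = 0 := by ring
    rw [h1, zpow_zero]
  · intro g k x f ho
    have h1 : ∏ i, detG ρ U hU (ho.elt i) = toQ (MonoidHom.transfer δ g) := by
      rw [transfer_orbits Γ δ ho, map_prod]
      exact Finset.prod_congr rfl fun i _ => (hδ _).symm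
    rw [h1, hεg, map_mul, map_zpow, chi, mul_assoc, ← zpow_add₀ (toQ_ne_zero _), add_neg_cancel,
      zpow_zero, mul_one]

end Pool.Agent.H99L
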