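import Mathlib
import Pool.Agent.Lib.H99L.Defs2
import Pool.Agent.Lib.H43.GS.Fam

/-!
# Transfer of data between fields
-/

namespace Pool.Agent.H99L

open Module Polynomial

/-- Chunk Y1 (size M). **Transport of data by embeddings of fields**, forwards and backwards.

PROOF. As `RelFam.map` and `RelFam.of_map` (file `H43/GS/Fam.lean`). Forwards: `S' i = (S i).map f`;
`(S i).map f + ((S i).map f).map (f (lam i) / ·) = (S i + (S i).map (lam i / ·)).map f` because
`f (a / z) = f a / f z`, and `Multiset.map_le_map`; products: `map_multiset_prod`, `map_prod`.
Backwards: `S i ≤ (R i).map f`, so `S i = (S' i).map f` (`Pool.Agent.H43GS.exists_map_of_le`), and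
`Multiset.map_le_map_iff f.injective`. -/
theorem hasDatum_map_iff {κ K L : Type*} [Fintype κ] [Field K] [Field L] (f : K →+* L) {r : ℕ}
    {R : κ → Multiset K} {lam : κ → K} {t : K} :
    HasDatum r (fun i => (R i).map f) (fun i => f (lam i)) (f t) ↔ HasDatum r R lam t := by
  constructor
  · rintro ⟨S, hS, hle, hprod⟩
    choose S' hS' using fun x => Pool.Agent.H43GS.exists_map_of_le f (S x)
      ((Multiset.le_add_right _ _).trans (hle x))
    refine ⟨S', fun x => ?_, fun x => ?_, ?_⟩
    · have h1 := hS x
      rwa [hS' x, Multiset.card_map] at h1
    · unfold IsoIn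
      rw [← Multiset.map_le_map_iff f.injective]
      have h1 := hle x
      unfold IsoIn at h1
      rw [hS' x, Multiset.map_map] at h1
      rw [Multiset.map_add, Multiset.map_map]
      have h4 : (S' x).map (f ∘ fun z => lam x / z) = (S' x).map ((fun z => f (lam x) / z) ∘ f) := by
        apply Multiset.map_congr rfl
        intro z _
        rw [Function.comp_apply, Function.comp_apply, map_div₀]
      rw [h4]
      exact h1
    · apply f.injective
      rw [map_prod, ← hprod]
      refine Finset.prod_congr rfl fun x _ => ?_
      rw [map_multiset_prod, hS' x]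
  · rintro ⟨S, hS, hle, hprod⟩
    refine ⟨fun x => (S x).map f, fun x => by rw [Multiset.card_map, hS], fun x => ?_, ?_⟩
    · have h1 : (S x).map f + ((S x).map f).map (fun z => f (lam x) / z) =
          (S x + (S x).map (fun z => lam x / z)).map f := by
        rw [Multiset.map_add, Multiset.map_map, Multiset.map_map]
        congr 1
        apply Multiset.map_congr rfl
        intro z _
        rw [Function.comp_apply, Function.comp_apply, map_div₀]
      unfold IsoIn
      rw [h1]
      exact Multiset.map_le_map (hle x)
    · have h1 := congrArg f hprod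
      rw [map_prod] at h1
      rw [← h1]
      exact Finset.prod_congr rfl fun x _ => (map_multiset_prod f (S x)).symm

end Pool.Agent.H99L
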