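import Mathlib
import Pool.Agent.Lib.H99L.Y1
import Pool.Agent.Lib.H43.GS.Transfer

/-!
# Transfer of data between `p` and `l`
-/

namespace Pool.Agent.H99L

open Module Polynomial

/-- Chunk Y2 (size S/M). **Transport of data from `p` to `l`** for rational polynomials.

PROOF. `rts ((P i).map (algebraMap ℚ ℚ_[p])) = ((P i).map (algebraMap ℚ Ω)).roots.map jp`, and the
same for `l` (`Pool.Agent.H43GS.aroots_rat`, file `H43/GS/Transfer.lean`);
`algebraMap ℚ _ (lam i) = jp (algebraMap ℚ Ω (lam i))` (`map_ratCast`, `eq_ratCast`), and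
`jp e * algebraMap ℚ _ t = jp (e * algebraMap ℚ Ω t)`. Use `hasDatum_map_iff` for `jp` (backwards)
and for `jl` (forwards). -/
theorem datum_transfer {p l : ℕ} [Fact p.Prime] [Fact l.Prime] {Ω : Type*} [Field Ω] [CharZero Ω]
    [IsAlgClosed Ω] (jp : Ω →+* AlgebraicClosure ℚ_[p]) (jl : Ω →+* AlgebraicClosure ℚ_[l])
    {κ : Type*} [Fintype κ] (P : κ → ℚ[X]) (lam : κ → ℚ) (e : Ω) (t : ℚ) {r : ℕ}
    (h : HasDatum r (fun i => rts ((P i).map (algebraMap ℚ ℚ_[p])))
      (fun i => algebraMap ℚ (AlgebraicClosure ℚ_[p]) (lam i))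
      (jp e * algebraMap ℚ (AlgebraicClosure ℚ_[p]) t)) :
    HasDatum r (fun i => rts ((P i).map (algebraMap ℚ ℚ_[l])))
      (fun i => algebraMap ℚ (AlgebraicClosure ℚ_[l]) (lam i))
      (jl e * algebraMap ℚ (AlgebraicClosure ℚ_[l]) t) := by
  have a1 : (fun i => rts ((P i).map (algebraMap ℚ ℚ_[p]))) =
      fun i => ((P i).map (algebraMap ℚ Ω)).roots.map jp :=
    funext fun i => Pool.Agent.H43GS.aroots_rat jp (P i)
  have a2 : (fun i => rts ((P i).map (algebraMap ℚ ℚ_[l]))) =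
      fun i => ((P i).map (algebraMap ℚ Ω)).roots.map jl :=
    funext fun i => Pool.Agent.H43GS.aroots_rat jl (P i)
  have b1 : ∀ s : ℚ, algebraMap ℚ (AlgebraicClosure ℚ_[p]) s = jp (algebraMap ℚ Ω s) := by
    intro s
    rw [eq_ratCast, eq_ratCast, map_ratCast]
  have b2 : ∀ s : ℚ, algebraMap ℚ (AlgebraicClosure ℚ_[l]) s = jl (algebraMap ℚ Ω s) := by
    intro s
    rw [eq_ratCast, eq_ratCast, map_ratCast]
  rw [a1, b1, ← map_mul, funext fun i => b1 (lam i)] at h
  rw [a2, b2, ← map_mul, funext fun i => b2 (lam i)]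
  exact (hasDatum_map_iff jl).2 ((hasDatum_map_iff jp).1 h)

end Pool.Agent.H99L
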