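import Mathlib
import Pool.Agent.Lib.H99L.Y2
import Pool.Agent.Lib.H99L.E1
import Pool.Agent.Lib.Helper90.GSem.WD

/-!
# Data at powers of Frobenius elements
-/

namespace Pool.Agent.H99L

open NumberField Module Polynomial Pool.Agent.GSem Pool.Agent.NF

variable {p : ℕ} [hp : Fact p.Prime] {Ω : Type*} [Field Ω] [CharZero Ω] [IsAlgClosure ℚ Ω]
variable {Γ : Subgroup Gal(Ω/ℚ)} {V : Type*} [AddCommGroup V] [Module ℚ_[p] V]
  [FiniteDimensional ℚ_[p] V]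

/-- Chunk Y10 (size M). **The datum of `θ` at a power of a Frobenius element.**

PROOF. For every `i`, `ho.elt i` is `((x i)⁻¹ * φ * x i) ^ (m * f i)`, a power of the Frobenius
element `(x i)⁻¹ * φ * x i` at `q` (`isFrobAt_conj`, used in `H43/GS/Main2.lean`), with
`0 < m * f i` (`ho.pos i`), so the hypothesis `hb` gives `P i : ℚ[X]` with
`(θ (ho.elt i)).charpoly = (P i).map _` and `(ρ (ho.elt i)).charpoly = (P i).map _` (rewrite the
element as `⟨_ ^ _, _⟩`, `Subtype.ext`). Since `q ≠ p, l`, `toQ (cyc p Ω φ) = q` (see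
`cyc_frob` in the proof of `semisimple_everywhere`, `H43/GS/Main.lean`), so
`chi p (φ ^ m) a = ((q ^ m : ℕ) : ℚ_[p]) ^ a`, which is the image of the rational number
`(q ^ m) ^ a`; the same for `l`. By `hel` at `g = φ ^ m` (with `S i = eig (ρ (ho.elt i)) W`, which has
`finrank W` elements by `card_eig`), there is a datum for the `rts (ρ (ho.elt i)).charpoly`; the
product is `algebraMap (toQ (ε g)) * algebraMap (chi p g (-H)) = jp (e g) * algebraMap ℚ _ t`.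
Apply `datum_transfer`. -/
theorem datum_frob {l : ℕ} [Fact l.Prime] (ρ : Representation ℚ_[p] Γ V) (w : ℤ)
    (W : Submodule ℚ_[p] V) (hW : ∀ g, ∀ x ∈ W, ρ g x ∈ W) (ε : Gal(Ω/ℚ) →* ℤ_[p]ˣ) (H : ℤ)
    (hel : ElementClause ρ w W ε H)
    (jp : Ω →+* AlgebraicClosure ℚ_[p]) (jl : Ω →+* AlgebraicClosure ℚ_[l])
    (e : Gal(Ω/ℚ) →* Ωˣ)
    (he : ∀ g, jp (e g : Ω) = algebraMap ℚ_[p] (AlgebraicClosure ℚ_[p]) (toQ (ε g)))
    {U : Type*} [AddCommGroup U] [Module ℚ_[l] U] [FiniteDimensional ℚ_[l] U]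
    (θ : Representation ℚ_[l] Γ U) {b : ℕ}
    (hb : ∀ q : ℕ, b < q → q.Prime → ∀ φ : Gal(Ω/ℚ), IsFrobAt q φ →
      ∀ (j : ℕ) (hj : φ ^ j ∈ Γ), 0 < j → ∃ P : ℚ[X],
        (θ ⟨φ ^ j, hj⟩).charpoly = P.map (algebraMap ℚ ℚ_[l]) ∧
        (ρ ⟨φ ^ j, hj⟩).charpoly = P.map (algebraMap ℚ ℚ_[p]))
    {q : ℕ} (hbq : b < q) (hpq : p < q) (hlq : l < q) (hq : q.Prime) {φ : Gal(Ω/ℚ)}
    (hφ : IsFrobAt q φ) {m : ℕ} (hm : 0 < m) {k : ℕ} {x : Fin k → Gal(Ω/ℚ)} {f : Fin k → ℕ}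
    (ho : IsOrbits Γ (φ ^ m) x f) :
    HasDatum (finrank ℚ_[p] W) (fun i => rts (θ (ho.elt i)).charpoly)
      (fun i => algebraMap ℚ_[l] _ (chi l (φ ^ m) (-(w * f i))))
      (jl (e (φ ^ m) : Ω) * algebraMap ℚ_[l] _ (chi l (φ ^ m) (-H))) := by
  have hacl : IsAlgClosed Ω := IsAlgClosure.isAlgClosed ℚ
  have hP : ∀ i, ∃ P : ℚ[X], (θ (ho.elt i)).charpoly = P.map (algebraMap ℚ ℚ_[l]) ∧
      (ρ (ho.elt i)).charpoly = P.map (algebraMap ℚ ℚ_[p]) := by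
    intro i
    have e1 : ((x i)⁻¹ * φ * x i) ^ (m * f i) = (x i)⁻¹ * (φ ^ m) ^ f i * x i := by
      have := conj_pow (i := m * f i) (a := (x i)⁻¹) (b := φ)
      rw [inv_inv] at this
      rw [this, pow_mul]
    have hj : ((x i)⁻¹ * φ * x i) ^ (m * f i) ∈ Γ := by
      rw [e1]
      exact ho.mem i
    obtain ⟨P, h1, h2⟩ := hb q hbq hq _ (Pool.Agent.Ord.isFrobAt_conj hφ (x i)) (m * f i) hj
      (Nat.mul_pos hm (ho.pos i))
    have e2 : (⟨((x i)⁻¹ * φ * x i) ^ (m * f i), hj⟩ : Γ) = ho.elt i := Subtype.ext e1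
    rw [e2] at h1 h2
    exact ⟨P, h1, h2⟩
  choose P hPl hPp using hP
  have hcp : toQ (cyc p Ω (φ ^ m)) = (q : ℚ_[p]) ^ m := by
    rw [map_pow, map_pow, toQ_apply, cyc_frob hq hpq.ne' hφ, PadicInt.coe_natCast]
  have hcl : toQ (cyc l Ω (φ ^ m)) = (q : ℚ_[l]) ^ m := by
    rw [map_pow, map_pow, toQ_apply, cyc_frob hq hlq.ne' hφ, PadicInt.coe_natCast]
  have b1 : ∀ a : ℤ, algebraMap ℚ_[p] (AlgebraicClosure ℚ_[p]) (chi p (φ ^ m) a) =
      algebraMap ℚ (AlgebraicClosure ℚ_[p]) (((q : ℚ) ^ m) ^ a) := by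
    intro a
    rw [chi, hcp]
    simp only [map_zpow₀, map_pow, map_natCast]
  have b2 : ∀ a : ℤ, algebraMap ℚ_[l] (AlgebraicClosure ℚ_[l]) (chi l (φ ^ m) a) =
      algebraMap ℚ (AlgebraicClosure ℚ_[l]) (((q : ℚ) ^ m) ^ a) := by
    intro a
    rw [chi, hcl]
    simp only [map_zpow₀, map_pow, map_natCast]
  obtain ⟨h1, h2⟩ := hel (φ ^ m) k x f ho
  have h3 : HasDatum (finrank ℚ_[p] W) (fun i => rts ((P i).map (algebraMap ℚ ℚ_[p])))
      (fun i => algebraMap ℚ (AlgebraicClosure ℚ_[p]) (((q : ℚ) ^ m) ^ (-(w * f i))))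
      (jp (e (φ ^ m) : Ω) * algebraMap ℚ (AlgebraicClosure ℚ_[p]) (((q : ℚ) ^ m) ^ (-H))) := by
    refine ⟨fun i => eig (ρ (ho.elt i)) W, fun i => card_eig _ _ (hW _), fun i => ?_, ?_⟩
    · have := h1 i
      rw [hPp i, b1] at this
      exact this
    · rw [h2, map_mul, b1, he]
  have h4 := datum_transfer jp jl P (fun i => ((q : ℚ) ^ m) ^ (-(w * f i))) (e (φ ^ m) : Ω)
    (((q : ℚ) ^ m) ^ (-H)) h3
  have c1 : (fun i => rts (θ (ho.elt i)).charpoly) = fun i => rts ((P i).map (algebraMap ℚ ℚ_[l])) :=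
    funext fun i => by rw [hPl i]
  have c2 : (fun i => algebraMap ℚ_[l] (AlgebraicClosure ℚ_[l]) (chi l (φ ^ m) (-(w * f i)))) =
      fun i => algebraMap ℚ (AlgebraicClosure ℚ_[l]) (((q : ℚ) ^ m) ^ (-(w * f i))) :=
    funext fun i => b2 _
  rw [c1, c2, b2]
  exact h4

end Pool.Agent.H99L
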