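import Mathlib
import Pool.Agent.Lib.H99L.Defs2
import Pool.Agent.Lib.H43.GS.Fam

/-!
# Data and polynomials
-/

namespace Pool.Agent.H99L

open Module Polynomial

/-- Chunk Y3 (size M). **Data in terms of divisibility.**

PROOF. As `relFam_iff` (file `H43/GS/Fam.lean`), with `lam` depending on `i` and the product equal to
`t`; `roots_iso` there is stated for one `lam`. -/
theorem hasDatum_iff {κ K : Type*} [Fintype κ] [Field K] [IsAlgClosed K] {r : ℕ} {P : κ → K[X]}
    (hP : ∀ i, (P i).Monic) {lam : κ → K} {t : K} :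
    HasDatum r (fun i => (P i).roots) lam t ↔ ∃ z : κ → Fin r → K,
      (∀ i, ((∏ j, (X - C (z i j))) * ∏ j, (X - C (lam i / z i j))) ∣ P i) ∧
      ∏ i, ∏ j, z i j = t := by
  constructor
  · rintro ⟨S, hS, hle, hprod⟩
    choose z hz using fun x => Pool.Agent.Ord.exists_fin_map (S x) (hS x)
    refine ⟨z, fun x => ?_, ?_⟩
    · apply (Splits.dvd_iff_roots_le_roots (IsAlgClosed.splits _) ?_ (hP x).ne_zero).2
      · rw [Pool.Agent.H43GS.roots_iso]
        have h1 : S x + (S x).map (fun z => lam x / z) ≤ (P x).roots := hle x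
        rwa [hz x, Multiset.map_map] at h1
      · exact mul_ne_zero (monic_prod_X_sub_C (z x) Finset.univ).ne_zero
          (monic_prod_X_sub_C (fun i => lam x / z x i) Finset.univ).ne_zero
    · rw [← hprod]
      refine Finset.prod_congr rfl fun x _ => ?_
      rw [hz x]
      rfl
  · rintro ⟨z, hdvd, hprod⟩
    refine ⟨fun x => Multiset.map (z x) Finset.univ.val, fun x => by simp, fun x => ?_, hprod⟩
    have h1 := roots.le_of_dvd (hP x).ne_zero (hdvd x)
    rw [Pool.Agent.H43GS.roots_iso] at h1
    unfold IsoIn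
    rwa [Multiset.map_map]

end Pool.Agent.H99L
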