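import Mathlib
import Pool.Agent.Lib.H99L.Y3

/-!
# The existence of data is a closed condition
-/

namespace Pool.Agent.H99L

open Module Polynomial Filter Topology

/-- Chunk Y4 (size L, but the proof is copied). **Closedness.**

PROOF. Copy the proof of `Pool.Agent.H43GS.relFam_of_mem_closure` (file `H43/GS/Fam.lean`), with
`lam` depending on `i`, `hasDatum_iff` (Y3) instead of `relFam_iff`, and with the relation
`∏ i, ∏ j, z g i j = t g`, which passes to the limit because `t` is continuous. The `z g i j` are
nonzero for `g` in the set because their product is `t g ≠ 0`. -/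
theorem hasDatum_of_mem_closure {κ K L : Type*} [Fintype κ] [NormedField K] [NormedField L]
    [NormedAlgebra K L] [IsAlgClosed L] {G : Type*} [TopologicalSpace G] (c : κ → G → K[X])
    (lam : κ → G → K) (t : G → L) {n : ℕ} (hc : ∀ i g, (c i g).Monic)
    (hn : ∀ i g, (c i g).natDegree = n) (hcc : ∀ i j, Continuous fun g => (c i g).coeff j)
    (hlam : ∀ i g, lam i g ≠ 0) (hlamc : ∀ i, Continuous (lam i)) (ht : ∀ g, t g ≠ 0)
    (htc : Continuous t) {r : ℕ} {g₀ : G}
    (hg₀ : g₀ ∈ closure {g | HasDatum r (fun i => ((c i g).map (algebraMap K L)).roots)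
      (fun i => algebraMap K L (lam i g)) (t g)}) :
    HasDatum r (fun i => ((c i g₀).map (algebraMap K L)).roots)
      (fun i => algebraMap K L (lam i g₀)) (t g₀) := by
  classical
  obtain ⟨u, hu1, hu2⟩ := mem_closure_iff_ultrafilter.1 hg₀
  set A := {g | HasDatum r (fun i => ((c i g).map (algebraMap K L)).roots)
      (fun i => algebraMap K L (lam i g)) (t g)} with hA
  have hlam' : ∀ x g, algebraMap K L (lam x g) ≠ 0 := fun x g => by
    rw [Ne, map_eq_zero]; exact hlam x g
  -- the list of roots
  have hex : ∀ g ∈ A, ∃ (z : κ → Fin r → L) (y : κ → Fin (n - 2 * r) → L),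
      (∀ x, (c x g).map (algebraMap K L) = ((∏ i, (X - C (z x i))) *
        ∏ i, (X - C (algebraMap K L (lam x g) / z x i))) * ∏ j, (X - C (y x j))) ∧
      ∏ x, ∏ i, z x i = t g := by
    intro g hg
    obtain ⟨z, hdvd, hz⟩ := (hasDatum_iff (fun x => (hc x g).map _)).1 hg
    have hy : ∀ x, ∃ y : Fin (n - 2 * r) → L,
        (c x g).map (algebraMap K L) = ((∏ i, (X - C (z x i))) *
        ∏ i, (X - C (algebraMap K L (lam x g) / z x i))) * ∏ j, (X - C (y j)) := by
      intro x
      obtain ⟨Q, hQ⟩ := hdvd x
      have hzm : ((∏ i, (X - C (z x i))) *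
          ∏ i, (X - C (algebraMap K L (lam x g) / z x i))).Monic :=
        (monic_prod_X_sub_C (z x) Finset.univ).mul
          (monic_prod_X_sub_C (fun i => algebraMap K L (lam x g) / z x i) Finset.univ)
      have hQm : Q.Monic := hzm.of_mul_monic_left (hQ ▸ (hc x g).map _)
      have hdeg : Multiset.card Q.roots = n - 2 * r := by
        rw [← (IsAlgClosed.splits Q).natDegree_eq_card_roots]
        have h1 := congrArg natDegree hQ
        rw [natDegree_map, hn x g, hzm.natDegree_mul hQm,
          (monic_prod_X_sub_C (z x) Finset.univ).natDegree_mul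
          (monic_prod_X_sub_C (fun i => algebraMap K L (lam x g) / z x i) Finset.univ),
          natDegree_finsetProd_X_sub_C_eq_card, natDegree_finsetProd_X_sub_C_eq_card,
          Finset.card_univ, Fintype.card_fin] at h1
        omega
      obtain ⟨y, hy⟩ := Pool.Agent.Ord.exists_fin_map _ hdeg
      refine ⟨y, ?_⟩
      rw [hQ]
      congr 1
      have h1 := (IsAlgClosed.splits Q).eq_prod_roots
      rw [hQm.leadingCoeff, C_1, one_mul, hy, Multiset.map_map] at h1
      exact h1
    choose y hy using hy
    exact ⟨z, y, hy, hz⟩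
  choose! z y hzy hprod using hex
  have hcm : ∀ g ∈ A, ∀ x, ∀ s : L, aeval s (c x g) = ((∏ i, (s - z g x i)) *
      ∏ i, (s - algebraMap K L (lam x g) / z g x i)) * ∏ j, (s - y g x j) := by
    intro g hg x s
    rw [← eval_map_algebraMap, hzy g hg x, eval_mul, eval_mul, eval_prod, eval_prod, eval_prod]
    simp only [eval_sub, eval_X, eval_C]
  have hlimc : ∀ x i, Tendsto (fun g => (c x g).coeff i) u (𝓝 ((c x g₀).coeff i)) := fun x i =>
    ((hcc x i).tendsto g₀).mono_left hu2
  have hlimlam : ∀ x, Tendsto (fun g => algebraMap K L (lam x g)) u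
      (𝓝 (algebraMap K L (lam x g₀))) := fun x =>
    (((continuous_algebraMap K L).comp (hlamc x)).tendsto g₀).mono_left hu2
  have hA' : ∀ᶠ g in (u : Filter G), g ∈ A := hu1
  have hroot := fun x => Pool.Agent.H43GS.exists_root_limit (L := L) u (c x) (c x g₀) (hc x) (hc x g₀) (hn x)
    (hn x g₀) (hlimc x)
  -- limits
  have hz : ∀ x i, ∃ b, Tendsto (fun g => z g x i) u (𝓝 b) := by
    intro x i
    apply hroot x
    filter_upwards [hA'] with g hg
    rw [hcm g hg, Finset.prod_eq_zero (Finset.mem_univ i) (sub_self _), zero_mul, zero_mul]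
  have hz' : ∀ x i, ∃ b, Tendsto (fun g => algebraMap K L (lam x g) / z g x i) u (𝓝 b) := by
    intro x i
    apply hroot x
    filter_upwards [hA'] with g hg
    rw [hcm g hg, Finset.prod_eq_zero (i := i) (s := Finset.univ)
      (f := fun j => algebraMap K L (lam x g) / z g x i - algebraMap K L (lam x g) / z g x j)
      (Finset.mem_univ i) (sub_self _), mul_zero, zero_mul]
  have hy' : ∀ x j, ∃ b, Tendsto (fun g => y g x j) u (𝓝 b) := by
    intro x j
    apply hroot x
    filter_upwards [hA'] with g hg
    rw [hcm g hg, Finset.prod_eq_zero (i := j) (s := Finset.univ)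
      (f := fun k => y g x j - y g x k) (Finset.mem_univ j) (sub_self _), mul_zero]
  choose a ha using hz
  choose a' ha' using hz'
  choose b hb using hy'
  -- the relation passes to the limit
  have hrel : ∏ x, ∏ i, a x i = t g₀ := by
    have h1 : Tendsto (fun g => ∏ x, ∏ i, z g x i) u (𝓝 (∏ x, ∏ i, a x i)) :=
      tendsto_finsetProd _ fun x _ => tendsto_finsetProd _ fun i _ => ha x i
    have h2 : Tendsto t u (𝓝 (t g₀)) := (htc.tendsto g₀).mono_left hu2
    refine tendsto_nhds_unique (h1.congr' ?_) h2
    filter_upwards [hA'] with g hg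
    exact hprod g hg
  have haa' : ∀ x i, a x i * a' x i = algebraMap K L (lam x g₀) := by
    intro x i
    refine tendsto_nhds_unique (((ha x i).mul (ha' x i)).congr' ?_) (hlimlam x)
    filter_upwards [hA'] with g hg
    have hz0 : z g x i ≠ 0 := by
      intro h0
      have h1 := hprod g hg
      rw [Finset.prod_eq_zero (Finset.mem_univ x)
        (Finset.prod_eq_zero (Finset.mem_univ i) h0)] at h1
      exact ht g h1.symm
    rw [mul_div_cancel₀ _ hz0]
  have ha0 : ∀ x i, a x i ≠ 0 := by
    intro x i h0
    apply hlam' x g₀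
    rw [← haa' x i, h0, zero_mul]
  have haq : ∀ x i, a' x i = algebraMap K L (lam x g₀) / a x i := by
    intro x i
    rw [eq_div_iff (ha0 x i), mul_comm, haa']
  refine (hasDatum_iff (fun x => (hc x g₀).map _)).2 ⟨a, fun x => ⟨∏ j, (X - C (b x j)), ?_⟩, hrel⟩
  apply Polynomial.funext
  intro s
  rw [eval_map_algebraMap, eval_mul, eval_mul, eval_prod, eval_prod, eval_prod]
  simp only [eval_sub, eval_X, eval_C]
  have h1 : Tendsto (fun g => aeval s (c x g)) u (𝓝 (aeval s (c x g₀))) := by
    have h2 : ∀ g, aeval s (c x g) =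
        ∑ i ∈ Finset.range (n + 1), algebraMap K L ((c x g).coeff i) * s ^ i := by
      intro g
      rw [aeval_eq_sum_range, hn x g]
      refine Finset.sum_congr rfl fun i _ => ?_
      rw [Algebra.smul_def]
    rw [h2]
    simp only [h2]
    refine tendsto_finsetSum _ fun i _ => Tendsto.mul_const _ ?_
    exact ((continuous_algebraMap K L).tendsto _).comp (hlimc x i)
  have h3 : Tendsto (fun g => ((∏ i, (s - z g x i)) *
      ∏ i, (s - algebraMap K L (lam x g) / z g x i)) * ∏ j, (s - y g x j)) u
      (𝓝 (((∏ i, (s - a x i)) * ∏ i, (s - a' x i)) * ∏ j, (s - b x j))) :=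
    ((tendsto_finsetProd _ fun i _ => (ha x i).const_sub s).mul
      (tendsto_finsetProd _ fun i _ => (ha' x i).const_sub s)).mul
      (tendsto_finsetProd _ fun j _ => (hb x j).const_sub s)
  simp only [haq] at h3
  refine tendsto_nhds_unique (h1.congr' ?_) h3
  filter_upwards [hA'] with g hg
  exact hcm g hg x s

end Pool.Agent.H99L
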