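import Mathlib
import Pool.Agent.Lib.H99L.Defs

/-!
# Orbits of nearby elements
-/

namespace Pool.Agent.H99L

/-- Powers of `g * c` for an element `c` of the normal core. -/
theorem y5_pow {G : Type*} [Group G] {Γ : Subgroup G} (g : G) {c : G} (hc : c ∈ Γ.normalCore) (j : ℕ) :
    ∃ c' ∈ Γ.normalCore, (g * c) ^ j = g ^ j * c' := by
  induction j with
  | zero => exact ⟨1, Γ.normalCore.one_mem, by simp⟩
  | succ j ih =>
    obtain ⟨c', hc', he⟩ := ih
    refine ⟨(g⁻¹ * c' * g) * c, Γ.normalCore.mul_mem ?_ hc, ?_⟩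
    · have := Γ.normalCore_normal.conj_mem c' hc' g⁻¹
      rwa [inv_inv] at this
    · rw [pow_succ, he, pow_succ]
      group

/-- Chunk Y5 (size M). **Elements which differ by an element of the normal core have the same
orbits.**

PROOF. Write `C = Γ.normalCore`, a normal subgroup contained in `Γ`. For all `j` and `y`,
`((g * c) ^ j * y : G ⧸ Γ) = (g ^ j * y : G ⧸ Γ)`: modulo `C` the elements `(g * c) ^ j` and `g ^ j`
agree, so `(g ^ j)⁻¹ * (g * c) ^ j ∈ C`, hence `y⁻¹ * ((g ^ j)⁻¹ * (g * c) ^ j) * y ∈ C ≤ Γ`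
(`QuotientGroup.eq`). So the map in `bij` is the same, and
`(x i)⁻¹ * (g * c) ^ f i * x i = ((x i)⁻¹ * g ^ f i * x i) * (element of C)` lies in `Γ`. -/
theorem IsOrbits.mul_core {G : Type*} [Group G] {Γ : Subgroup G} {g : G} {k : ℕ} {x : Fin k → G}
    {f : Fin k → ℕ} (ho : IsOrbits Γ g x f) {c : G} (hc : c ∈ Γ.normalCore) :
    IsOrbits Γ (g * c) x f := by
  have key := y5_pow (Γ := Γ) g hc
  have hcore : Γ.normalCore ≤ Γ := Γ.normalCore_le
  refine ⟨ho.pos, fun i => ?_, ?_⟩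
  · obtain ⟨c', hc', he⟩ := key (f i)
    rw [he]
    have e1 : (x i)⁻¹ * (g ^ f i * c') * x i = ((x i)⁻¹ * g ^ f i * x i) * ((x i)⁻¹ * c' * x i) := by group
    rw [e1]
    refine Γ.mul_mem (ho.mem i) (hcore ?_)
    have := Γ.normalCore_normal.conj_mem c' hc' (x i)⁻¹
    rwa [inv_inv] at this
  · have e2 : (fun s : (Σ i : Fin k, Fin (f i)) => (((g * c) ^ (s.2 : ℕ) * x s.1 : G) : G ⧸ Γ)) =
        fun s : (Σ i : Fin k, Fin (f i)) => ((g ^ (s.2 : ℕ) * x s.1 : G) : G ⧸ Γ) := by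
      funext s
      obtain ⟨c', hc', he⟩ := key (s.2 : ℕ)
      rw [he]
      refine QuotientGroup.eq.2 (hcore ?_)
      have e3 : (g ^ (s.2 : ℕ) * c' * x s.1)⁻¹ * (g ^ (s.2 : ℕ) * x s.1) = (x s.1)⁻¹ * c'⁻¹ * x s.1 := by group
      rw [e3]
      have := Γ.normalCore_normal.conj_mem c'⁻¹ (Γ.normalCore.inv_mem hc') (x s.1)⁻¹
      rwa [inv_inv] at this
    rw [e2]
    exact ho.bij

end Pool.Agent.H99L
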