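import Mathlib
import Pool.Agent.Lib.H99L.Defs
import Pool.Agent.Lib.H43.GS.NumField

/-!
# Frobenius powers near a given element
-/

namespace Pool.Agent.H99L

open Pool.Agent.GSem Pool.Agent.Ord

variable {Ω : Type*} [Field Ω] [CharZero Ω] [IsAlgClosure ℚ Ω]

/-- Chunk Y6 (size S/M). **Powers of Frobenius elements near `g`.**

PROOF. See `mem_closure_frob_powers` (file `H43/GS/Main.lean`): `exists_frob_gen N hN g b` gives a
Frobenius element `φ` at some `q > b` with `φ ≡ g ^ k mod N`, `k` coprime to the order of `g` mod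
`N`, and `exists_pow_eq_self_of_coprime` gives `m` with `φ ^ m ≡ g mod N`. To have `0 < m` replace
`m` by `m + e` where `e > 0` is the index of `N` (`φ ^ e ∈ N`, `Subgroup.pow_index_mem`; the
quotient is finite: `finite_quotient N hN`). -/
theorem exists_frob_near (N : Subgroup Gal(Ω/ℚ)) [N.Normal] (hN : IsOpen (N : Set Gal(Ω/ℚ)))
    (g : Gal(Ω/ℚ)) (b : ℕ) : ∃ q : ℕ, b < q ∧ q.Prime ∧ ∃ φ : Gal(Ω/ℚ), IsFrobAt q φ ∧
      ∃ m : ℕ, 0 < m ∧ g⁻¹ * φ ^ m ∈ N := by
  have hG : IsGalois ℚ Ω := isGaloisΩ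
  have hfin := finite_quotient N hN
  obtain ⟨q, hbq, hq, φ, hφ, k, hk, hφk⟩ := exists_frob_gen N hN g b
  obtain ⟨m, hm⟩ := exists_pow_eq_self_of_coprime hk
  rw [← hφk, ← QuotientGroup.mk_pow] at hm
  have h1 : g⁻¹ * φ ^ m ∈ N := QuotientGroup.eq.1 hm.symm
  have h2 : 0 < N.index := by
    rw [Subgroup.index]
    exact Nat.card_pos
  refine ⟨q, hbq, hq, φ, hφ, m + N.index, by omega, ?_⟩
  rw [pow_add, ← mul_assoc]
  exact N.mul_mem h1 (Subgroup.pow_index_mem N φ)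

end Pool.Agent.H99L
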