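import Mathlib
import Pool.Agent.Lib.H99L.Defs

/-!
# Lifting a character of finite order
-/

namespace Pool.Agent.H99L

open Pool.Agent.GSem

/-- Chunk Y7 (size S/M). **A character of finite order takes values in `Ω`.**

PROOF. Let `0 < N`, `ε g ^ N = 1` for all `g` (`isOfFinOrder_iff_pow_eq_one`). The polynomial
`X ^ N - 1` splits in `Ω` (algebraically closed) with `N` distinct roots, and `j` maps them
injectively to roots in `L`, where there are at most `N`: so every `z : L` with `z ^ N = 1` is `j y`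
with `y ^ N = 1` (for instance: `∏_{y ∈ roots} (X - y) = X ^ N - 1` in `Ω`, map to `L` and evaluate at
`z`). Choose `y g` with `j (y g) = i (ε g)`; it is unique by injectivity of `j`, hence
multiplicative; `y g ≠ 0`. Build the homomorphism with `Units.mk0`. Here `i` is the composite
`ℤ_[p]ˣ → ℚ_[p] → L`. -/
theorem exists_eps_lift {p : ℕ} [Fact p.Prime] {Ω L G : Type*} [Field Ω] [CharZero Ω]
    [IsAlgClosed Ω] [Field L] [Algebra ℚ_[p] L] [Group G] (j : Ω →+* L) (ε : G →* ℤ_[p]ˣ)
    (hε : IsOfFinOrder ε) :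
    ∃ e : G →* Ωˣ, ∀ g, j (e g : Ω) = algebraMap ℚ_[p] L (toQ (ε g)) := by
  classical
  obtain ⟨N, hN, hNε⟩ := isOfFinOrder_iff_pow_eq_one.1 hε
  have key : ∀ z : L, z ^ N = 1 → ∃ y : Ω, j y = z := by
    intro z hz
    have hm : (Polynomial.X ^ N - 1 : Polynomial Ω).Monic := Polynomial.monic_X_pow_sub_C 1 hN.ne'
    have h1 := (IsAlgClosed.splits (Polynomial.X ^ N - 1 : Polynomial Ω)).eq_prod_roots_of_monic hm
    have h2 := congrArg (fun P : Polynomial Ω => Polynomial.eval₂ j z P) h1
    rw [Polynomial.eval₂_sub, Polynomial.eval₂_pow, Polynomial.eval₂_X, Polynomial.eval₂_one, hz,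
      sub_self, Polynomial.eval₂_multiset_prod, Multiset.map_map] at h2
    have h3 := Multiset.prod_eq_zero_iff.1 h2.symm
    obtain ⟨y, -, hy⟩ := Multiset.mem_map.1 h3
    refine ⟨y, ?_⟩
    simp only [Function.comp_apply, Polynomial.eval₂_sub, Polynomial.eval₂_X,
      Polynomial.eval₂_C] at hy
    exact (sub_eq_zero.1 hy).symm
  obtain ⟨i, hi⟩ : ∃ i : G → L, i = fun g => algebraMap ℚ_[p] L (toQ (ε g)) := ⟨_, rfl⟩
  have hi1 : i 1 = 1 := by rw [hi]; simp only [map_one]
  have himul : ∀ g h, i (g * h) = i g * i h := fun g h => by rw [hi]; simp only [map_mul]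
  have hiN : ∀ g, i g ^ N = 1 := by
    intro g
    rw [hi]
    simp only
    have h1 : (ε g) ^ N = 1 := by rw [← MonoidHom.pow_apply, hNε, MonoidHom.one_apply]
    rw [← map_pow, ← map_pow, h1, map_one, map_one]
  choose y hy using fun g => key (i g) (hiN g)
  have hy1 : y 1 = 1 := j.injective (by rw [hy, hi1, map_one])
  have hymul : ∀ g h, y (g * h) = y g * y h := fun g h =>
    j.injective (by rw [hy, himul, map_mul, hy, hy])
  let e0 : G →* Ω := { toFun := y, map_one' := hy1, map_mul' := hymul }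
  refine ⟨e0.toHomUnits, fun g => ?_⟩
  rw [MonoidHom.coe_toHomUnits]
  change j (y g) = _
  rw [hy g, hi]

end Pool.Agent.H99L
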