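import Mathlib
import Pool.Agent.Lib.H99L.Defs
import Pool.Agent.Lib.H99.PD.Tate2

/-!
# Continuity
-/

namespace Pool.Agent.H99L

open NumberField Module Polynomial Pool.Agent.GSem Pool.Agent.NF

/-- Chunk Y8 (size S/M), first statement. **The kernel of a continuous character of finite order is
open.**

PROOF. `ε.ker` is closed (preimage of the closed set `{1}`), and of finite index: the range of `ε` is
contained in the set of the `u : ℤ_[p]ˣ` with `u ^ N = 1`, `N > 0`, which is finite (roots of
`X ^ N - 1` in the domain `ℤ_[p]`; `rootsOfUnity N ℤ_[p]` is a `Fintype`). Use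
`Subgroup.isOpen_of_isClosed_of_finiteIndex`. -/
theorem isOpen_ker {p : ℕ} [Fact p.Prime] {G : Type*} [Group G] [TopologicalSpace G]
    [IsTopologicalGroup G] (ε : G →* ℤ_[p]ˣ) (hc : Continuous ε) (hε : IsOfFinOrder ε) :
    IsOpen (ε.ker : Set G) := by
  obtain ⟨M, hM, hM'⟩ := isOfFinOrder_iff_pow_eq_one.1 hε
  have hne : NeZero M := ⟨hM.ne'⟩
  have hfin : Finite (rootsOfUnity M ℤ_[p]) := inferInstance
  have hrange : ∀ g, ε g ∈ rootsOfUnity M ℤ_[p] := by
    intro g
    rw [mem_rootsOfUnity]
    exact DFunLike.congr_fun hM' g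
  have hfr : Finite ε.range := by
    have h1 : (ε.range : Set ℤ_[p]ˣ) ⊆ (rootsOfUnity M ℤ_[p] : Set ℤ_[p]ˣ) := by
      rintro _ ⟨g, rfl⟩
      exact hrange g
    exact (Set.toFinite (rootsOfUnity M ℤ_[p] : Set ℤ_[p]ˣ)).subset h1
  have hfi : ε.ker.FiniteIndex := Subgroup.finiteIndex_ker ε
  have hcl : IsClosed (ε.ker : Set G) := by
    have h1 : (ε.ker : Set G) = ε ⁻¹' {1} := by
      ext g
      rfl
    rw [h1]
    exact isClosed_singleton.preimage hc
  exact Subgroup.isOpen_of_isClosed_of_finiteIndex _ hcl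

/-- Chunk Y8, second statement. **A homomorphism with open kernel is continuous for every
topology.**

PROOF. It is locally constant: on the open neighbourhood `g * ψ.ker` of `g` it is constant
(`continuous_iff_continuousAt`, `ContinuousAt` of an eventually constant function). -/
theorem continuous_of_isOpen_ker {G A : Type*} [Group G] [TopologicalSpace G]
    [IsTopologicalGroup G] [Group A] [TopologicalSpace A] (ψ : G →* A)
    (h : IsOpen (ψ.ker : Set G)) : Continuous ψ := by
  rw [continuous_iff_continuousAt]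
  intro g
  have h1 : IsOpen ((fun y => g⁻¹ * y) ⁻¹' (ψ.ker : Set G)) :=
    h.preimage (continuous_const_mul g⁻¹)
  have h2 : ((fun y => g⁻¹ * y) ⁻¹' (ψ.ker : Set G)) ∈ nhds g := by
    refine h1.mem_nhds ?_
    rw [Set.mem_preimage, inv_mul_cancel]
    exact ψ.ker.one_mem
  have h3 : ψ =ᶠ[nhds g] fun _ => ψ g := by
    filter_upwards [h2] with y hy
    have h4 : ψ (g⁻¹ * y) = 1 := hy
    rw [map_mul, map_inv, inv_mul_eq_one] at h4
    exact h4.symm
  exact (continuousAt_congr h3).2 continuousAt_const

/-- Chunk Y8, third statement. **The powers of the cyclotomic character are continuous.**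

PROOF. See the end of `semisimple_everywhere_numField` (file `H43/GS/Main2.lean`, `hlamc`). -/
theorem continuous_chi (l : ℕ) [Fact l.Prime] {Ω : Type*} [Field Ω] [CharZero Ω] (a : ℤ) :
    Continuous fun g : Gal(Ω/ℚ) => chi l g a := by
  have htoQ : Continuous fun u : ℤ_[l]ˣ => (toQ u : ℚ_[l]) := by
    have h0 : Continuous (fun x : ℤ_[l] => (x : ℚ_[l])) := continuous_subtype_val
    exact h0.comp Units.continuous_val
  have h1 : (fun g : Gal(Ω/ℚ) => chi l g a) = fun g => toQ ((cyc l Ω g) ^ a) := by
    funext g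
    rw [map_zpow, chi]
  rw [h1]
  exact htoQ.comp ((continuous_cyc l Ω).zpow _)

end Pool.Agent.H99L
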