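import Mathlib
import Pool.Agent.Lib.H99L.Defs
import Pool.Agent.Lib.H43.GS.Main

/-!
# Continuity of characteristic polynomials
-/

namespace Pool.Agent.H99L

open NumberField Module Polynomial Pool.Agent.GSem Pool.Agent.NF

/-- Chunk Y9 (size S/M). **The coefficients of the characteristic polynomials are continuous.**

PROOF. See the end of `semisimple_everywhere_numField` (file `H43/GS/Main2.lean`, `hcont`), with
`continuous_charpoly_coeff`. -/
theorem continuous_coeff {l : ℕ} [Fact l.Prime] {Ω : Type*} [Field Ω] [CharZero Ω]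
    {Γ : Subgroup Gal(Ω/ℚ)} {U : Type*} [AddCommGroup U] [Module ℚ_[l] U]
    [FiniteDimensional ℚ_[l] U] (θ : Representation ℚ_[l] Γ U) (hθ : IsContRep θ) (i : ℕ) :
    Continuous fun g : Γ => (θ g).charpoly.coeff i := by
  let bU := Module.finBasis ℚ_[l] U
  have h1 : (fun g : Γ => (θ g).charpoly.coeff i) =
      (fun M : Matrix (Fin (finrank ℚ_[l] U)) (Fin (finrank ℚ_[l] U)) ℚ_[l] =>
        M.charpoly.coeff i) ∘ fun g : Γ => LinearMap.toMatrix bU bU (θ g) := by
    funext g
    rw [Function.comp_apply, LinearMap.charpoly_toMatrix]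
  rw [h1]
  refine (Pool.Agent.Ord.continuous_charpoly_coeff i).comp (continuous_matrix fun a c => ?_)
  have h2 : (fun g : Γ => LinearMap.toMatrix bU bU (θ g) a c) =
      fun g : Γ => (bU.coord a) (θ g (bU c)) := by
    funext g
    rw [LinearMap.toMatrix_apply]
    rfl
  rw [h2]
  exact hθ _ _

end Pool.Agent.H99L
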