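import Mathlib
import Pool.Agent.Lib.H99L.Y4
import Pool.Agent.Lib.H99L.Y5
import Pool.Agent.Lib.H99L.Y6
import Pool.Agent.Lib.H99L.Y7
import Pool.Agent.Lib.H99L.Y8
import Pool.Agent.Lib.H99L.Y9
import Pool.Agent.Lib.H99L.Y10

/-!
# The clause for the other members of the system
-/

namespace Pool.Agent.H99L

open NumberField Module Polynomial Pool.Agent.GSem Pool.Agent.NF Filter Topology

variable {p : ℕ} [hp : Fact p.Prime] {Ω : Type*} [Field Ω] [CharZero Ω] [IsAlgClosure ℚ Ω]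
variable {Γ : Subgroup Gal(Ω/ℚ)} {V : Type*} [AddCommGroup V] [Module ℚ_[p] V]
  [FiniteDimensional ℚ_[p] V]

/-- Chunk Y11 (size L). **The system clause follows from the element clause.**

PROOF. Compare `semisimple_everywhere_numField` (file `H43/GS/Main2.lean`). Fix `l`, `m`, `θ`, and
`b` from `IsCompat`. Choose embeddings `jp : Ω →+* AlgebraicClosure ℚ_[p]`,
`jl : Ω →+* AlgebraicClosure ℚ_[l]` (`IsAlgClosed.lift`). `exists_eps_lift` (Y7) gives
`e : Gal(Ω/ℚ) →* Ωˣ` with `jp (e g) = algebraMap (toQ (ε g))`. Put `ε' = (Units.map jl).comp e`;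
`ε'.ker = e.ker = ε.ker` (`jl`, `jp`, `algebraMap` and `toQ` are injective, `toQ_injective`).
Let `g`, `k`, `x`, `f`, `ho` be given. Let `G' = {g' // ∀ i, (x i)⁻¹ * g' ^ f i * x i ∈ Γ}`, with the
subspace topology, `g₀ = ⟨g, ho.mem⟩`. Apply `hasDatum_of_mem_closure` (Y4) on `G'` with
`K = ℚ_[l]`, `L = PadicAlgCl l`, `κ = Fin k`,
`c i g' = (θ ⟨(x i)⁻¹ * g' ^ f i * x i, _⟩).charpoly` (continuous coefficients: Y9 composed with the
continuous map `G' → Γ`), `lam i g' = chi l g' (-(w * f i))` (continuous by `continuous_chi`,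
nonzero: `toQ_ne_zero`, `zpow_ne_zero`), `t g' = ε' g' * algebraMap (chi l g' (-H))` (`ε'` is
continuous as a map to `(PadicAlgCl l)ˣ` by `continuous_of_isOpen_ker`, its kernel `ε.ker` is open by
`isOpen_ker`; compose with `Units.continuous_val`). The condition at `g₀` is the claim
(`HasDatum` unfolds to it; `rts` is `roots` of `map (algebraMap ..)`, and `PadicAlgCl l` is
`AlgebraicClosure ℚ_[l]`).
Remains `g₀ ∈ closure {g' | datum}`: let `O` be an open neighbourhood of `g₀` in `G'`, the trace of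
an open set `O'` of `Gal(Ω/ℚ)`. The normal core `C` of `Γ` is open
(see `mem_closure_frob_core` in `H43/GS/NumField.lean`), so `(fun y => g * y) ⁻¹' (O' )  ∩ C` is an
open neighbourhood of `1` and contains an open normal subgroup `N`
(`ProfiniteGrp.exist_openNormalSubgroup_sub_open_nhds_of_one`). `exists_frob_near` (Y6) gives
`q > max b (max l p)`, a Frobenius element `φ` at `q`, and `m > 0` with `g⁻¹ * φ ^ m ∈ N`. So
`φ ^ m = g * c` with `c ∈ C`, `IsOrbits Γ (φ ^ m) x f` by Y5, `φ ^ m ∈ O'`, and the datum at `φ ^ m` is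
`datum_frob` (Y10). -/
theorem systemClause (hΓ : IsOpen (Γ : Set Gal(Ω/ℚ))) (ρ : Representation ℚ_[p] Γ V) (w : ℤ)
    (W : Submodule ℚ_[p] V) (hW : ∀ g, ∀ x ∈ W, ρ g x ∈ W) (ε : Gal(Ω/ℚ) →* ℤ_[p]ˣ)
    (hεc : Continuous ε) (hε : IsOfFinOrder ε) (H : ℤ) (hel : ElementClause ρ w W ε H) :
    SystemClause ρ w (finrank ℚ_[p] W) ε H := by
  classical
  intro l _ m θ hθ hcompat
  obtain ⟨b, hb⟩ := hcompat
  have _ : IsAlgClosed Ω := IsAlgClosure.isAlgClosed ℚ
  have _ : Algebra.IsAlgebraic ℚ Ω := IsAlgClosure.isAlgebraic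
  have _ : IsGalois ℚ Ω := IsAlgClosure.isGalois ℚ Ω
  let jp : Ω →+* AlgebraicClosure ℚ_[p] :=
    (IsAlgClosed.lift : Ω →ₐ[ℚ] AlgebraicClosure ℚ_[p]).toRingHom
  let jl : Ω →+* AlgebraicClosure ℚ_[l] :=
    (IsAlgClosed.lift : Ω →ₐ[ℚ] AlgebraicClosure ℚ_[l]).toRingHom
  obtain ⟨e, he⟩ := exists_eps_lift (L := AlgebraicClosure ℚ_[p]) jp ε hε
  let ε' : Gal(Ω/ℚ) →* (AlgebraicClosure ℚ_[l])ˣ :=
    (Units.map (jl : Ω →* AlgebraicClosure ℚ_[l])).comp e
  have hker : ε'.ker = ε.ker := by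
    ext g
    rw [MonoidHom.mem_ker, MonoidHom.mem_ker]
    constructor
    · intro h
      have h1 : jl (e g : Ω) = 1 := congrArg Units.val h
      have h2 : (e g : Ω) = 1 := jl.injective (by rw [h1, map_one])
      have h3 := he g
      rw [h2, map_one] at h3
      have h4 : toQ (ε g) = 1 :=
        (algebraMap ℚ_[p] (AlgebraicClosure ℚ_[p])).injective (by rw [← h3, map_one])
      exact toQ_injective (by rw [h4, map_one])
    · intro h
      have h3 := he g
      rw [h, map_one, map_one] at h3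
      have h2 : (e g : Ω) = 1 := jp.injective (by rw [h3, map_one])
      apply Units.ext
      change jl (e g : Ω) = 1
      rw [h2, map_one]
  refine ⟨ε', hker, fun g k x f ho => ?_⟩
  let c : Fin k → {g' : Gal(Ω/ℚ) // ∀ i, (x i)⁻¹ * g' ^ f i * x i ∈ Γ} → ℚ_[l][X] :=
    fun i g' => (θ ⟨(x i)⁻¹ * (g' : Gal(Ω/ℚ)) ^ f i * x i, g'.2 i⟩).charpoly
  let lam : Fin k → {g' : Gal(Ω/ℚ) // ∀ i, (x i)⁻¹ * g' ^ f i * x i ∈ Γ} → ℚ_[l] :=
    fun i g' => chi l (g' : Gal(Ω/ℚ)) (-(w * f i))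
  let t : {g' : Gal(Ω/ℚ) // ∀ i, (x i)⁻¹ * g' ^ f i * x i ∈ Γ} → PadicAlgCl l :=
    fun g' => ((ε' (g' : Gal(Ω/ℚ)) : (AlgebraicClosure ℚ_[l])ˣ) : AlgebraicClosure ℚ_[l]) *
      algebraMap ℚ_[l] (PadicAlgCl l) (chi l (g' : Gal(Ω/ℚ)) (-H))
  have hcc : ∀ i j, Continuous fun g' => (c i g').coeff j := by
    intro i j
    have h1 : Continuous fun g' : {g' : Gal(Ω/ℚ) // ∀ i, (x i)⁻¹ * g' ^ f i * x i ∈ Γ} =>
        (⟨(x i)⁻¹ * (g' : Gal(Ω/ℚ)) ^ f i * x i, g'.2 i⟩ : Γ) := by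
      refine Continuous.subtype_mk ?_ _
      exact (continuous_const.mul (continuous_subtype_val.pow _)).mul continuous_const
    exact (continuous_coeff θ hθ j).comp h1
  have hε'c : Continuous (fun g' : Gal(Ω/ℚ) => ((ε' g' : (PadicAlgCl l)ˣ) : PadicAlgCl l)) := by
    have h1 : Continuous (ε' : Gal(Ω/ℚ) → (PadicAlgCl l)ˣ) :=
      continuous_of_isOpen_ker (A := (PadicAlgCl l)ˣ) ε' (by
        rw [hker]; exact isOpen_ker ε hεc hε)
    exact Units.continuous_val.comp h1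
  have htc : Continuous t := by
    refine (hε'c.comp continuous_subtype_val).mul ?_
    exact (continuous_algebraMap ℚ_[l] (PadicAlgCl l)).comp
      ((continuous_chi l (-H)).comp continuous_subtype_val)
  have hchi0 : ∀ (g' : Gal(Ω/ℚ)) (a : ℤ), chi l g' a ≠ 0 := fun g' a =>
    zpow_ne_zero _ (toQ_ne_zero _)
  have hcl : (⟨g, ho.mem⟩ : {g' : Gal(Ω/ℚ) // ∀ i, (x i)⁻¹ * g' ^ f i * x i ∈ Γ}) ∈
      closure {g' | HasDatum (finrank ℚ_[p] W)
        (fun i => ((c i g').map (algebraMap ℚ_[l] (PadicAlgCl l))).roots)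
        (fun i => algebraMap ℚ_[l] (PadicAlgCl l) (lam i g')) (t g')} := by
    rw [mem_closure_iff]
    intro O hO hgO
    obtain ⟨O', hO', rfl⟩ := isOpen_induced_iff.1 hO
    have hfinΓ : Γ.FiniteIndex := by
      have := Subgroup.quotient_finite_of_isOpen Γ hΓ
      exact Subgroup.finiteIndex_of_finite_quotient
    have hcore : IsOpen (Γ.normalCore : Set Gal(Ω/ℚ)) := by
      have hcl : IsClosed (Γ : Set Gal(Ω/ℚ)) := Subgroup.isClosed_of_isOpen Γ hΓ
      have hcl' : IsClosed (Γ.normalCore : Set Gal(Ω/ℚ)) := Γ.normalCore_isClosed hcl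
      exact Subgroup.isOpen_of_isClosed_of_finiteIndex _ hcl'
    have hU : IsOpen (((fun y => g * y) ⁻¹' O') ∩ Γ.normalCore) :=
      (hO'.preimage (continuous_const_mul g)).inter hcore
    obtain ⟨N, hN⟩ := ProfiniteGrp.exist_openNormalSubgroup_sub_open_nhds_of_one hU
      ⟨by rw [Set.mem_preimage, mul_one]; exact hgO, Γ.normalCore.one_mem⟩
    have hNn : N.toSubgroup.Normal := N.isNormal'
    obtain ⟨q, hq1, hq, φ, hφ, m', hm', hφm⟩ := exists_frob_near N.toSubgroup N.isOpen' g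
      (max b (max l p))
    have hbq : b < q := lt_of_le_of_lt (le_max_left _ _) hq1
    have hlq : l < q := lt_of_le_of_lt ((le_max_left _ _).trans (le_max_right _ _)) hq1
    have hpq : p < q := lt_of_le_of_lt ((le_max_right _ _).trans (le_max_right _ _)) hq1
    obtain ⟨h1, h2⟩ := hN hφm
    have h3 : g * (g⁻¹ * φ ^ m') = φ ^ m' := mul_inv_cancel_left _ _
    have ho' : IsOrbits Γ (φ ^ m') x f := by
      have h4 := ho.mul_core h2
      rwa [h3] at h4
    rw [Set.mem_preimage, h3] at h1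
    refine ⟨⟨φ ^ m', ho'.mem⟩, h1, ?_⟩
    exact datum_frob ρ w W hW ε H hel jp jl e he θ hb hbq hpq hlq hq hφ hm' ho'
  have key := hasDatum_of_mem_closure (K := ℚ_[l]) (L := PadicAlgCl l) c lam t
    (n := finrank ℚ_[l] (Fin m → ℚ_[l])) (fun i g' => LinearMap.charpoly_monic _)
    (fun i g' => LinearMap.charpoly_natDegree _) hcc (fun i g' => hchi0 _ _)
    (fun i => (continuous_chi l _).comp continuous_subtype_val)
    (fun g' => mul_ne_zero (Units.ne_zero _)
      ((map_ne_zero (algebraMap ℚ_[l] (PadicAlgCl l))).2 (hchi0 _ _))) htc hcl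
  exact key

end Pool.Agent.H99L
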