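import Mathlib
import Pool.Agent.Lib.H99L.E2
import Pool.Agent.Lib.H99L.Defs

/-!
# The clause for all elements
-/

namespace Pool.Agent.H99L

open NumberField Module Polynomial Pool.Agent.GSem Pool.Agent.NF

variable {p : ℕ} [hp : Fact p.Prime] {Ω : Type*} [Field Ω] [CharZero Ω]
variable {Γ : Subgroup Gal(Ω/ℚ)} {V : Type*} [AddCommGroup V] [Module ℚ_[p] V]
  [FiniteDimensional ℚ_[p] V]

/-- The element clause, from the product relation. -/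
theorem elementClause (ρ : Representation ℚ_[p] Γ V) (w : ℤ)
    (B : V →ₗ[ℚ_[p]] V →ₗ[ℚ_[p]] ℚ_[p]) (hB : IsPol ρ w B) (W : Submodule ℚ_[p] V)
    (hW : ∀ g, ∀ x ∈ W, ρ g x ∈ W) (hiso : ∀ x ∈ W, ∀ y ∈ W, B x y = 0)
    (ε : Gal(Ω/ℚ) →* ℤ_[p]ˣ) (H : ℤ)
    (hdet : ∀ (g : Gal(Ω/ℚ)) (k : ℕ) (x : Fin k → Gal(Ω/ℚ)) (f : Fin k → ℕ)
      (ho : IsOrbits Γ g x f),
        ∏ i, detG ρ W hW (ho.elt i) = toQ (ε g) * chi p g (-H)) :
    ElementClause ρ w W ε H := by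
  intro g k x f ho
  refine ⟨fun i => ?_, ?_⟩
  · have hχ : chi p g (-(w * f i)) ≠ 0 := zpow_ne_zero _ (toQ_ne_zero _)
    refine isoIn_eig (ρ (ho.elt i)) B _ hχ hB.1 (fun a b => ?_) W (hW _) hiso
    rw [hB.2]
    congr 1
    have h1 : cyc p Ω ((ho.elt i : Γ) : Gal(Ω/ℚ)) = cyc p Ω g ^ f i := by
      change cyc p Ω ((x i)⁻¹ * g ^ f i * x i) = _
      rw [cyc_conj, map_pow]
    rw [h1, map_pow, ← zpow_natCast, ← zpow_mul, chi]
    congr 1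
    ring
  · rw [← hdet g k x f ho, map_prod]
    refine Finset.prod_congr rfl fun i _ => ?_
    exact prod_eig _ _ (hW _)

end Pool.Agent.H99L
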