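import Mathlib
import Pool.Agent.Lib.H99L.S1
import Pool.Agent.Lib.H99L.T3
import Pool.Agent.Lib.H99L.D5
import Pool.Agent.Lib.H99L.D7
import Pool.Agent.Lib.H99L.M8
import Pool.Agent.Lib.H99L.Y11
import Pool.Agent.Lib.H99L.Z1

/-!
# The local test theorem
-/

namespace Pool.Agent.H99L

open NumberField TensorProduct Module Polynomial Pool.Agent.GSem Pool.Agent.NF

theorem local_test {p : ℕ} [Fact p.Prime] {Ω : Type*} [Field Ω] [CharZero Ω] [IsAlgClosure ℚ Ω]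
    (F : IntermediateField ℚ Ω) [NumberField F]
    {V : Type*} [AddCommGroup V] [Module ℚ_[p] V] [FiniteDimensional ℚ_[p] V]
    (ρ : Representation ℚ_[p] F.fixingSubgroup V) (hρ : IsContRep ρ) (w : ℤ)
    (B : V →ₗ[ℚ_[p]] V →ₗ[ℚ_[p]] ℚ_[p]) (hB : IsPol ρ w B) {n : ℕ}
    (h : (F →+* PadicAlgCl p) → Fin n → ℤ)
    (hHT : ∀ ι : Ω →+* PadicAlgCl p, ∃ e : Basis (Fin n) ℂ_[p] (ℂ_[p] ⊗[ℚ_[p]] V),
      IsHTBasisAt ι ρ (h (ι.comp (algebraMap F Ω))) e)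
    (hpure : IsPureAbove ρ w) (hns : ¬ IsSemisimpleRep ρ) :
    ∃ (W : Submodule ℚ_[p] V) (ε : Gal(Ω/ℚ) →* ℤ_[p]ˣ) (H : ℤ),
      IsIrredSub ρ W ∧ (∀ x ∈ W, ∀ y ∈ W, B x y = 0) ∧
      (¬ ∃ W' : Submodule ℚ_[p] V, IsStable ρ W' ∧ IsCompl W W') ∧
      2 * finrank ℚ_[p] W ≤ n ∧ 2 * H = w * (finrank ℚ_[p] W * finrank ℚ F) ∧
      Continuous ε ∧ IsOfFinOrder ε ∧ HTClause w (finrank ℚ_[p] W) H h ∧
      ElementClause ρ w W ε H ∧ MonodromyClause ρ w W ∧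
      SystemClause ρ w (finrank ℚ_[p] W) ε H := by
  classical
  have _ : IsAlgClosed Ω := IsAlgClosure.isAlgClosed ℚ
  have _ : Algebra.IsAlgebraic ℚ Ω := IsAlgClosure.isAlgebraic
  have _ : IsGalois ℚ Ω := IsAlgClosure.isGalois ℚ Ω
  have hopen : IsOpen (F.fixingSubgroup : Set Gal(Ω/ℚ)) :=
    IntermediateField.fixingSubgroup_isOpen F
  have hfinq : Finite (Gal(Ω/ℚ) ⧸ F.fixingSubgroup) := Subgroup.quotient_finite_of_isOpen _ hopen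
  have hfi : F.fixingSubgroup.FiniteIndex := Subgroup.finiteIndex_of_finite_quotient
  let _ : Fintype (Gal(Ω/ℚ) ⧸ F.fixingSubgroup) := Fintype.ofFinite _
  obtain ⟨W, hirr, hiso, hnc⟩ := exists_irred_isotropic ρ w B hB hns
  have hW : ∀ g, ∀ x ∈ W, ρ g x ∈ W := hirr.2.1
  obtain ⟨D, hDw, hDc, hDi, hDp⟩ := exists_ht_family F ρ w B hB h hHT W hW hiso
  obtain ⟨ι₀⟩ : Nonempty (Ω →+* PadicAlgCl p) := by
    obtain ⟨f⟩ : Nonempty (Ω →ₐ[ℚ] PadicAlgCl p) := ⟨IsAlgClosed.lift⟩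
    exact ⟨f⟩
  have hdet := fun x : Gal(Ω/ℚ) ⧸ F.fixingSubgroup =>
    det_wts ρ W hW (hDw (twistEmb ι₀ x.out))
  obtain ⟨ε, hεc, hε, hdetε⟩ := exists_eps hopen ι₀ ρ hρ W hW _ hdet
  have hsum := sum_weights hopen ι₀ ρ hρ w hpure W hW _ hdet
  have hbij := embOf_bijective F ι₀
  have hH : ∑ x : Gal(Ω/ℚ) ⧸ F.fixingSubgroup,
      (D ((twistEmb ι₀ x.out).comp (algebraMap F Ω))).sum = ∑ σ, (D σ).sum :=
    Fintype.sum_bijective (embOf F ι₀) hbij _ _ fun x => rfl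
  have hcard : Fintype.card (Gal(Ω/ℚ) ⧸ F.fixingSubgroup) = finrank ℚ F := by
    rw [Fintype.card_of_bijective hbij, ← AlgHom.card ℚ F (PadicAlgCl p)]
    exact Fintype.card_congr (RingHom.equivRatAlgHom F (PadicAlgCl p))
  have hH2 : 2 * ∑ σ, (D σ).sum = w * (finrank ℚ_[p] W * finrank ℚ F) := by
    rw [← hH, hsum, hcard]
    ring
  rw [hH] at hdetε
  have hel := elementClause ρ w B hB W hW hiso ε _ hdetε
  refine ⟨W, ε, ∑ σ, (D σ).sum, hirr, hiso, hnc, ?_, hH2, hεc, hε,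
    ⟨D, hDc, hDi, hDp, rfl⟩, hel, ?_, ?_⟩
  · have h1 := isotropic_bound B ⊤ W le_top hiso (fun x _ hx => hB.1 x (fun y => hx y trivial))
    rw [finrank_top] at h1
    obtain ⟨e, -⟩ := hHT ι₀
    have h2 : finrank ℂ_[p] (ℂ_[p] ⊗[ℚ_[p]] V) = n := by
      rw [finrank_eq_card_basis e, Fintype.card_fin]
    rw [finrank_baseChange] at h2
    rwa [h2] at h1
  · refine monodromyClause ρ w B hB W hW hiso ε hε _ ?_ hdetε
    rw [hH2, Nat.card_eq_fintype_card, hcard]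
  · exact systemClause hopen ρ w W hW ε hεc hε _ hel

end Pool.Agent.H99L
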