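import Mathlib
import Pool.Agent.Lib.H4S.FA2
import Pool.Agent.Lib.H99L.Defs
import Pool.Agent.Lib.H99.PD.LocalFrob

/-!
# Rigid slopes: definitions and the theorem of Kronecker
-/

namespace Pool.Agent.H99L

open NumberField Module Polynomial Pool.Agent.GSem Pool.Agent.NF

/-- The absolute values of the roots of `P` in the algebraic closure of `ℚ_[q]`. -/
noncomputable def rootNorms (q : ℕ) [Fact q.Prime] (P : ℤ[X]) : Multiset ℝ :=
  (P.map (algebraMap ℤ (PadicAlgCl q))).roots.map fun z => ‖z‖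

/-- `{c, ..., c}` is the only multiset `D` with `r` elements and product `c ^ r` such that `D` and
`c ^ 2 / D` are together contained in `N`. -/
def IsRigid (c : ℝ) (r : ℕ) (N : Multiset ℝ) : Prop :=
  ∀ D : Multiset ℝ, Multiset.card D = r → IsoIn (c ^ 2) D N → D.prod = c ^ r → ∀ d ∈ D, d = c

/-- The characteristic polynomial of `T` has integer coefficients, its complex roots have absolute
value `q ^ m`, and the absolute values of its roots in the algebraic closure of `ℚ_[q]` are
rigid. -/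
def IsRigidOp {p : ℕ} [Fact p.Prime] {V : Type*} [AddCommGroup V] [Module ℚ_[p] V]
    [FiniteDimensional ℚ_[p] V] (q : ℕ) [Fact q.Prime] (m : ℤ) (r : ℕ) (T : V →ₗ[ℚ_[p]] V) :
    Prop :=
  ∃ P : ℤ[X], T.charpoly = P.map (algebraMap ℤ ℚ_[p]) ∧
    (∀ z : ℂ, aeval z P = 0 → ‖z‖ = (q : ℝ) ^ m) ∧ IsRigid ((q : ℝ) ^ (-m)) r (rootNorms q P)

/-- The same with absolute values `c * q ^ (-m)` and `c⁻¹ * q ^ (-m)` of one root each, and
`q ^ (-m)` of all other roots. -/
def IsK3Op {p : ℕ} [Fact p.Prime] {V : Type*} [AddCommGroup V] [Module ℚ_[p] V]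
    [FiniteDimensional ℚ_[p] V] (q : ℕ) [Fact q.Prime] (m : ℤ) (T : V →ₗ[ℚ_[p]] V) : Prop :=
  ∃ P : ℤ[X], T.charpoly = P.map (algebraMap ℤ ℚ_[p]) ∧
    (∀ z : ℂ, aeval z P = 0 → ‖z‖ = (q : ℝ) ^ m) ∧ ∃ (c : ℝ) (k : ℕ), 0 < c ∧
      rootNorms q P = {c * (q : ℝ) ^ (-m), c⁻¹ * (q : ℝ) ^ (-m)} +
        Multiset.replicate k ((q : ℝ) ^ (-m))

/-- The absolute values of K3 type are rigid. -/
theorem isRigid_k3 {C c : ℝ} (hC : 0 < C) (hc : 0 < c) (r k : ℕ) :
    IsRigid C r ({c * C, c⁻¹ * C} + Multiset.replicate k C) := by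
  classical
  intro D hD hiso hprod
  have hmem : ∀ d ∈ D, d = c * C ∨ d = c⁻¹ * C ∨ d = C := by
    intro d hd
    have h1 : d ∈ ({c * C, c⁻¹ * C} + Multiset.replicate k C : Multiset ℝ) :=
      Multiset.mem_of_le hiso (Multiset.mem_add.2 (Or.inl hd))
    rw [Multiset.mem_add] at h1
    rcases h1 with h1 | h1
    · rw [Multiset.insert_eq_cons, Multiset.mem_cons, Multiset.mem_singleton] at h1
      rcases h1 with h1 | h1
      · exact Or.inl h1
      · exact Or.inr (Or.inl h1)
    · exact Or.inr (Or.inr (Multiset.eq_of_mem_replicate h1))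
  rcases eq_or_ne c 1 with hc1 | hc1
  · subst hc1
    intro d hd
    rcases hmem d hd with h | h | h
    · rw [h, one_mul]
    · rw [h, inv_one, one_mul]
    · exact h
  -- no element is `a * C` where `a = c` or `a = c⁻¹`
  have key : ∀ a : ℝ, 0 < a → a ≠ 1 →
      (∀ d ∈ D, d = a * C ∨ d = a⁻¹ * C ∨ d = C) →
      Multiset.count (a * C) (D + D.map (fun d => C ^ 2 / d)) ≤ 1 → a * C ∉ D := by
    intro a ha ha1 hmem hcount hin
    obtain ⟨D', rfl⟩ := Multiset.exists_cons_of_mem hin
    have hD' : ∀ d ∈ D', d = C := by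
      intro d hd
      rcases hmem d (Multiset.mem_cons_of_mem hd) with h | h | h
      · exfalso
        rw [Multiset.count_add, Multiset.count_cons_self] at hcount
        have h1 : 0 < Multiset.count (a * C) D' := Multiset.count_pos.2 (h ▸ hd)
        omega
      · exfalso
        rw [Multiset.count_add, Multiset.count_cons_self] at hcount
        have h1 : a * C ∈ (Multiset.map (fun d => C ^ 2 / d) ((a * C) ::ₘ D')) := by
          rw [Multiset.mem_map]
          refine ⟨d, Multiset.mem_cons_of_mem hd, ?_⟩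
          rw [h]
          field_simp
        have h2 : 0 < Multiset.count (a * C)
            (Multiset.map (fun d => C ^ 2 / d) ((a * C) ::ₘ D')) := Multiset.count_pos.2 h1
        omega
      · exact h
    have h1 : D' = Multiset.replicate (Multiset.card D') C :=
      Multiset.eq_replicate_card.2 hD'
    rw [Multiset.card_cons] at hD
    rw [Multiset.prod_cons, h1, Multiset.prod_replicate, ← hD, pow_succ] at hprod
    have h2 : C ^ Multiset.card D' * C ≠ 0 := mul_ne_zero (pow_ne_zero _ hC.ne') hC.ne'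
    apply ha1
    have h3 : a * (C ^ Multiset.card D' * C) = 1 * (C ^ Multiset.card D' * C) := by
      rw [one_mul]
      calc a * (C ^ Multiset.card D' * C) = a * C * C ^ Multiset.card D' := by ring
        _ = _ := hprod
    exact mul_right_cancel₀ h2 h3
  have hne1 : c * C ≠ C := fun h => hc1 (mul_right_cancel₀ hC.ne' (h.trans (one_mul C).symm))
  have hne2 : c⁻¹ * C ≠ C := fun h => hc1 (by
    have h1 := mul_right_cancel₀ hC.ne' (h.trans (one_mul C).symm)
    rw [← inv_inv c, h1, inv_one])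
  have hne3 : c * C ≠ c⁻¹ * C := fun h => hc1 (by
    have h1 := mul_right_cancel₀ hC.ne' h
    have h2 : c * c = 1 := by
      nth_rewrite 2 [h1]
      exact mul_inv_cancel₀ hc.ne'
    nlinarith)
  have hcnt1 : Multiset.count (c * C) ({c * C, c⁻¹ * C} + Multiset.replicate k C : Multiset ℝ) = 1 := by
    rw [Multiset.count_add, Multiset.insert_eq_cons, Multiset.count_cons_self,
      Multiset.count_singleton, Multiset.count_replicate, if_neg hne3, if_neg hne1.symm]
  have hcnt2 : Multiset.count (c⁻¹ * C)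
      ({c * C, c⁻¹ * C} + Multiset.replicate k C : Multiset ℝ) = 1 := by
    rw [Multiset.count_add, Multiset.insert_eq_cons, Multiset.count_cons_of_ne hne3.symm,
      Multiset.count_singleton_self, Multiset.count_replicate, if_neg hne2.symm]
  have h1 : c * C ∉ D := key c hc hc1 hmem
    ((Multiset.count_le_of_le _ hiso).trans hcnt1.le)
  have h2 : c⁻¹ * C ∉ D := by
    refine key c⁻¹ (inv_pos.2 hc) (fun h => hc1 (by rw [← inv_inv c, h, inv_one])) ?_
      ((Multiset.count_le_of_le _ hiso).trans hcnt2.le)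
    intro d hd
    rw [inv_inv]
    rcases hmem d hd with h | h | h
    · exact Or.inr (Or.inl h)
    · exact Or.inl h
    · exact Or.inr (Or.inr h)
  intro d hd
  rcases hmem d hd with h | h | h
  · exact absurd (h ▸ hd) h1
  · exact absurd (h ▸ hd) h2
  · exact h

theorem IsK3Op.isRigidOp {p : ℕ} [Fact p.Prime] {V : Type*} [AddCommGroup V] [Module ℚ_[p] V]
    [FiniteDimensional ℚ_[p] V] {q : ℕ} [hq : Fact q.Prime] {m : ℤ} {T : V →ₗ[ℚ_[p]] V}
    (h : IsK3Op q m T) (r : ℕ) : IsRigidOp q m r T := by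
  obtain ⟨P, h1, h2, c, k, hc, h3⟩ := h
  refine ⟨P, h1, h2, ?_⟩
  rw [h3]
  exact isRigid_k3 (zpow_pos (by exact_mod_cast hq.out.pos) _) hc r k

/-- The order of a root of unity of degree at most `d`. -/
theorem k_tot {N d : ℕ} (hN : 0 < N) (h : N.totient ≤ d) : N ∣ (2 * d).factorial := by
  rw [Nat.dvd_iff_prime_pow_dvd_dvd]
  intro l k hl hk
  rcases Nat.eq_zero_or_pos k with h0 | h0
  · rw [h0, pow_zero]; exact one_dvd _
  · obtain ⟨j, rfl⟩ : ∃ j, k = j + 1 := ⟨k - 1, by omega⟩
    have h1 : (l ^ (j + 1)).totient ∣ N.totient := Nat.totient_dvd_of_dvd hk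
    have h2 : (l ^ (j + 1)).totient ≤ d := (Nat.le_of_dvd (Nat.totient_pos.2 hN) h1).trans h
    rw [Nat.totient_prime_pow_succ hl] at h2
    have h3 : l ≤ 2 * (l - 1) := by have := hl.two_le; omega
    have h4 : l ^ (j + 1) ≤ 2 * d := by
      calc l ^ (j + 1) = l ^ j * l := pow_succ _ _
        _ ≤ l ^ j * (2 * (l - 1)) := Nat.mul_le_mul_left _ h3
        _ = 2 * (l ^ j * (l - 1)) := by ring
        _ ≤ 2 * d := Nat.mul_le_mul_left _ h2
    exact Nat.dvd_factorial (pow_pos hl.pos _) h4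

theorem k_order {L : Type*} [Field L] [CharZero L] {u : L} {n : ℕ} (hn : 0 < n) (hu : u ^ n = 1)
    {d : ℕ} {Q : ℚ[X]} (hQ : Q ≠ 0) (hd : Q.natDegree ≤ d) (hroot : aeval u Q = 0) :
    u ^ (2 * d).factorial = 1 := by
  have hpos : 0 < orderOf u := orderOf_pos_iff.2 (isOfFinOrder_iff_pow_eq_one.2 ⟨n, hn, hu⟩)
  have h1 := cyclotomic_eq_minpoly_rat (IsPrimitiveRoot.orderOf u) hpos
  have h2 : minpoly ℚ u ∣ Q := minpoly.dvd ℚ u hroot
  have h3 : (orderOf u).totient ≤ d := by
    rw [← natDegree_cyclotomic (orderOf u) ℚ, h1]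
    exact (natDegree_le_of_dvd h2 hQ).trans hd
  exact orderOf_dvd_iff_pow_eq_one.1 (k_tot hpos h3)

end Pool.Agent.H99L
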