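import Mathlib
import Pool.Agent.Lib.H99L.K1

/-!
# Rigid slopes: the eigenvalues are roots of unity times a power of `q`
-/

namespace Pool.Agent.H99L

open NumberField Module Polynomial Pool.Agent.GSem Pool.Agent.NF

theorem k_roots {L K : Type*} [Field L] [Field K] (P : ℤ[X])
    (hsplit : (P.map (algebraMap ℤ L)).Splits) (j : L →+* K) :
    (P.map (algebraMap ℤ K)).roots = (P.map (algebraMap ℤ L)).roots.map j := by
  rw [← RingHom.ext_int (j.comp (algebraMap ℤ L)) (algebraMap ℤ K), ← Polynomial.map_map,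
    hsplit.roots_map]

theorem k_lift {L A : Type*} (i : L → A) (S : Multiset A) (h : ∀ z ∈ S, ∃ y, i y = z) :
    ∃ S₀ : Multiset L, S₀.map i = S := by
  induction S using Multiset.induction_on with
  | empty => exact ⟨0, rfl⟩
  | cons a s ih =>
    obtain ⟨s₀, hs₀⟩ := ih (fun z hz => h z (Multiset.mem_cons_of_mem hz))
    obtain ⟨b, hb⟩ := h a (Multiset.mem_cons_self a s)
    exact ⟨b ::ₘ s₀, by rw [Multiset.map_cons, hb, hs₀]⟩

theorem k_norm_q (q : ℕ) [Fact q.Prime] : ‖((q : ℕ) : PadicAlgCl q)‖ = ((q : ℝ))⁻¹ := by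
  have h1 : ((q : ℕ) : PadicAlgCl q) = algebraMap ℚ_[q] (PadicAlgCl q) ((q : ℕ) : ℚ_[q]) := by
    rw [map_natCast]
  rw [h1, PadicAlgCl.norm_extends, Padic.norm_p]

theorem k_norm_ne (q l : ℕ) [hq : Fact q.Prime] [hl : Fact l.Prime] (h : q ≠ l) :
    ‖((q : ℕ) : PadicAlgCl l)‖ = 1 := by
  have h1 : ((q : ℕ) : PadicAlgCl l) = algebraMap ℚ_[l] (PadicAlgCl l) ((q : ℕ) : ℚ_[l]) := by
    rw [map_natCast]
  rw [h1, PadicAlgCl.norm_extends]
  rw [Padic.norm_natCast_eq_one_iff]
  exact (Nat.coprime_primes hl.out hq.out).2 h.symm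

theorem k_core_nf {L : Type*} [Field L] [NumberField L] {q : ℕ} [hq : Fact q.Prime] {P : ℤ[X]}
    (hP : P.Monic) (hsplit : (P.map (algebraMap ℤ L)).Splits) {m : ℤ}
    (hpure : ∀ z : ℂ, aeval z P = 0 → ‖z‖ = (q : ℝ) ^ m) {r : ℕ}
    (hrig : IsRigid ((q : ℝ) ^ (-m)) r (rootNorms q P)) {S : Multiset L}
    (hcard : Multiset.card S = r)
    (hS : IsoIn ((q : L) ^ (2 * m)) S (P.map (algebraMap ℤ L)).roots) {ζ : L}
    (hζ : ∃ N, 0 < N ∧ ζ ^ N = 1) (hprod : S.prod = ζ * (q : L) ^ (m * r)) :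
    ∀ z ∈ S, (z / (q : L) ^ m) ^ (2 * P.natDegree).factorial = 1 := by
  classical
  have hq0 : (q : ℝ) ≠ 0 := by exact_mod_cast hq.out.ne_zero
  have hqL : (q : L) ≠ 0 := by exact_mod_cast hq.out.ne_zero
  have hzroot : ∀ z ∈ S, (P.map (algebraMap ℤ L)).IsRoot z := by
    intro z hz
    exact (mem_roots'.1 (Multiset.mem_of_le hS (Multiset.mem_add.2 (Or.inl hz)))).2
  have hzint : ∀ z ∈ S, eval₂ (algebraMap ℤ L) z P = 0 := by
    intro z hz
    rw [← eval_map]
    exact hzroot z hz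
  -- the `q`-adic absolute values
  have hqadic : ∀ (j : L →+* PadicAlgCl q), ∀ z ∈ S, ‖j z‖ = (q : ℝ) ^ (-m) := by
    intro j z hz
    have hjq : ‖j ((q : L))‖ = ((q : ℝ))⁻¹ := by rw [map_natCast, k_norm_q]
    obtain ⟨N, hN, hN1⟩ := hζ
    have hjζ : ‖j ζ‖ = 1 := by
      have h1 : ‖j ζ‖ ^ N = 1 := by rw [← norm_pow, ← map_pow, hN1, map_one, norm_one]
      exact (pow_eq_one_iff_of_nonneg (norm_nonneg _) hN.ne').1 h1
    have hc2 : ((q : ℝ) ^ (-m)) ^ 2 = ‖j ((q : L) ^ (2 * m))‖ := by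
      rw [map_zpow₀, norm_zpow, hjq, inv_zpow', ← zpow_natCast, ← zpow_mul]
      congr 1
      push_cast
      ring
    refine hrig (S.map fun z => ‖j z‖) ?_ ?_ ?_ _ (Multiset.mem_map.2 ⟨z, hz, rfl⟩)
    · rw [Multiset.card_map, hcard]
    · have h1 := Multiset.map_le_map (f := fun z => ‖j z‖) hS
      have h2 : rootNorms q P = Multiset.map (fun z => ‖j z‖) (P.map (algebraMap ℤ L)).roots := by
        have h3 : (P.map (algebraMap ℤ (PadicAlgCl q))).roots =
            Multiset.map j (P.map (algebraMap ℤ L)).roots := k_roots P hsplit j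
        rw [rootNorms, h3, Multiset.map_map]
        rfl
      rw [← h2, Multiset.map_add, Multiset.map_map] at h1
      unfold IsoIn
      rw [Multiset.map_map]
      refine le_trans (le_of_eq ?_) h1
      congr 1
      refine Multiset.map_congr rfl fun z _ => ?_
      simp only [Function.comp_apply]
      rw [map_div₀, norm_div, hc2]
    · have h1 : (S.map fun z => ‖j z‖).prod = ‖j S.prod‖ := by
        have h2 : ‖j S.prod‖ = ((normHom : PadicAlgCl q →*₀ ℝ).toMonoidHom.comp
          (j : L →* PadicAlgCl q)) S.prod := rfl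
        rw [h2, map_multiset_prod]
        rfl
      rw [h1, hprod, map_mul, norm_mul, hjζ, one_mul, map_zpow₀, norm_zpow, hjq, inv_zpow',
        ← zpow_natCast, ← zpow_mul]
      congr 1
      ring
  intro z hz
  -- integrality
  have hint : IsIntegral ℤ (z / (q : L) ^ m) := by
    apply H4S.isIntegral_of_padic
    intro l hl j
    rcases eq_or_ne q l with h | h
    · subst h
      apply le_of_eq
      rw [map_div₀, norm_div, hqadic j z hz, map_zpow₀, norm_zpow, map_natCast, k_norm_q,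
        inv_zpow']
      exact div_self (zpow_ne_zero _ hq0)
    · rw [map_div₀, norm_div, map_zpow₀, norm_zpow, map_natCast, k_norm_ne q l h, one_zpow,
        div_one]
      apply Pool.Agent.PD.norm_le_one_of_isIntegral
      refine ⟨P.map (algebraMap ℤ ℤ_[l]), hP.map _, ?_⟩
      rw [eval₂_map]
      have h1 := congrArg j (hzint z hz)
      rw [hom_eval₂, map_zero] at h1
      rw [← h1]
      congr 1
      exact RingHom.ext_int _ _
  -- complex absolute values
  have hcpx : ∀ φ : L →+* ℂ, ‖φ (z / (q : L) ^ m)‖ = 1 := by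
    intro φ
    have h1 : aeval (φ z) P = 0 := by
      have h1 := congrArg φ (hzint z hz)
      rw [hom_eval₂, map_zero] at h1
      rw [aeval_def, ← h1]
      congr 1
      exact RingHom.ext_int _ _
    rw [map_div₀, norm_div, hpure _ h1, map_zpow₀, norm_zpow, map_natCast, Complex.norm_natCast]
    exact div_self (zpow_ne_zero _ hq0)
  obtain ⟨n, hn, hn1⟩ := NumberField.Embeddings.pow_eq_one_of_norm_eq_one L ℂ hint hcpx
  -- the degree
  refine k_order hn hn1 (Q := (P.map (algebraMap ℤ ℚ)).comp (C ((q : ℚ) ^ m) * X)) ?_ ?_ ?_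
  · intro h
    have h1 : (C ((q : ℚ) ^ m) * X : ℚ[X]).natDegree = 1 :=
      natDegree_C_mul_X _ (zpow_ne_zero _ (by exact_mod_cast hq.out.ne_zero))
    rcases comp_eq_zero_iff.1 h with h2 | h2
    · exact (hP.map (algebraMap ℤ ℚ)).ne_zero h2
    · rw [h2.2, natDegree_C] at h1
      exact zero_ne_one h1
  · refine natDegree_comp_le.trans ?_
    rw [hP.natDegree_map]
    have h1 : (C ((q : ℚ) ^ m) * X : ℚ[X]).natDegree ≤ 1 :=
      (natDegree_C_mul_X _ (zpow_ne_zero _ (by exact_mod_cast hq.out.ne_zero))).le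
    calc P.natDegree * _ ≤ P.natDegree * 1 := Nat.mul_le_mul_left _ h1
      _ = _ := mul_one _
  · rw [aeval_comp, map_mul, aeval_C, aeval_X, map_zpow₀, map_natCast,
      mul_div_cancel₀ _ (zpow_ne_zero m hqL), aeval_map_algebraMap, aeval_def]
    exact hzint z hz

theorem k_core {A : Type*} [Field A] [IsAlgClosed A] [CharZero A] {q : ℕ} [hq : Fact q.Prime]
    {P : ℤ[X]} (hP : P.Monic) {m : ℤ}
    (hpure : ∀ z : ℂ, aeval z P = 0 → ‖z‖ = (q : ℝ) ^ m) {r : ℕ}
    (hrig : IsRigid ((q : ℝ) ^ (-m)) r (rootNorms q P)) {S : Multiset A}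
    (hcard : Multiset.card S = r)
    (hS : IsoIn ((q : A) ^ (2 * m)) S (P.map (algebraMap ℤ A)).roots) {ζ : A}
    (hζ : ∃ N, 0 < N ∧ ζ ^ N = 1) (hprod : S.prod = ζ * (q : A) ^ (m * r)) :
    ∀ z ∈ S, (z / (q : A) ^ m) ^ (2 * P.natDegree).factorial = 1 := by
  classical
  let L : IntermediateField ℚ A :=
    IntermediateField.adjoin ℚ ((P.map (algebraMap ℤ ℚ)).rootSet A)
  have hsf : IsSplittingField ℚ L (P.map (algebraMap ℤ ℚ)) :=
    IntermediateField.adjoin_rootSet_isSplittingField (IsAlgClosed.splits _)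
  have hfd : FiniteDimensional ℚ L :=
    IsSplittingField.finiteDimensional L (P.map (algebraMap ℤ ℚ))
  have hnf : NumberField L := { to_charZero := inferInstance, to_finiteDimensional := hfd }
  have hsplit : (P.map (algebraMap ℤ L)).Splits := by
    have h := hsf.splits
    rwa [Polynomial.map_map,
      RingHom.ext_int ((algebraMap ℚ L).comp (algebraMap ℤ ℚ)) (algebraMap ℤ L)] at h
  have hinj : Function.Injective (algebraMap L A) := (algebraMap L A).injective
  have hR := k_roots P hsplit (algebraMap L A)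
  have hSR : S ≤ (P.map (algebraMap ℤ A)).roots := le_trans (Multiset.le_add_right _ _) hS
  obtain ⟨S₀, hS₀⟩ : ∃ S₀ : Multiset L, S₀.map (algebraMap L A) = S := by
    apply k_lift
    intro z hz
    have h1 := Multiset.mem_of_le hSR hz
    rw [hR, Multiset.mem_map] at h1
    obtain ⟨y, -, hy⟩ := h1
    exact ⟨y, hy⟩
  have hqL : (q : L) ≠ 0 := by exact_mod_cast hq.out.ne_zero
  have hprod0 : algebraMap L A (S₀.prod / (q : L) ^ (m * r)) = ζ := by
    have hqA : (q : A) ^ (m * r) ≠ 0 := zpow_ne_zero _ (by exact_mod_cast hq.out.ne_zero)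
    rw [map_div₀, map_zpow₀, map_natCast, map_multiset_prod, hS₀, hprod,
      mul_div_cancel_right₀ _ hqA]
  intro z hz
  rw [← hS₀, Multiset.mem_map] at hz
  obtain ⟨y, hy, rfl⟩ := hz
  have h1 := k_core_nf (L := L) hP hsplit hpure hrig (S := S₀)
    (by rw [← hcard, ← hS₀, Multiset.card_map])
    (by
      unfold IsoIn at hS ⊢
      rw [← Multiset.map_le_map_iff hinj, ← hR]
      refine le_trans (le_of_eq ?_) hS
      rw [Multiset.map_add, hS₀, Multiset.map_map]
      congr 1
      rw [← hS₀, Multiset.map_map]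
      refine Multiset.map_congr rfl fun z _ => ?_
      simp only [Function.comp_apply]
      rw [map_div₀, map_zpow₀, map_natCast])
    (ζ := S₀.prod / (q : L) ^ (m * r))
    (by
      obtain ⟨N, hN, hN1⟩ := hζ
      refine ⟨N, hN, hinj ?_⟩
      rw [map_pow, hprod0, hN1, map_one])
    (by rw [div_mul_cancel₀ _ (zpow_ne_zero _ hqL)]) y hy
  have h2 := congrArg (algebraMap L A) h1
  rwa [map_pow, map_div₀, map_zpow₀, map_natCast, map_one] at h2

end Pool.Agent.H99L
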