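import Mathlib
import Pool.Agent.Lib.H99L.Defs

/-!
# Operators whose eigenvalues are roots of unity
-/

namespace Pool.Agent.H99L

open Module Polynomial TensorProduct

theorem k_card {K V : Type*} [Field K] [AddCommGroup V] [Module K V] [FiniteDimensional K V]
    (T : Module.End K V) : Multiset.card (rts T.charpoly) = finrank K V := by
  have hmon : T.charpoly.Monic := LinearMap.charpoly_monic T
  have hsplit : (T.charpoly.map (algebraMap K (AlgebraicClosure K))).Splits :=
    IsAlgClosed.splits _
  rw [rts, ← hsplit.natDegree_eq_card_roots, hmon.natDegree_map, LinearMap.charpoly_natDegree]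

theorem k_pow_zero {K V : Type*} [Field K] [AddCommGroup V] [Module K V] [FiniteDimensional K V]
    (T : Module.End K V) (c : K) (N : ℕ)
    (h : ∀ z ∈ rts T.charpoly, (algebraMap K (AlgebraicClosure K) c * z) ^ N = 1) :
    ((c • T) ^ N - 1) ^ finrank K V = 0 := by
  have hsplit : (T.charpoly.map (algebraMap K (AlgebraicClosure K))).Splits :=
    IsAlgClosed.splits _
  have hmon : T.charpoly.Monic := LinearMap.charpoly_monic T
  have h1 : T.charpoly.map (algebraMap K (AlgebraicClosure K)) ∣
      (((C (c ^ N) * X ^ N - 1) ^ (finrank K V) : K[X])).map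
        (algebraMap K (AlgebraicClosure K)) := by
    rw [hsplit.eq_prod_roots_of_monic (hmon.map _)]
    have h2 := Multiset.prod_dvd_prod_of_dvd (S := rts T.charpoly)
      (fun a => X - C a)
      (fun _ => ((C (c ^ N) * X ^ N - 1 : K[X])).map (algebraMap K (AlgebraicClosure K)))
      (fun a ha => by
        rw [dvd_iff_isRoot, IsRoot.def]
        have h3 := h a ha
        rw [Polynomial.map_sub, Polynomial.map_mul, Polynomial.map_pow, map_X, map_C,
          Polynomial.map_one, eval_sub, eval_mul, eval_pow, eval_X, eval_C, eval_one, map_pow,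
          ← mul_pow, h3, sub_self])
    rw [Multiset.map_const', Multiset.prod_replicate, k_card, ← Polynomial.map_pow] at h2
    exact h2
  have h2 : T.charpoly ∣ (C (c ^ N) * X ^ N - 1) ^ (finrank K V) :=
    (Polynomial.map_dvd_map' _).1 h1
  obtain ⟨g, hg⟩ := h2
  have h3 := congrArg (aeval T) hg
  have h4 : aeval T (C (c ^ N) * X ^ N - 1 : K[X]) = (c • T) ^ N - 1 := by
    rw [map_sub, map_mul, aeval_C, map_one, map_pow (aeval T), aeval_X, ← Algebra.smul_def,
      _root_.smul_pow]
  rw [map_mul, LinearMap.aeval_self_charpoly, zero_mul, map_pow, h4] at h3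
  exact h3

theorem k_roots_pow {K V : Type*} [Field K] [AddCommGroup V] [Module K V]
    [FiniteDimensional K V] (T : Module.End K V) (N r : ℕ) (h : (T ^ N - 1) ^ r = 0) :
    ∀ z ∈ rts T.charpoly, z ^ N = 1 := by
  intro z hz
  have h1 : (T.baseChange (AlgebraicClosure K)).charpoly.IsRoot z := by
    rw [LinearMap.charpoly_baseChange]
    exact (mem_roots'.1 hz).2
  have h2 : Module.End.HasEigenvalue (T.baseChange (AlgebraicClosure K)) z :=
    (Module.End.hasEigenvalue_iff_isRoot_charpoly _ _).2 h1
  obtain ⟨v, hv⟩ := h2.exists_hasEigenvector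
  have h3 := Module.End.aeval_apply_of_hasEigenvector hv
    (p := (X ^ N - 1 : (AlgebraicClosure K)[X]) ^ r)
  have h4 : aeval (T.baseChange (AlgebraicClosure K))
      ((X ^ N - 1 : (AlgebraicClosure K)[X]) ^ r) = 0 := by
    rw [map_pow, map_sub, map_pow, aeval_X, map_one, ← LinearMap.baseChange_pow,
      ← LinearMap.baseChange_one (R := K) (M := V), ← LinearMap.baseChange_sub,
      ← LinearMap.baseChange_pow, h, LinearMap.baseChange_zero]
  rw [h4, LinearMap.zero_apply] at h3
  have h5 := (smul_eq_zero.1 h3.symm).resolve_right hv.2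
  rw [eval_pow, eval_sub, eval_pow, eval_X, eval_one] at h5
  exact sub_eq_zero.1 (eq_zero_of_pow_eq_zero h5)

theorem k_trace {K V : Type*} [Field K] [AddCommGroup V] [Module K V] [FiniteDimensional K V]
    (T : Module.End K V) :
    algebraMap K (AlgebraicClosure K) (LinearMap.trace K V T) = (rts T.charpoly).sum := by
  have h1 := Module.End.trace_eq_sum_roots_charpoly_of_splits
    (f := T.baseChange (AlgebraicClosure K)) (IsAlgClosed.splits _)
  rw [LinearMap.charpoly_baseChange] at h1
  rw [rts, ← h1, LinearMap.trace_baseChange]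

/-- The set of sums of `r` elements of a finite set is finite. -/
theorem k_finite_sum {A : Type*} [AddCommMonoid A] (Z : Set A) (hZ : Z.Finite) (r : ℕ) :
    {t : A | ∃ S : Multiset A, Multiset.card S = r ∧ (∀ z ∈ S, z ∈ Z) ∧ t = S.sum}.Finite := by
  induction r with
  | zero =>
    refine (Set.finite_singleton (0 : A)).subset ?_
    rintro t ⟨S, hS, -, rfl⟩
    rw [Multiset.card_eq_zero.1 hS]
    simp
  | succ r ih =>
    refine (hZ.image2 (fun a b => a + b) ih).subset ?_
    rintro t ⟨S, hS, hSZ, rfl⟩
    obtain ⟨a, S', rfl⟩ : ∃ a S', S = a ::ₘ S' := by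
      obtain ⟨a, ha⟩ := Multiset.card_pos_iff_exists_mem.1 (by rw [hS]; exact Nat.succ_pos r)
      obtain ⟨S', hS'⟩ := Multiset.exists_cons_of_mem ha
      exact ⟨a, S', hS'⟩
    have hS' : Multiset.card S' = r := by
      rw [Multiset.card_cons] at hS
      omega
    exact ⟨a, hSZ a (Multiset.mem_cons_self _ _), S'.sum,
      ⟨S', hS', fun z hz => hSZ z (Multiset.mem_cons_of_mem hz), rfl⟩,
      (Multiset.sum_cons _ _).symm⟩

/-- The traces of the operators with `(T ^ N - 1) ^ r = 0` form a finite set. -/
theorem k_finite_trace {K V : Type*} [Field K] [AddCommGroup V] [Module K V]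
    [FiniteDimensional K V] (N r : ℕ) (hN : 0 < N) :
    {t : K | ∃ T : Module.End K V, (T ^ N - 1) ^ r = 0 ∧ t = LinearMap.trace K V T}.Finite := by
  have hZ : {z : AlgebraicClosure K | z ^ N = 1}.Finite := by
    classical
    have h1 : (X ^ N - 1 : (AlgebraicClosure K)[X]) ≠ 0 := (monic_X_pow_sub_C 1 hN.ne').ne_zero
    refine ((X ^ N - 1 : (AlgebraicClosure K)[X]).roots.toFinset.finite_toSet).subset ?_
    intro z hz
    have hz' : z ^ N = 1 := hz
    rw [Finset.mem_coe, Multiset.mem_toFinset, mem_roots h1, IsRoot.def, eval_sub, eval_pow,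
      eval_X, eval_one, hz', sub_self]
  have h2 := (k_finite_sum _ hZ (finrank K V)).preimage
    ((algebraMap K (AlgebraicClosure K)).injective.injOn)
  refine h2.subset ?_
  rintro t ⟨T, hT, rfl⟩
  exact ⟨rts T.charpoly, k_card T, k_roots_pow T N r hT, k_trace T⟩

end Pool.Agent.H99L
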