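import Mathlib

/-!
# A monoid of endomorphisms of trace `dim V` has a fixed vector
-/

namespace Pool.Agent.H99L

open Polynomial Module

theorem k_isNilpotent_of_trace {K V : Type*} [Field K] [CharZero K] [AddCommGroup V] [Module K V]
    [FiniteDimensional K V] (x : Module.End K V)
    (h : ∀ k : ℕ, 0 < k → LinearMap.trace K V (x ^ k) = 0) : IsNilpotent x := by
  classical
  have hint : IsIntegral K x := Algebra.IsIntegral.isIntegral x
  have hmu : minpoly K x ≠ 0 := minpoly.ne_zero hint
  obtain ⟨c, hc, hnd⟩ := exists_eq_pow_rootMultiplicity_mul_and_not_dvd (minpoly K x) hmu 0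
  obtain ⟨a, ha⟩ : ∃ a, a = (minpoly K x).rootMultiplicity 0 := ⟨_, rfl⟩
  rw [← ha, C_0, sub_zero] at hc
  rw [C_0, sub_zero] at hnd
  have hcop : IsCoprime (X ^ (a + 1)) c :=
    ((irreducible_X (R := K)).coprime_iff_not_dvd.2 hnd).pow_left
  obtain ⟨u, v, huv⟩ := hcop
  obtain ⟨e, he⟩ : ∃ e : Module.End K V, e = aeval x (u * X ^ (a + 1)) := ⟨_, rfl⟩
  have h1 : aeval x (v * c) = 1 - e := by
    have h2 : v * c = 1 - u * X ^ (a + 1) := by rw [← huv]; ring
    rw [h2, map_sub, map_one, ← he]
  have hmin : aeval x (X ^ a * c) = 0 := by rw [← hc]; exact minpoly.aeval K x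
  have h3 : e * (1 - e) = 0 := by
    rw [← h1, he, ← map_mul]
    have h4 : u * X ^ (a + 1) * (v * c) = (u * X * v) * (X ^ a * c) := by ring
    rw [h4, map_mul, hmin, mul_zero]
  have hidem : IsIdempotentElem e := by
    have h5 : e - e * e = 0 := by rw [← h3]; rw [mul_sub, mul_one]
    exact (sub_eq_zero.1 h5).symm
  have htr : LinearMap.trace K V e = 0 := by
    rw [he, aeval_eq_sum_range, map_sum]
    refine Finset.sum_eq_zero fun k _ => ?_
    rw [map_smul]
    rcases Nat.eq_zero_or_pos k with hk | hk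
    · rw [hk, coeff_zero_eq_eval_zero, eval_mul, eval_pow, eval_X, zero_pow (Nat.succ_ne_zero a),
        mul_zero, zero_smul]
    · rw [h k hk, smul_zero]
  have he0 : e = 0 := LinearMap.IsIdempotentElem.eq_zero_of_trace_eq_zero hidem htr
  refine ⟨a, ?_⟩
  have h6 : aeval x (v * c) = 1 := by rw [h1, he0, sub_zero]
  calc x ^ a = aeval x (X ^ a : K[X]) * aeval x (v * c) := by rw [h6, mul_one, map_pow, aeval_X]
    _ = aeval x (v * (X ^ a * c)) := by rw [← map_mul]; congr 1; ring
    _ = 0 := by rw [map_mul, hmin, mul_zero]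

attribute [local instance 100] LieRing.ofAssociativeRing

theorem k_exists_fixed {K V : Type*} [Field K] [CharZero K] [AddCommGroup V] [Module K V]
    [FiniteDimensional K V] [Nontrivial V] (S : Submonoid (Module.End K V))
    (h : ∀ T ∈ S, LinearMap.trace K V T = finrank K V) :
    ∃ v : V, v ≠ 0 ∧ ∀ T ∈ S, T v = v := by
  classical
  obtain ⟨I, hI⟩ : ∃ I : Submodule K (Module.End K V),
      I = Submodule.span K {x | ∃ T ∈ S, x = T - 1} := ⟨_, rfl⟩
  have hmulI : ∀ x ∈ I, ∀ y ∈ I, x * y ∈ I := by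
    intro x hx y hy
    rw [hI] at hx hy ⊢
    refine Submodule.span_induction (p := fun x _ => x * y ∈ _) ?_ ?_ ?_ ?_ hx
    · rintro x ⟨T, hT, rfl⟩
      refine Submodule.span_induction (p := fun y _ => (T - 1) * y ∈ _) ?_ ?_ ?_ ?_ hy
      · rintro y ⟨T', hT', rfl⟩
        have h1 : (T - 1) * (T' - 1) = (T * T' - 1) - (T - 1) - (T' - 1) := by
          rw [sub_mul, mul_sub, mul_one, one_mul]; abel
        rw [h1]
        refine Submodule.sub_mem _ (Submodule.sub_mem _ ?_ ?_) ?_
        · exact Submodule.subset_span ⟨T * T', S.mul_mem hT hT', rfl⟩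
        · exact Submodule.subset_span ⟨T, hT, rfl⟩
        · exact Submodule.subset_span ⟨T', hT', rfl⟩
      · rw [mul_zero]; exact Submodule.zero_mem _
      · intro a b _ _ ha hb
        rw [mul_add]; exact Submodule.add_mem _ ha hb
      · intro a b _ hb
        rw [mul_smul_comm]; exact Submodule.smul_mem _ _ hb
    · rw [zero_mul]; exact Submodule.zero_mem _
    · intro a b _ _ ha hb
      rw [add_mul]; exact Submodule.add_mem _ ha hb
    · intro a b _ hb
      rw [smul_mul_assoc]; exact Submodule.smul_mem _ _ hb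
  have htr : ∀ x ∈ I, LinearMap.trace K V x = 0 := by
    intro x hx
    rw [hI] at hx
    refine Submodule.span_induction (p := fun x _ => LinearMap.trace K V x = 0) ?_ ?_ ?_ ?_ hx
    · rintro x ⟨T, hT, rfl⟩
      rw [map_sub, h T hT, LinearMap.trace_one, sub_self]
    · rw [map_zero]
    · intro a b _ _ ha hb
      rw [map_add, ha, hb, add_zero]
    · intro a b _ hb
      rw [map_smul, hb, smul_zero]
  have hpow : ∀ x ∈ I, ∀ k : ℕ, 0 < k → x ^ k ∈ I := by
    intro x hx k hk
    induction k with
    | zero => exact absurd hk (lt_irrefl _)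
    | succ k ih =>
      rcases Nat.eq_zero_or_pos k with h0 | h0
      · rw [h0, zero_add, pow_one]; exact hx
      · rw [pow_succ]; exact hmulI _ (ih h0) _ hx
  have hnil : ∀ x ∈ I, IsNilpotent x := fun x hx =>
    k_isNilpotent_of_trace x fun k hk => htr _ (hpow x hx k hk)
  let L : LieSubalgebra K (Module.End K V) :=
    { I with
      lie_mem' := by
        intro x y hx hy
        exact Submodule.sub_mem _ (hmulI x hx y hy) (hmulI y hy x hx) }
  have hnilM : LieModule.IsNilpotent L V := by
    rw [LieModule.isNilpotent_iff_forall' (R := K)]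
    intro x
    obtain ⟨k, hk⟩ := hnil (x : Module.End K V) x.2
    refine ⟨k, ?_⟩
    have h2 : LieModule.toEnd K L V x = (x : Module.End K V) := by
      ext v
      rfl
    rw [h2]
    exact hk
  have hnt := LieModule.nontrivial_max_triv_of_isNilpotent K L V
  obtain ⟨v, hv⟩ := exists_ne (0 : LieModule.maxTrivSubmodule K L V)
  refine ⟨v, fun h0 => hv (Subtype.ext h0), fun T hT => ?_⟩
  have hTI : T - 1 ∈ I := by
    rw [hI]
    exact Submodule.subset_span ⟨T, hT, rfl⟩
  have h1 := (LieModule.mem_maxTrivSubmodule K L V (v : V)).1 v.2 ⟨T - 1, hTI⟩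
  have h2 : (T - 1 : Module.End K V) (v : V) = 0 := h1
  rw [LinearMap.sub_apply, Module.End.one_apply] at h2
  exact sub_eq_zero.1 h2

end Pool.Agent.H99L
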