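import Mathlib
import Pool.Agent.Lib.H99L.K2
import Pool.Agent.Lib.H99L.K3
import Pool.Agent.Lib.H99L.K4
import Pool.Agent.Lib.H99L.Y8
import Pool.Agent.Lib.Helper90.GSem.CharFin

/-!
# The Tate clause
-/

namespace Pool.Agent.H99L

open NumberField Module Polynomial Pool.Agent.GSem Pool.Agent.NF Filter Topology

variable {p : ℕ} [hp : Fact p.Prime] {Ω : Type*} [Field Ω] [CharZero Ω]
variable {Γ : Subgroup Gal(Ω/ℚ)} {V : Type*} [AddCommGroup V] [Module ℚ_[p] V]
  [FiniteDimensional ℚ_[p] V]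

/-- **Clause for `F = ℚ` and weight `w = 2 * m`.** Suppose that the Frobenius elements `φ` at primes
`q ≠ p` at which `V` is rigid (the characteristic polynomial of `φ⁻¹` has integer coefficients, its
complex roots have absolute value `q ^ m`, and the absolute values of its roots in the algebraic
closure of `ℚ_[q]` are rigid for `dim W`) are dense in a neighbourhood of `1`. Then an open
subgroup acts on `W` through the power `- m` of the cyclotomic character. -/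
def TateClause (ρ : Representation ℚ_[p] Γ V) (w : ℤ) (W : Submodule ℚ_[p] V) : Prop :=
  ∀ m : ℤ, w = 2 * m → Γ = ⊤ →
    closure {φ : Γ | ∃ (q : ℕ) (_ : Fact q.Prime), q ≠ p ∧ IsFrobAt q (φ : Gal(Ω/ℚ)) ∧
      IsRigidOp q m (finrank ℚ_[p] W) (ρ φ⁻¹)} ∈ nhds (1 : Γ) →
    ∃ U : Subgroup Γ, IsOpen (U : Set Γ) ∧
      ∀ g ∈ U, ∀ x ∈ W, ρ g x = chi p (g : Gal(Ω/ℚ)) (-m) • x

theorem chi_mul (g h : Gal(Ω/ℚ)) (a : ℤ) : chi p (g * h) a = chi p g a * chi p h a := by
  unfold chi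
  rw [map_mul, map_mul, mul_zpow]

theorem chi_one (a : ℤ) : chi p (1 : Gal(Ω/ℚ)) a = 1 := by
  unfold chi
  rw [map_one, map_one, one_zpow]

theorem chi_neg (g : Gal(Ω/ℚ)) (a : ℤ) : chi p g a * chi p g (-a) = 1 := by
  unfold chi
  rw [← zpow_add₀ (toQ_ne_zero _), add_neg_cancel, zpow_zero]

theorem chi_inv (g : Gal(Ω/ℚ)) (a : ℤ) : chi p g⁻¹ a = chi p g (-a) := by
  have h1 := chi_mul (p := p) g⁻¹ g a
  rw [inv_mul_cancel, chi_one] at h1
  have h2 := chi_neg (p := p) g a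
  have h3 : chi p g a ≠ 0 := by
    intro h
    rw [h, zero_mul] at h2
    exact zero_ne_one h2
  have h4 : chi p g⁻¹ a * chi p g a = chi p g (-a) * chi p g a := by
    rw [← h1, mul_comm (chi p g (-a)), h2]
  exact mul_right_cancel₀ h3 h4

/-- The twisted representation on a stable subspace. -/
noncomputable def twist (ρ : Representation ℚ_[p] Γ V) (W : Submodule ℚ_[p] V)
    (hW : ∀ g, ∀ x ∈ W, ρ g x ∈ W) (m : ℤ) : Γ →* Module.End ℚ_[p] W where
  toFun g := chi p (g : Gal(Ω/ℚ)) m • (ρ g).restrict (hW g)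
  map_one' := by
    refine LinearMap.ext fun x => Subtype.ext ?_
    change chi p ((1 : Γ) : Gal(Ω/ℚ)) m • (ρ 1 (x : V)) = (x : V)
    rw [map_one, Subgroup.coe_one, chi_one, one_smul]
    rfl
  map_mul' g h := by
    refine LinearMap.ext fun x => Subtype.ext ?_
    change chi p ((g * h : Γ) : Gal(Ω/ℚ)) m • (ρ (g * h) (x : V)) =
      chi p (g : Gal(Ω/ℚ)) m • ρ g (chi p (h : Gal(Ω/ℚ)) m • ρ h (x : V))
    rw [map_mul, Subgroup.coe_mul, chi_mul, Module.End.mul_apply, map_smul, mul_smul]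

theorem twist_apply (ρ : Representation ℚ_[p] Γ V) (W : Submodule ℚ_[p] V)
    (hW : ∀ g, ∀ x ∈ W, ρ g x ∈ W) (m : ℤ) (g : Γ) :
    twist ρ W hW m g = chi p (g : Gal(Ω/ℚ)) m • (ρ g).restrict (hW g) := rfl

theorem twist_coe (ρ : Representation ℚ_[p] Γ V) (W : Submodule ℚ_[p] V)
    (hW : ∀ g, ∀ x ∈ W, ρ g x ∈ W) (m : ℤ) (g : Γ) (x : W) :
    ((twist ρ W hW m g x : W) : V) = chi p (g : Gal(Ω/ℚ)) m • ρ g (x : V) := rfl

/-- The matrices of the twisted representation are continuous. -/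
theorem continuous_twist (ρ : Representation ℚ_[p] Γ V) (hρ : IsContRep ρ)
    (W : Submodule ℚ_[p] V) (hW : ∀ g, ∀ x ∈ W, ρ g x ∈ W) (m : ℤ) {ι : Type*} [Fintype ι]
    [DecidableEq ι] (b : Basis ι ℚ_[p] W) :
    Continuous fun g : Γ => LinearMap.toMatrixAlgEquiv b (twist ρ W hW m g) := by
  refine continuous_matrix fun a c => ?_
  obtain ⟨f, hf⟩ := LinearMap.exists_extend (b.coord a)
  have h1 : (fun g : Γ => LinearMap.toMatrixAlgEquiv b (twist ρ W hW m g) a c) =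
      fun g : Γ => chi p (g : Gal(Ω/ℚ)) m * f (ρ g (b c : V)) := by
    funext g
    rw [LinearMap.toMatrixAlgEquiv_apply]
    have h2 : b.repr (twist ρ W hW m g (b c)) a = b.coord a (twist ρ W hW m g (b c)) := rfl
    rw [h2, ← hf, LinearMap.comp_apply, Submodule.subtype_apply, twist_coe, map_smul, smul_eq_mul]
  rw [h1]
  exact ((continuous_chi p m).comp continuous_subtype_val).mul (hρ _ _)

/-- The trivial orbit for `Γ = ⊤`. -/
theorem isOrbits_top (g : Gal(Ω/ℚ)) :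
    IsOrbits (⊤ : Subgroup Gal(Ω/ℚ)) g (fun _ : Fin 1 => (1 : Gal(Ω/ℚ))) (fun _ => 1) where
  pos _ := Nat.one_pos
  mem _ := Subgroup.mem_top _
  bij := by
    have h1 : Subsingleton (Gal(Ω/ℚ) ⧸ (⊤ : Subgroup Gal(Ω/ℚ))) :=
      QuotientGroup.subsingleton_quotient_top
    have h2 : Subsingleton (Σ i : Fin 1, Fin ((fun _ => 1) i)) := by
      refine ⟨fun a b => ?_⟩
      obtain ⟨a1, a2⟩ := a
      obtain ⟨b1, b2⟩ := b
      have h3 : a1 = b1 := Subsingleton.elim _ _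
      subst h3
      have h4 : a2 = b2 := Subsingleton.elim (α := Fin 1) _ _
      rw [h4]
    refine ⟨fun a b _ => Subsingleton.elim _ _, fun a => ⟨⟨0, ⟨0, Nat.one_pos⟩⟩, Subsingleton.elim _ _⟩⟩

end Pool.Agent.H99L
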