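import Mathlib
import Pool.Agent.Lib.H99L.K5

/-!
# Proof of the Tate clause
-/

namespace Pool.Agent.H99L

open NumberField Module Polynomial Pool.Agent.GSem Pool.Agent.NF Filter Topology

variable {p : ℕ} [hp : Fact p.Prime] {Ω : Type*} [Field Ω] [CharZero Ω] [IsAlgClosure ℚ Ω]
variable {V : Type*} [AddCommGroup V] [Module ℚ_[p] V] [FiniteDimensional ℚ_[p] V]

theorem toQ_frob {q : ℕ} (hq : q.Prime) (hqp : q ≠ p) {φ : Gal(Ω/ℚ)} (hφ : IsFrobAt q φ) :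
    (toQ (cyc p Ω φ) : ℚ_[p]) = q := by
  have _ : IsAlgClosed Ω := IsAlgClosure.isAlgClosed ℚ
  have h1 := cyc_frob (p := p) hq hqp hφ
  have h2 : (toQ (cyc p Ω φ) : ℚ_[p]) = (((cyc p Ω φ : ℤ_[p]ˣ) : ℤ_[p]) : ℚ_[p]) := rfl
  rw [h2, h1]
  simp

/-- At a rigid Frobenius element the eigenvalues of the twisted representation are roots of unity of
bounded order. -/
theorem twist_frob {Γ : Subgroup Gal(Ω/ℚ)} (ρ : Representation ℚ_[p] Γ V) (m : ℤ)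
    (W : Submodule ℚ_[p] V) (hW : ∀ g, ∀ x ∈ W, ρ g x ∈ W) {M : ℕ} (hM : 0 < M) {q : ℕ}
    [hq : Fact q.Prime] (hqp : q ≠ p) (φ : Γ) (hφ : IsFrobAt q (φ : Gal(Ω/ℚ)))
    (hiso : IsoIn (algebraMap ℚ_[p] (AlgebraicClosure ℚ_[p])
      (chi p ((φ⁻¹ : Γ) : Gal(Ω/ℚ)) (-(2 * m)))) (eig (ρ φ⁻¹) W) (rts (ρ φ⁻¹).charpoly))
    (hdet : (eig (ρ φ⁻¹) W).prod ^ M = algebraMap ℚ_[p] (AlgebraicClosure ℚ_[p])
      (chi p ((φ⁻¹ : Γ) : Gal(Ω/ℚ)) (-(m * finrank ℚ_[p] W * M))))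
    (hr : IsRigidOp q m (finrank ℚ_[p] W) (ρ φ⁻¹)) :
    (twist ρ W hW m φ⁻¹ ^ (2 * finrank ℚ_[p] V).factorial - 1) ^ finrank ℚ_[p] W = 0 := by
  obtain ⟨P, hP, hpure, hrig⟩ := hr
  have hinj : Function.Injective (algebraMap ℤ ℚ_[p]) := by
    intro a b h
    have h1 : ((a : ℤ) : ℚ_[p]) = ((b : ℤ) : ℚ_[p]) := h
    exact_mod_cast h1
  have hmon : P.Monic := by
    have h1 : (P.map (algebraMap ℤ ℚ_[p])).Monic := hP ▸ LinearMap.charpoly_monic _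
    exact monic_of_injective hinj h1
  have hdeg : P.natDegree = finrank ℚ_[p] V := by
    rw [← hmon.natDegree_map (algebraMap ℤ ℚ_[p]), ← hP, LinearMap.charpoly_natDegree]
  have hcyc : (toQ (cyc p Ω (φ : Gal(Ω/ℚ))) : ℚ_[p]) = q := toQ_frob hq.out hqp hφ
  have hchi : ∀ a : ℤ, chi p ((φ⁻¹ : Γ) : Gal(Ω/ℚ)) a = (q : ℚ_[p]) ^ (-a) := by
    intro a
    rw [Subgroup.coe_inv, chi_inv]
    unfold chi
    rw [hcyc]
  have hq0 : (q : AlgebraicClosure ℚ_[p]) ≠ 0 := by exact_mod_cast hq.out.ne_zero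
  have heig : eig (ρ φ⁻¹) W = rts ((ρ φ⁻¹).restrict (hW φ⁻¹)).charpoly := by
    rw [eig, dif_pos (hW φ⁻¹)]
  have hcard : Multiset.card (eig (ρ φ⁻¹) W) = finrank ℚ_[p] W := by
    rw [heig, k_card]
  have hqA : (algebraMap ℚ_[p] (AlgebraicClosure ℚ_[p])) (q : ℚ_[p]) = q := map_natCast _ _
  have hrts : rts (ρ φ⁻¹).charpoly = (P.map (algebraMap ℤ (AlgebraicClosure ℚ_[p]))).roots := by
    rw [rts, hP, Polynomial.map_map,
      RingHom.ext_int ((algebraMap ℚ_[p] (AlgebraicClosure ℚ_[p])).comp (algebraMap ℤ ℚ_[p]))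
        (algebraMap ℤ (AlgebraicClosure ℚ_[p]))]
  rw [hchi, neg_neg, map_zpow₀, hqA, hrts] at hiso
  rw [hchi, neg_neg, map_zpow₀, hqA, zpow_mul, zpow_natCast] at hdet
  have hqmr : (q : AlgebraicClosure ℚ_[p]) ^ (m * (finrank ℚ_[p] W : ℤ)) ≠ 0 :=
    zpow_ne_zero _ hq0
  have hζ : ∃ N, 0 < N ∧
      ((eig (ρ φ⁻¹) W).prod / (q : AlgebraicClosure ℚ_[p]) ^ (m * (finrank ℚ_[p] W : ℤ))) ^ N =
        1 := by
    refine ⟨M, hM, ?_⟩
    rw [div_pow, hdet, div_self (pow_ne_zero _ hqmr)]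
  have h5 := k_core hmon hpure hrig hcard hiso hζ (div_mul_cancel₀ _ hqmr).symm
  have htw : twist ρ W hW m φ⁻¹ =
      ((q : ℚ_[p]) ^ (-m)) • (ρ φ⁻¹).restrict (hW φ⁻¹) := by
    rw [twist_apply, hchi]
  rw [htw]
  apply k_pow_zero
  intro z hz
  rw [← heig] at hz
  have h6 := h5 z hz
  rw [hdeg] at h6
  rw [map_zpow₀, hqA, zpow_neg, inv_mul_eq_div]
  exact h6

/-- **Rigid slopes imply that `W` is potentially a sum of Tate characters.** -/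
theorem tate_general {Γ : Subgroup Gal(Ω/ℚ)} (hΓ : IsOpen (Γ : Set Gal(Ω/ℚ)))
    (ρ : Representation ℚ_[p] Γ V) (hρ : IsContRep ρ) (m : ℤ) (W : Submodule ℚ_[p] V)
    (hirr : IsIrredSub ρ W)
    (hiso : ∀ g : Γ, IsoIn (algebraMap ℚ_[p] (AlgebraicClosure ℚ_[p])
      (chi p (g : Gal(Ω/ℚ)) (-(2 * m)))) (eig (ρ g) W) (rts (ρ g).charpoly))
    {M : ℕ} (hM : 0 < M)
    (hdet : ∀ g : Γ, (eig (ρ g) W).prod ^ M = algebraMap ℚ_[p] (AlgebraicClosure ℚ_[p])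
      (chi p (g : Gal(Ω/ℚ)) (-(m * finrank ℚ_[p] W * M))))
    (hcl : closure {φ : Γ | ∃ (q : ℕ) (_ : Fact q.Prime), q ≠ p ∧
      IsFrobAt q (φ : Gal(Ω/ℚ)) ∧ IsRigidOp q m (finrank ℚ_[p] W) (ρ φ⁻¹)} ∈ nhds (1 : Γ)) :
    ∃ U : Subgroup Γ, IsOpen (U : Set Γ) ∧
      ∀ g ∈ U, ∀ x ∈ W, ρ g x = chi p (g : Gal(Ω/ℚ)) (-m) • x := by
  classical
  have _ : IsAlgClosed Ω := IsAlgClosure.isAlgClosed ℚ
  have _ : Algebra.IsAlgebraic ℚ Ω := IsAlgClosure.isAlgebraic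
  have _ : IsGalois ℚ Ω := IsAlgClosure.isGalois ℚ Ω
  have hW : ∀ g, ∀ x ∈ W, ρ g x ∈ W := hirr.2.1
  set r := finrank ℚ_[p] W with hr
  set N₀ := (2 * finrank ℚ_[p] V).factorial with hN₀
  have hN₀pos : 0 < N₀ := Nat.factorial_pos _
  set θ := twist ρ W hW m with hθ
  let b := Module.finBasis ℚ_[p] W
  have hF : Continuous fun g => LinearMap.toMatrixAlgEquiv b (θ g) :=
    continuous_twist ρ hρ W hW m b
  -- the closed set
  set C : Set Γ := {g | (θ g ^ N₀ - 1) ^ r = 0} with hC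
  have hCcl : IsClosed C := by
    have h1 : C = (fun g => (LinearMap.toMatrixAlgEquiv b (θ g) ^ N₀ - 1) ^ r) ⁻¹' {0} := by
      ext g
      have h2 : (LinearMap.toMatrixAlgEquiv b (θ g) ^ N₀ - 1) ^ r =
          LinearMap.toMatrixAlgEquiv b ((θ g ^ N₀ - 1) ^ r) := by
        rw [map_pow, map_sub, map_pow, map_one]
      change (θ g ^ N₀ - 1) ^ r = 0 ↔ (LinearMap.toMatrixAlgEquiv b (θ g) ^ N₀ - 1) ^ r = 0
      rw [h2, map_eq_zero_iff _ (LinearMap.toMatrixAlgEquiv b).injective]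
    rw [h1]
    exact isClosed_singleton.preimage (((hF.pow N₀).sub continuous_const).pow r)
  have hC1 : C ∈ 𝓝 (1 : Γ) := by
    have h1 := inv_mem_nhds_one _ hcl
    refine mem_of_superset h1 ?_
    rw [inv_closure]
    refine closure_minimal ?_ hCcl
    rintro g hg
    obtain ⟨q, hq, hqp, hφ, hrig⟩ := hg
    have h2 := twist_frob ρ m W hW hM hqp g⁻¹ hφ (hiso _) (hdet _) hrig
    rw [inv_inv] at h2
    exact h2
  -- the trace
  have htr : Continuous fun g => LinearMap.trace ℚ_[p] W (θ g) := by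
    have h1 : (fun g => LinearMap.trace ℚ_[p] W (θ g)) =
        fun g => Matrix.trace (LinearMap.toMatrixAlgEquiv b (θ g)) := by
      funext g
      rw [LinearMap.trace_eq_matrix_trace ℚ_[p] b]
      rfl
    rw [h1]
    exact hF.matrix_trace
  have hZ := k_finite_trace (K := ℚ_[p]) (V := W) N₀ r hN₀pos
  set Z := {t : ℚ_[p] | ∃ T : Module.End ℚ_[p] W,
    (T ^ N₀ - 1) ^ r = 0 ∧ t = LinearMap.trace ℚ_[p] W T} with hZdef
  have hnear : {g : Γ | LinearMap.trace ℚ_[p] W (θ g) = r} ∈ 𝓝 (1 : Γ) := by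
    have h1 : (Z \ {(r : ℚ_[p])})ᶜ ∈ 𝓝 (LinearMap.trace ℚ_[p] W (θ 1)) := by
      have h2 : IsOpen (Z \ {(r : ℚ_[p])})ᶜ :=
        (hZ.subset Set.sdiff_subset).isClosed.isOpen_compl
      refine h2.mem_nhds ?_
      intro h3
      apply h3.2
      rw [Set.mem_singleton_iff, map_one, LinearMap.trace_one]
    have h4 := htr.continuousAt.preimage_mem_nhds h1
    filter_upwards [h4, hC1] with g hg hgC
    by_contra hne
    exact hg ⟨⟨θ g, hgC, rfl⟩, hne⟩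
  -- an open normal subgroup
  rw [nhds_subtype_eq_comap, mem_comap] at hnear
  obtain ⟨O', hO', hO'sub⟩ := hnear
  obtain ⟨O, hO, hOo, hO1⟩ := mem_nhds_iff.1 hO'
  obtain ⟨N, hN⟩ := ProfiniteGrp.exist_openNormalSubgroup_sub_open_nhds_of_one
    (hOo.inter hΓ) ⟨hO1, Γ.one_mem⟩
  have hNn : N.toSubgroup.Normal := N.isNormal'
  set U : Subgroup Γ := N.toSubgroup.comap (Subgroup.subtype _) with hU
  have hUo : IsOpen (U : Set Γ) := N.isOpen'.preimage continuous_subtype_val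
  have hUtr : ∀ g ∈ U, LinearMap.trace ℚ_[p] W (θ g) = r := by
    intro g hg
    have h1 : (g : Gal(Ω/ℚ)) ∈ (N : Set Gal(Ω/ℚ)) := hg
    exact hO'sub (hO (hN h1).1)
  -- a fixed vector
  have hWnt : Nontrivial W := Submodule.nontrivial_iff_ne_bot.2 hirr.1
  obtain ⟨v, hv0, hv⟩ := k_exists_fixed (U.toSubmonoid.map θ) (by
    rintro T ⟨g, hg, rfl⟩
    exact hUtr g hg)
  let W' : Submodule ℚ_[p] V :=
    { carrier := {x | x ∈ W ∧ ∀ g ∈ U, ρ g x = chi p (g : Gal(Ω/ℚ)) (-m) • x}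
      add_mem' := by
        rintro x y ⟨hx, hx'⟩ ⟨hy, hy'⟩
        refine ⟨W.add_mem hx hy, fun g hg => ?_⟩
        rw [map_add, hx' g hg, hy' g hg, smul_add]
      zero_mem' := ⟨W.zero_mem, fun g _ => by rw [map_zero, smul_zero]⟩
      smul_mem' := by
        rintro c x ⟨hx, hx'⟩
        refine ⟨W.smul_mem c hx, fun g hg => ?_⟩
        rw [map_smul, hx' g hg, smul_comm] }
  have hW'W : W' ≤ W := fun x hx => hx.1
  have hW'st : IsStable ρ W' := by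
    rintro h x ⟨hx, hx'⟩
    refine ⟨hW h x hx, fun g hg => ?_⟩
    have h1 : h⁻¹ * g * h ∈ U := by
      have h2 : ((h : Gal(Ω/ℚ))⁻¹ * (g : Gal(Ω/ℚ)) * (h : Gal(Ω/ℚ))⁻¹⁻¹) ∈ N.toSubgroup :=
        hNn.conj_mem _ hg _
      rw [inv_inv] at h2
      exact h2
    have h3 : ρ g (ρ h x) = ρ h (ρ (h⁻¹ * g * h) x) := by
      rw [← Module.End.mul_apply, ← Module.End.mul_apply, ← map_mul, ← map_mul]
      congr 2
      group
    have h4 : chi p ((h⁻¹ * g * h : Γ) : Gal(Ω/ℚ)) (-m) = chi p (g : Gal(Ω/ℚ)) (-m) := by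
      rw [Subgroup.coe_mul, Subgroup.coe_mul, chi_mul, chi_mul, mul_comm, ← mul_assoc, ← chi_mul,
        ← Subgroup.coe_mul, mul_inv_cancel, Subgroup.coe_one, chi_one, one_mul]
    rw [h3, hx' _ h1, h4, map_smul]
  have hvW' : (v : V) ∈ W' := by
    refine ⟨v.2, fun g hg => ?_⟩
    have h1 := hv (θ g) ⟨g, hg, rfl⟩
    have h2 := congrArg (Subtype.val) h1
    rw [hθ, twist_coe] at h2
    have h3 := congrArg (fun y => chi p (g : Gal(Ω/ℚ)) (-m) • y) h2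
    rw [smul_smul, mul_comm, chi_neg, one_smul] at h3
    exact h3
  have hW'eq : W' = W := by
    rcases hirr.2.2 W' hW'W hW'st with h | h
    · exfalso
      rw [h, Submodule.mem_bot] at hvW'
      exact hv0 (Subtype.ext hvW')
    · exact h
  refine ⟨U, hUo, fun g hg x hx => ?_⟩
  rw [← hW'eq] at hx
  exact hx.2 g hg

/-- **The Tate clause follows from the element clause.** -/
theorem tateClause {Γ : Subgroup Gal(Ω/ℚ)} (ρ : Representation ℚ_[p] Γ V) (hρ : IsContRep ρ)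
    (w : ℤ) (W : Submodule ℚ_[p] V) (hirr : IsIrredSub ρ W) (ε : Gal(Ω/ℚ) →* ℤ_[p]ˣ)
    (hε : IsOfFinOrder ε) (H : ℤ)
    (hH : 2 * H = w * (finrank ℚ_[p] W * Nat.card (Gal(Ω/ℚ) ⧸ Γ)))
    (hel : ElementClause ρ w W ε H) : TateClause ρ w W := by
  classical
  intro m hw hΓ hcl
  subst hΓ
  subst hw
  have hH' : H = m * finrank ℚ_[p] W := by
    have h1 : Nat.card (Gal(Ω/ℚ) ⧸ (⊤ : Subgroup Gal(Ω/ℚ))) = 1 := by
      have h2 : Subsingleton (Gal(Ω/ℚ) ⧸ (⊤ : Subgroup Gal(Ω/ℚ))) :=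
        QuotientGroup.subsingleton_quotient_top
      exact Nat.card_of_subsingleton (1 : Gal(Ω/ℚ) ⧸ (⊤ : Subgroup Gal(Ω/ℚ)))
    rw [h1, Nat.cast_one, mul_one, mul_assoc] at hH
    exact mul_left_cancel₀ two_ne_zero hH
  obtain ⟨M, hM, hM'⟩ := isOfFinOrder_iff_pow_eq_one.1 hε
  have helt : ∀ g : (⊤ : Subgroup Gal(Ω/ℚ)), (isOrbits_top (g : Gal(Ω/ℚ))).elt 0 = g := by
    intro g
    apply Subtype.ext
    change (1 : Gal(Ω/ℚ))⁻¹ * (g : Gal(Ω/ℚ)) ^ 1 * 1 = (g : Gal(Ω/ℚ))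
    rw [inv_one, one_mul, mul_one, pow_one]
  refine tate_general isOpen_univ ρ hρ m W hirr ?_ hM ?_ hcl
  · intro g
    have h1 := (hel _ 1 _ _ (isOrbits_top (g : Gal(Ω/ℚ)))).1 0
    rw [helt, Nat.cast_one, mul_one] at h1
    exact h1
  · intro g
    have h1 := (hel _ 1 _ _ (isOrbits_top (g : Gal(Ω/ℚ)))).2
    rw [Fin.prod_univ_one, helt] at h1
    rw [h1, ← map_pow, mul_pow]
    congr 1
    have h4 : ε (g : Gal(Ω/ℚ)) ^ M = 1 := DFunLike.congr_fun hM' _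
    rw [← map_pow, h4, map_one, one_mul, hH']
    unfold chi
    rw [← zpow_natCast, ← zpow_mul]
    congr 1
    ring

/-- The case of K3 type. -/
theorem tate_k3 {Γ : Subgroup Gal(Ω/ℚ)} {ρ : Representation ℚ_[p] Γ V} {m : ℤ} (r : ℕ)
    (hcl : closure {φ : Γ | ∃ (q : ℕ) (_ : Fact q.Prime), q ≠ p ∧
      IsFrobAt q (φ : Gal(Ω/ℚ)) ∧ IsK3Op q m (ρ φ⁻¹)} ∈ nhds (1 : Γ)) :
    closure {φ : Γ | ∃ (q : ℕ) (_ : Fact q.Prime), q ≠ p ∧
      IsFrobAt q (φ : Gal(Ω/ℚ)) ∧ IsRigidOp q m r (ρ φ⁻¹)} ∈ nhds (1 : Γ) := by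
  refine mem_of_superset hcl (closure_mono ?_)
  rintro φ ⟨q, hq, hqp, hφ, hk⟩
  exact ⟨q, hq, hqp, hφ, hk.isRigidOp _⟩

end Pool.Agent.H99L
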